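import Pool.Agent.Lib.H38LT.Defs

set_option autoImplicit false

namespace Pool.Agent.H38LT

open Pool.Agent.H38LS NumberField Height IsDedekindDomain

variable {K : Type*} [Field K] [NumberField K]

/-! Chunk DF (M). The quantities `DS`, `RS`, `TS`, `ZS`, `XX`. Models: H38LS/HJ. All finsums have
finite support (`dmin_finite`), so they are sums over any finite set which contains the support
(`finsum_eq_sum_of_support_subset`). -/

open Classical in
theorem DS_eq_sum {W : WeierstrassCurve K} (S : Finset (HeightOneSpectrum (𝓞 K)))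
    {S0 : Finset (HeightOneSpectrum (𝓞 K))} (hS : ∀ p ∉ S0, dmin W p = 0) :
    DS W S = ∑ p ∈ S0 \ S, (dmin W p : ℝ) * Real.log (Nm p) := by
  unfold DS
  rw [finsum_eq_sum_of_support_subset (s := S0 \ S)]
  · refine Finset.sum_congr rfl fun p hp => ?_
    rw [if_neg (Finset.mem_sdiff.1 hp).2]
  · intro p hp
    rw [Finset.mem_coe, Finset.mem_sdiff]
    constructor
    · by_contra hcon
      apply hp
      show (if p ∈ S then (0 : ℝ) else (dmin W p : ℝ) * Real.log (Nm p)) = 0
      rw [hS p hcon, Nat.cast_zero, zero_mul, ite_self]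
    · intro hcon
      apply hp
      show (if p ∈ S then (0 : ℝ) else (dmin W p : ℝ) * Real.log (Nm p)) = 0
      rw [if_pos hcon]

open Classical in
theorem RS_eq_sum {W : WeierstrassCurve K} (S : Finset (HeightOneSpectrum (𝓞 K)))
    {S0 : Finset (HeightOneSpectrum (𝓞 K))} (hS : ∀ p ∉ S0, dmin W p = 0) :
    RS W S = ∑ p ∈ S0 \ S, if dmin W p = 0 then 0 else Real.log (Nm p) := by
  unfold RS
  rw [finsum_eq_sum_of_support_subset (s := S0 \ S)]
  · refine Finset.sum_congr rfl fun p hp => ?_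
    have h1 := (Finset.mem_sdiff.1 hp).2
    by_cases h0 : dmin W p = 0
    · rw [if_pos (Or.inr h0), if_pos h0]
    · rw [if_neg (not_or.2 ⟨h1, h0⟩), if_neg h0]
  · intro p hp
    rw [Finset.mem_coe, Finset.mem_sdiff]
    constructor
    · by_contra hcon
      apply hp
      show (if p ∈ S ∨ dmin W p = 0 then (0 : ℝ) else Real.log (Nm p)) = 0
      rw [if_pos (Or.inr (hS p hcon))]
    · intro hcon
      apply hp
      show (if p ∈ S ∨ dmin W p = 0 then (0 : ℝ) else Real.log (Nm p)) = 0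
      rw [if_pos (Or.inl hcon)]

open Classical in
theorem TS_eq_sum {W : WeierstrassCurve K} (S : Finset (HeightOneSpectrum (𝓞 K)))
    {S0 : Finset (HeightOneSpectrum (𝓞 K))} (hS : ∀ p ∉ S0, dmin W p = 0) (s : ℕ) :
    TS W S s = ∑ p ∈ S0 \ S,
      if dmin W p ≠ 0 ∧ dmin W p ≤ s then Real.log (Nm p) else 0 := by
  unfold TS
  rw [finsum_eq_sum_of_support_subset (s := S0 \ S)]
  · refine Finset.sum_congr rfl fun p hp => ?_
    have h1 := (Finset.mem_sdiff.1 hp).2
    by_cases h0 : dmin W p ≠ 0 ∧ dmin W p ≤ s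
    · rw [if_pos ⟨h1, h0⟩, if_pos h0]
    · rw [if_neg (fun h => h0 h.2), if_neg h0]
  · intro p hp
    rw [Finset.mem_coe, Finset.mem_sdiff]
    constructor
    · by_contra hcon
      apply hp
      show (if p ∉ S ∧ dmin W p ≠ 0 ∧ dmin W p ≤ s then Real.log (Nm p) else 0) = 0
      rw [if_neg (fun h => h.2.1 (hS p hcon))]
    · intro hcon
      apply hp
      show (if p ∉ S ∧ dmin W p ≠ 0 ∧ dmin W p ≤ s then Real.log (Nm p) else 0) = 0
      rw [if_neg (fun h => h.1 hcon)]

private theorem DF_log_nonneg (p : HeightOneSpectrum (𝓞 K)) : 0 ≤ Real.log (Nm p) :=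
  Real.log_nonneg (one_lt_Nm p).le

private theorem DF_support {W : WeierstrassCurve K} (hW : W.Δ ≠ 0) :
    ∀ p ∉ (dmin_finite hW).toFinset, dmin W p = 0 := by
  intro p hp
  by_contra hcon
  apply hp
  rw [Set.Finite.mem_toFinset]
  exact hcon

theorem DS_nonneg (W : WeierstrassCurve K) (S : Finset (HeightOneSpectrum (𝓞 K))) :
    0 ≤ DS W S := by
  unfold DS
  refine finsum_nonneg fun p => ?_
  split_ifs
  · exact le_rfl
  · exact mul_nonneg (Nat.cast_nonneg _) (DF_log_nonneg p)

theorem TS_nonneg (W : WeierstrassCurve K) (S : Finset (HeightOneSpectrum (𝓞 K))) (s : ℕ) :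
    0 ≤ TS W S s := by
  unfold TS
  refine finsum_nonneg fun p => ?_
  split_ifs
  · exact DF_log_nonneg p
  · exact le_rfl

theorem ZS_nonneg (W : WeierstrassCurve K) [W.IsElliptic] (S : Finset (HeightOneSpectrum (𝓞 K))) :
    0 ≤ ZS W S := by
  unfold ZS
  exact add_nonneg (hinf_nonneg W) (Finset.sum_nonneg fun p _ =>
    mul_nonneg (Nat.cast_nonneg _) (DF_log_nonneg p))

theorem TS_le_RS {W : WeierstrassCurve K} (hW : W.Δ ≠ 0) (S : Finset (HeightOneSpectrum (𝓞 K)))
    (s : ℕ) : TS W S s ≤ RS W S ∧ RS W S ≤ DS W S := by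
  classical
  have hS := DF_support hW
  rw [TS_eq_sum S hS s, RS_eq_sum S hS, DS_eq_sum S hS]
  refine ⟨Finset.sum_le_sum fun p _ => ?_, Finset.sum_le_sum fun p _ => ?_⟩
  · have hl := DF_log_nonneg p
    by_cases h0 : dmin W p = 0
    · rw [if_pos h0, if_neg (fun h => h.1 h0)]
    · rw [if_neg h0]
      split_ifs
      · exact le_rfl
      · exact hl
  · have hl := DF_log_nonneg p
    by_cases h0 : dmin W p = 0
    · rw [if_pos h0]
      exact mul_nonneg (Nat.cast_nonneg _) hl
    · rw [if_neg h0]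
      have h1 : (1 : ℝ) ≤ (dmin W p : ℝ) := by
        exact_mod_cast Nat.one_le_iff_ne_zero.mpr h0
      nlinarith

/-- The primes with `dmin > s` contribute at most `DS/s` to `RS`. -/
theorem TS_ge {W : WeierstrassCurve K} (hW : W.Δ ≠ 0) (S : Finset (HeightOneSpectrum (𝓞 K)))
    {s : ℕ} (hs : 1 ≤ s) : RS W S - DS W S / s ≤ TS W S s := by
  classical
  have hS := DF_support hW
  rw [TS_eq_sum S hS s, RS_eq_sum S hS, DS_eq_sum S hS, Finset.sum_div,
    ← Finset.sum_sub_distrib]
  refine Finset.sum_le_sum fun p _ => ?_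
  have hl := DF_log_nonneg p
  have hs0 : (0 : ℝ) < s := by exact_mod_cast hs
  by_cases h0 : dmin W p = 0
  · rw [if_pos h0, if_neg (fun h => h.1 h0), h0]
    simp
  · rw [if_neg h0]
    by_cases h1 : dmin W p ≤ s
    · rw [if_pos ⟨h0, h1⟩]
      have h2 : 0 ≤ (dmin W p : ℝ) * Real.log (Nm p) / s :=
        div_nonneg (mul_nonneg (Nat.cast_nonneg _) hl) hs0.le
      linarith
    · rw [if_neg (fun h => h1 h.2)]
      have h2 : (s : ℝ) ≤ (dmin W p : ℝ) := by
        exact_mod_cast (not_le.mp h1).le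
      have h3 : Real.log (Nm p) ≤ (dmin W p : ℝ) * Real.log (Nm p) / s := by
        rw [le_div_iff₀ hs0]
        nlinarith
      linarith

theorem ZS_add_DS (W : WeierstrassCurve K) [W.IsElliptic] (S : Finset (HeightOneSpectrum (𝓞 K))) :
    ZS W S + DS W S = logDisc W + hinf W := by
  classical
  have hΔ : W.Δ ≠ 0 := W.isUnit_Δ.ne_zero
  have hS := DF_support hΔ
  have hS' : ∀ p ∉ (dmin_finite hΔ).toFinset ∪ S, dmin W p = 0 := fun p hp =>
    hS p (fun h => hp (Finset.mem_union_left _ h))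
  rw [DS_eq_sum S hS', logDisc_eq_sum hS']
  unfold ZS
  have h := Finset.sum_sdiff (f := fun p : HeightOneSpectrum (𝓞 K) =>
    (dmin W p : ℝ) * Real.log (Nm p))
    (Finset.subset_union_right (s₁ := (dmin_finite hΔ).toFinset) (s₂ := S))
  linarith

/-- `max (logDisc) (h(j)) ≤ logDisc + hinf ≤ 2 max (logDisc) (h(j))`: `logHeight_j_le`, and
`hinf ≤ h(j)` (the other terms of `h(j)` are `≥ 0`, `NumberField.logHeight₁_eq`). -/
theorem HH_le (W : WeierstrassCurve K) [W.IsElliptic] :
    HH W ≤ logDisc W + hinf W ∧ logDisc W + hinf W ≤ 2 * HH W := by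
  have hΔ : W.Δ ≠ 0 := W.isUnit_Δ.ne_zero
  have h1 := logHeight_j_le W
  have h2 := hinf_nonneg W
  have h3 : 0 ≤ logDisc W := by
    unfold logDisc
    exact finsum_nonneg fun p => mul_nonneg (Nat.cast_nonneg _) (DF_log_nonneg p)
  have h4 : hinf W ≤ logHeight₁ W.j := by
    rw [NumberField.logHeight₁_eq]
    have harch : (∑ v : InfinitePlace K, (v.mult : ℝ) * Real.posLog (v W.j)) = hinf W := by
      unfold hinf
      refine Finset.sum_congr rfl fun v _ => ?_
      rw [Real.posLog_eq_log_max_one (apply_nonneg v W.j)]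
    rw [harch]
    have h5 : 0 ≤ ∑ᶠ v : FinitePlace K, Real.posLog (v W.j) :=
      finsum_nonneg fun v => Real.posLog_nonneg
    linarith
  unfold HH
  refine ⟨max_le (by linarith) h1, ?_⟩
  have h6 := le_max_left (logDisc W) (logHeight₁ W.j)
  have h7 := le_max_right (logDisc W) (logHeight₁ W.j)
  linarith

/-- A prime outside `S` which divides the minimal discriminant. -/
theorem log_le_RS {W : WeierstrassCurve K} (hW : W.Δ ≠ 0) (S : Finset (HeightOneSpectrum (𝓞 K)))
    {p : HeightOneSpectrum (𝓞 K)} (hp : p ∉ S) (hd : dmin W p ≠ 0) :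
    Real.log (Nm p) ≤ RS W S := by
  classical
  have hS := DF_support hW
  rw [RS_eq_sum S hS]
  have hmem : p ∈ (dmin_finite hW).toFinset \ S := by
    rw [Finset.mem_sdiff, Set.Finite.mem_toFinset]
    exact ⟨hd, hp⟩
  have h := Finset.single_le_sum (f := fun q : HeightOneSpectrum (𝓞 K) =>
    if dmin W q = 0 then (0 : ℝ) else Real.log (Nm q)) (fun q _ => by
      show (0 : ℝ) ≤ if dmin W q = 0 then (0 : ℝ) else Real.log (Nm q)
      split_ifs
      · exact le_rfl
      · exact DF_log_nonneg q) hmem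
  have h2 : (if dmin W p = 0 then (0 : ℝ) else Real.log (Nm p)) = Real.log (Nm p) := if_neg hd
  rw [← h2]
  exact h

theorem DS_eq_zero {W : WeierstrassCurve K} {S : Finset (HeightOneSpectrum (𝓞 K))}
    (h : ∀ p ∉ S, dmin W p = 0) : DS W S = 0 := by
  classical
  rw [DS_eq_sum S h]
  rw [Finset.sdiff_self, Finset.sum_empty]

end Pool.Agent.H38LT
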