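import Pool.Agent.Lib.H38LS.FN2

/-!
# H38LT (MP_d8f466_nt): definitions

Second stage of H38LS: the interval `{i R : |i| ≤ N}` is replaced by a finite set `A` of positive
indices, chosen by pigeonhole such that all positions at the places of `S` and at the infinite
places are close to each other.
-/

set_option autoImplicit false

namespace Pool.Agent.H38LT

open Pool.Agent.H38LS WeierstrassCurve NumberField Height Filter IsDedekindDomain

universe u

/-- Index set: the pairs `(i, j)`, `i ≠ j`, of `A` (for the differences `i - j`) and all pairs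
`(i, j)` of `A` (for the sums `i + j`). -/
def IX (A : Finset ℤ) : Finset ((ℤ × ℤ) ⊕ (ℤ × ℤ)) := A.offDiag.disjSum (A ×ˢ A)

/-- The difference or the sum. -/
def vl : (ℤ × ℤ) ⊕ (ℤ × ℤ) → ℤ := Sum.elim (fun x => x.1 - x.2) (fun x => x.1 + x.2)

variable {K : Type u} [Field K]

/-- The positions of the `i R`, `i ∈ A`, differ by at most `L/100`. -/
def Close (v : AbsoluteValue K ℝ) (L : ℝ) {W : WeierstrassCurve K} [NumberField K] [DecidableEq K]
    [W.IsElliptic] (R : W.toAffine.Point) (A : Finset ℤ) : Prop :=
  ∀ i ∈ A, ∀ j ∈ A, |aP v L (i • R) - aP v L (j • R)| ≤ L / 100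

variable [NumberField K]

open Classical in
/-- Logarithm of the norm of the prime-to-`S` part of the minimal discriminant. -/
noncomputable def DS (W : WeierstrassCurve K) (S : Finset (HeightOneSpectrum (𝓞 K))) : ℝ :=
  ∑ᶠ p : HeightOneSpectrum (𝓞 K), if p ∈ S then 0 else (dmin W p : ℝ) * Real.log (Nm p)

open Classical in
/-- Logarithm of the norm of the product of the primes outside `S` which divide the minimal
discriminant. -/
noncomputable def RS (W : WeierstrassCurve K) (S : Finset (HeightOneSpectrum (𝓞 K))) : ℝ :=
  ∑ᶠ p : HeightOneSpectrum (𝓞 K), if p ∈ S ∨ dmin W p = 0 then 0 else Real.log (Nm p)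

open Classical in
/-- Logarithm of the norm of the product of the primes outside `S` which divide the minimal
discriminant with an exponent at most `s`. -/
noncomputable def TS (W : WeierstrassCurve K) (S : Finset (HeightOneSpectrum (𝓞 K))) (s : ℕ) : ℝ :=
  ∑ᶠ p : HeightOneSpectrum (𝓞 K),
    if p ∉ S ∧ dmin W p ≠ 0 ∧ dmin W p ≤ s then Real.log (Nm p) else 0

/-- The part of the height at the infinite places and at the primes of `S`. -/
noncomputable def ZS (W : WeierstrassCurve K) [W.IsElliptic]
    (S : Finset (HeightOneSpectrum (𝓞 K))) : ℝ :=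
  hinf W + ∑ p ∈ S, (dmin W p : ℝ) * Real.log (Nm p)

/-- `ZS` and the radical of the part of the minimal discriminant outside `S` with exponents at
most `s`. -/
noncomputable def XX (W : WeierstrassCurve K) [W.IsElliptic]
    (S : Finset (HeightOneSpectrum (𝓞 K))) (s : ℕ) : ℝ :=
  ZS W S + TS W S s

end Pool.Agent.H38LT
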