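import Pool.Agent.Lib.H38LT.Defs

set_option autoImplicit false

namespace Pool.Agent.H38LT

open Pool.Agent.H38LS NumberField Height IsDedekindDomain WeierstrassCurve

variable {K : Type*} [Field K] [NumberField K]

/-! Chunk EE (M). Upper bound for the exponent of the minimal discriminant.

Proof. For a prime `p` let `μ = min (|48|_p ^ 3) (|864|_p ^ 2)` (`0 < μ ≤ 1`, and `μ = 1` if
`p ∤ 6`), `n = Nm p`, `J = max 1 |j|_p`. Let `k` be the largest integer with
`|Δ| J n^(12 k) ≤ μ`. The short Weierstrass model with `u = a`, `|a|_p = n^(-k)` (power of a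
uniformiser, `av_uniformizer`; variable change with `r = -b₂/12`, `s = -a₁/2`, `t = -(a₃ + r a₁)/2`, see
the model in the proof of `dmin_of_even` in H38LS/DD2 and of `disc_not_twelfth` in H38LS/DD3) has
the coefficients `-c₄/(48 a⁴)`, `-c₆/(864 a⁶)`, integral because `|c₄|³ = |j| |Δ|`,
`|c₆|² = |c₄³ - 1728 Δ| ≤ J |Δ|`, and the discriminant `Δ/a^12`. By `dmin_minimal`
`dmin log n ≤ - log |Δ| - 12 k log n < log J + 12 log n - log μ` (maximality of `k`). Only finitely
many `p` divide 6 (`av_six_finite`): `E = 12 + ∑_(p ∣ 6) (- log μ_p/log (Nm p))`. -/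

private theorem EE_short (W : WeierstrassCurve K) (u : Kˣ) (C : VariableChange K)
    (hu : C.u = u) (hr : C.r = -W.b₂ / 12) (hs : C.s = -W.a₁ / 2)
    (ht : C.t = -(W.a₃ + C.r * W.a₁) / 2) :
    (C • W).a₁ = 0 ∧ (C • W).a₂ = 0 ∧ (C • W).a₃ = 0 ∧
      (C • W).a₄ = (u⁻¹ : Kˣ) ^ 4 * (-W.c₄ / 48) ∧
      (C • W).a₆ = (u⁻¹ : Kˣ) ^ 6 * (-W.c₆ / 864) := by
  refine ⟨?_, ?_, ?_, ?_, ?_⟩
  · rw [variableChange_a₁, hs]; ring
  · rw [variableChange_a₂, hs, hr, WeierstrassCurve.b₂]; ring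
  · rw [variableChange_a₃, ht]; ring
  · rw [variableChange_a₄, ht, hs, hr, hu, WeierstrassCurve.c₄, WeierstrassCurve.b₂,
      WeierstrassCurve.b₄]
    ring
  · rw [variableChange_a₆, ht, hr, hu, WeierstrassCurve.c₆, WeierstrassCurve.b₂,
      WeierstrassCurve.b₄, WeierstrassCurve.b₆]
    ring

private theorem EE_c4_rel {W : WeierstrassCurve K} [W.IsElliptic] :
    W.c₄ ^ 3 = W.Δ * W.j := by
  rw [WeierstrassCurve.j, ← mul_assoc, ← W.coe_Δ', Units.mul_inv, one_mul]

private theorem EE_nat (p : HeightOneSpectrum (𝓞 K)) (n : ℕ) : av p (n : K) ≤ 1 := by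
  induction n with
  | zero => rw [Nat.cast_zero, map_zero]; norm_num
  | succ n ih =>
    rw [Nat.cast_succ]
    exact (av_nonarch p _ _).trans (max_le ih (by rw [map_one]))

/-- The bound at one prime. -/
private theorem EE_one (p : HeightOneSpectrum (𝓞 K)) (W : WeierstrassCurve K) [W.IsElliptic]
    {μ : ℝ} (hμ0 : 0 < μ) (hμ1 : μ ≤ av p 48 ^ 3) (hμ2 : μ ≤ av p 864 ^ 2) :
    (dmin W p : ℝ) * Real.log (Nm p) ≤
      Real.log (max 1 (av p W.j)) + (12 * Real.log (Nm p) - Real.log μ) := by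
  have hW : W.Δ ≠ 0 := W.isUnit_Δ.ne_zero
  have hN := one_lt_Nm p
  have hN0 : 0 < Nm p := by linarith
  have hlog : 0 < Real.log (Nm p) := Real.log_pos hN
  have hΔ : 0 < av p W.Δ := (av p).pos hW
  set J : ℝ := max 1 (av p W.j) with hJ
  have hJ1 : 1 ≤ J := le_max_left _ _
  have hJ0 : 0 < J := by linarith
  set A : ℝ := av p W.Δ * J with hA
  have hA0 : 0 < A := mul_pos hΔ hJ0
  set k : ℤ := ⌊(Real.log μ - Real.log A) / (12 * Real.log (Nm p))⌋ with hk
  have h12 : 0 < 12 * Real.log (Nm p) := by linarith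
  have hk1 : (k : ℝ) * (12 * Real.log (Nm p)) ≤ Real.log μ - Real.log A := by
    have := Int.floor_le ((Real.log μ - Real.log A) / (12 * Real.log (Nm p)))
    rw [le_div_iff₀ h12] at this
    exact this
  have hk2 : Real.log μ - Real.log A < ((k : ℝ) + 1) * (12 * Real.log (Nm p)) := by
    have := Int.lt_floor_add_one ((Real.log μ - Real.log A) / (12 * Real.log (Nm p)))
    rw [div_lt_iff₀ h12] at this
    exact this
  -- the choice of `k`
  have hmain : A * Nm p ^ (12 * k) ≤ μ := by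
    have h0 : 0 < A * Nm p ^ (12 * k) := by positivity
    rw [← Real.log_le_log_iff h0 hμ0, Real.log_mul hA0.ne' (by positivity), Real.log_zpow]
    push_cast
    linarith
  -- bounds for c4 and c6
  have h1728 : av p 1728 ≤ 1 := by
    have := EE_nat p 1728
    push_cast at this
    exact this
  have hc4 : av p W.c₄ ^ 3 ≤ A := by
    rw [← map_pow, EE_c4_rel, map_mul]
    exact mul_le_mul_of_nonneg_left (le_max_right _ _) hΔ.le
  have hc6 : av p W.c₆ ^ 2 ≤ A := by
    have e : W.c₆ ^ 2 = W.c₄ ^ 3 + -(1728 * W.Δ) := by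
      rw [WeierstrassCurve.c_relation]; ring
    rw [← map_pow, e]
    refine (av_nonarch p _ _).trans (max_le ?_ ?_)
    · rw [map_pow]; exact hc4
    · rw [(av p).map_neg, map_mul]
      calc av p 1728 * av p W.Δ ≤ 1 * av p W.Δ := mul_le_mul_of_nonneg_right h1728 hΔ.le
        _ = av p W.Δ * 1 := by ring
        _ ≤ A := mul_le_mul_of_nonneg_left hJ1 hΔ.le
  -- the short model
  obtain ⟨π, hπ⟩ := av_uniformizer p
  have hπ0 : π ≠ 0 := by
    intro h0
    rw [h0, map_zero] at hπ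
    exact (inv_pos.2 hN0).ne hπ
  set u : Kˣ := (Units.mk0 π hπ0) ^ k with hu
  have huv : av p ((u⁻¹ : Kˣ) : K) = Nm p ^ k := by
    rw [hu, ← zpow_neg, Units.val_zpow_eq_zpow_val, Units.val_mk0, map_zpow₀, hπ, inv_zpow',
      neg_neg]
  let D : VariableChange K := ⟨u, -W.b₂ / 12, -W.a₁ / 2, -(W.a₃ + -W.b₂ / 12 * W.a₁) / 2⟩
  obtain ⟨e1, e2, e3, e4, e6⟩ := EE_short W u D rfl rfl rfl rfl
  have h48 : 0 < av p 48 := (av p).pos (by norm_num)
  have h864 : 0 < av p 864 := (av p).pos (by norm_num)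
  have hint : IntegralAt (av p) (D • W) := by
    refine ⟨?_, ?_, ?_, ?_, ?_⟩
    · rw [e1, map_zero]; norm_num
    · rw [e2, map_zero]; norm_num
    · rw [e3, map_zero]; norm_num
    · rw [e4, map_mul, map_pow, huv, map_div₀, (av p).map_neg, ← mul_div_assoc,
        div_le_one h48]
      have h3 : ((Nm p ^ k) ^ 4 * av p W.c₄) ^ 3 ≤ av p 48 ^ 3 := by
        calc ((Nm p ^ k) ^ 4 * av p W.c₄) ^ 3 = Nm p ^ (12 * k) * av p W.c₄ ^ 3 := by
              rw [mul_pow, ← pow_mul, ← zpow_natCast, ← zpow_mul]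
              congr 2
              push_cast
              ring
          _ ≤ Nm p ^ (12 * k) * A := mul_le_mul_of_nonneg_left hc4 (by positivity)
          _ = A * Nm p ^ (12 * k) := mul_comm _ _
          _ ≤ μ := hmain
          _ ≤ _ := hμ1
      exact (pow_le_pow_iff_left₀ (mul_nonneg (by positivity) ((av p).nonneg _)) h48.le
        (by norm_num)).1 h3
    · rw [e6, map_mul, map_pow, huv, map_div₀, (av p).map_neg, ← mul_div_assoc,
        div_le_one h864]
      have h3 : ((Nm p ^ k) ^ 6 * av p W.c₆) ^ 2 ≤ av p 864 ^ 2 := by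
        calc ((Nm p ^ k) ^ 6 * av p W.c₆) ^ 2 = Nm p ^ (12 * k) * av p W.c₆ ^ 2 := by
              rw [mul_pow, ← pow_mul, ← zpow_natCast, ← zpow_mul]
              congr 2
              push_cast
              ring
          _ ≤ Nm p ^ (12 * k) * A := mul_le_mul_of_nonneg_left hc6 (by positivity)
          _ = A * Nm p ^ (12 * k) := mul_comm _ _
          _ ≤ μ := hmain
          _ ≤ _ := hμ2
      exact (pow_le_pow_iff_left₀ (mul_nonneg (by positivity) ((av p).nonneg _)) h864.le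
        (by norm_num)).1 h3
  have hmin := dmin_minimal hW p D hint
  have huD : av p ((D.u⁻¹ : Kˣ) : K) = Nm p ^ k := huv
  rw [variableChange_Δ, map_mul, map_pow, huD] at hmin
  have h5 : 0 < (Nm p ^ k) ^ 12 * av p W.Δ := by positivity
  have h6 := Real.log_le_log h5 hmin
  rw [Real.log_mul (by positivity) hΔ.ne', Real.log_pow, Real.log_zpow, Real.log_zpow] at h6
  have h7 : Real.log A = Real.log (av p W.Δ) + Real.log J := Real.log_mul hΔ.ne' hJ0.ne'
  push_cast at h6
  linarith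

theorem dmin_le : ∃ E : ℝ, 1 ≤ E ∧ ∀ (p : HeightOneSpectrum (𝓞 K)) (W : WeierstrassCurve K)
    [W.IsElliptic], (dmin W p : ℝ) * Real.log (Nm p) ≤
      Real.log (max 1 (av p W.j)) + E * Real.log (Nm p) := by
  classical
  let μ : HeightOneSpectrum (𝓞 K) → ℝ := fun p => min (av p 48 ^ 3) (av p 864 ^ 2)
  have h48 : ∀ p : HeightOneSpectrum (𝓞 K), 0 < av p 48 := fun p => (av p).pos (by norm_num)
  have h864 : ∀ p : HeightOneSpectrum (𝓞 K), 0 < av p 864 := fun p => (av p).pos (by norm_num)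
  have hμ0 : ∀ p, 0 < μ p := fun p => lt_min (pow_pos (h48 p) 3) (pow_pos (h864 p) 2)
  have hμ1 : ∀ p, μ p ≤ 1 := fun p => by
    refine (min_le_left _ _).trans (pow_le_one₀ ((av p).nonneg _) ?_)
    have := EE_nat p 48
    push_cast at this
    exact this
  let g : HeightOneSpectrum (𝓞 K) → ℝ := fun p => -Real.log (μ p) / Real.log (Nm p)
  have hg0 : ∀ p, 0 ≤ g p := fun p => by
    have h1 : Real.log (μ p) ≤ 0 := Real.log_nonpos (hμ0 p).le (hμ1 p)
    have h2 : 0 < Real.log (Nm p) := Real.log_pos (one_lt_Nm p)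
    exact div_nonneg (by linarith) h2.le
  set T := (av_six_finite (K := K)).toFinset with hT
  have hsum0 : 0 ≤ ∑ p ∈ T, g p := Finset.sum_nonneg fun p _ => hg0 p
  refine ⟨12 + ∑ p ∈ T, g p, by linarith, fun p W _ => ?_⟩
  have h2 : 0 < Real.log (Nm p) := Real.log_pos (one_lt_Nm p)
  have h1 := EE_one p W (hμ0 p) (min_le_left _ _) (min_le_right _ _)
  have h3 : -Real.log (μ p) ≤ (∑ p ∈ T, g p) * Real.log (Nm p) := by
    by_cases hp : p ∈ T
    · have h4 : g p ≤ ∑ p ∈ T, g p := Finset.single_le_sum (fun q _ => hg0 q) hp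
      have h5 : g p * Real.log (Nm p) = -Real.log (μ p) := div_mul_cancel₀ _ h2.ne'
      rw [← h5]
      exact mul_le_mul_of_nonneg_right h4 h2.le
    · rw [hT, Set.Finite.mem_toFinset] at hp
      have hp' : av p 2 = 1 ∧ av p 3 = 1 := by
        by_contra hc
        exact hp hc
      have v48 : av p 48 = 1 := by
        have e : (48 : K) = 2 ^ 4 * 3 := by norm_num
        rw [e, map_mul, map_pow, hp'.1, hp'.2]
        norm_num
      have v864 : av p 864 = 1 := by
        have e : (864 : K) = 2 ^ 5 * 3 ^ 3 := by norm_num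
        rw [e, map_mul, map_pow, map_pow, hp'.1, hp'.2]
        norm_num
      have hμp : μ p = 1 := by
        show min (av p 48 ^ 3) (av p 864 ^ 2) = 1
        rw [v48, v864]
        norm_num
      rw [hμp, Real.log_one, neg_zero]
      positivity
  have h4 : (12 + ∑ p ∈ T, g p) * Real.log (Nm p) =
      12 * Real.log (Nm p) + (∑ p ∈ T, g p) * Real.log (Nm p) := by ring
  rw [h4]
  linarith

end Pool.Agent.H38LT
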