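import Pool.Agent.Lib.H38LT.Defs

set_option autoImplicit false

namespace Pool.Agent.H38LT

open Pool.Agent.H38LS WeierstrassCurve NumberField Height Filter

universe u

variable {K : Type u} [Field K] [NumberField K] [DecidableEq K]

/-! Chunk NB (M). A height function which is almost multiplied by 4 by the duplication.

Proof. `p_n = (dup W)^[n] (xr Q) ≠ 0` (`dup_iter_ne_zero`, H38LS/X2; `xr_ne_zero`). By induction
`γ p_n ≥ 4^n γ p_0 - C (4^n - 1)/3`. `p_n` is proportional to `xr (2^n Q)` (`iter_xr`, H38LS/P2), so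
`logHeight ![p_n.1, p_n.2] = xh (2^n Q)` (`logHeight_smul_eq_logHeight`), hence
`4^n (γ p_0 - C/3) ≤ e xh (2^n Q) + CW`; divide by `4^n`, `n → ∞`, `hhat_tendsto`
(`xh (2^n Q)/4^n → 2 hhat Q`). -/

theorem gamma_bound {C e : ℝ} (he : 0 ≤ e) (hC : 0 ≤ C) {W : WeierstrassCurve K} [W.IsElliptic]
    (γ : K × K → ℝ) {CW : ℝ}
    (h1 : ∀ p : K × K, p ≠ 0 → γ p ≤ e * logHeight ![p.1, p.2] + CW)
    (h2 : ∀ p : K × K, p ≠ 0 → 4 * γ p - C ≤ γ (dup W p)) (Q : W.toAffine.Point) :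
    γ (xr Q) ≤ 2 * e * hhat Q + C / 3 := by
  have hW : W.Δ ≠ 0 := W.isUnit_Δ.ne_zero
  have hind : ∀ n : ℕ, 4 ^ n * γ (xr Q) - C * (4 ^ n - 1) / 3 ≤ γ ((dup W)^[n] (xr Q)) := by
    intro n
    induction n with
    | zero => simp
    | succ n ih =>
      rw [Function.iterate_succ_apply']
      have h3 := h2 _ (dup_iter_ne_zero hW (xr_ne_zero Q) n)
      have e1 : (4 : ℝ) ^ (n + 1) * γ (xr Q) - C * (4 ^ (n + 1) - 1) / 3 =
          4 * (4 ^ n * γ (xr Q) - C * (4 ^ n - 1) / 3) - C := by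
        rw [pow_succ]
        ring
      rw [e1]
      linarith
  have hxh : ∀ n : ℕ, logHeight ![((dup W)^[n] (xr Q)).1, ((dup W)^[n] (xr Q)).2] =
      xh ((2 ^ n : ℕ) • Q) := by
    intro n
    obtain ⟨l, hl, hxr⟩ := iter_xr hW Q n
    rw [xh, hxr]
    have h3 : ![(l • (dup W)^[n] (xr Q)).1, (l • (dup W)^[n] (xr Q)).2] =
        l • ![((dup W)^[n] (xr Q)).1, ((dup W)^[n] (xr Q)).2] := by
      ext i
      fin_cases i <;> rfl
    rw [h3, logHeight_smul_eq_logHeight _ hl]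
  have hb : ∀ n : ℕ, γ (xr Q) - C / 3 ≤
      2 * e * (xh ((2 ^ n : ℕ) • Q) / (2 * 4 ^ n)) + CW * (1 / 4 : ℝ) ^ n := by
    intro n
    have h3 := h1 _ (dup_iter_ne_zero hW (xr_ne_zero Q) n)
    rw [hxh] at h3
    have h4 := (hind n).trans h3
    have h5 : (0 : ℝ) < 4 ^ n := by positivity
    have h6 : (1 / 4 : ℝ) ^ n = 1 / 4 ^ n := by
      rw [one_div, one_div, inv_pow]
    have h7 : 2 * e * (xh ((2 ^ n : ℕ) • Q) / (2 * 4 ^ n)) + CW * (1 / 4 : ℝ) ^ n =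
        (e * xh ((2 ^ n : ℕ) • Q) + CW) / 4 ^ n := by
      rw [h6]
      field_simp
    rw [h7, le_div_iff₀ h5]
    nlinarith
  have ht1 : Tendsto (fun n : ℕ => 2 * e * (xh ((2 ^ n : ℕ) • Q) / (2 * 4 ^ n)) +
      CW * (1 / 4 : ℝ) ^ n) atTop (nhds (2 * e * hhat Q + CW * 0)) :=
    ((hhat_tendsto W Q).const_mul (2 * e)).add
      ((tendsto_pow_atTop_nhds_zero_of_lt_one (by norm_num) (by norm_num)).const_mul CW)
  have h8 := ge_of_tendsto' ht1 hb
  linarith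

end Pool.Agent.H38LT
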