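import Pool.Agent.Lib.H38LT.Defs

set_option autoImplicit false

namespace Pool.Agent.H38LT

open Pool.Agent.H38LS WeierstrassCurve NumberField Height

universe u

variable {K : Type u} [Field K] [NumberField K]

/-! Chunk NE (M). Two explicit maps of degree 4 of the projective line: lower bounds for the height.

Proof. `Height.logHeight_eval_ge'` (Mathlib.NumberTheory.Height.MvPolynomial) with `M = 3`, `N = 4`,
`ι = ι' = Fin 2`, polynomials in `X 0 = z`, `X 1 = w`, and the identities (`F, G` the two components):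
for the first map, `F = z (z - 8 w)³`, `G = 64 w (z + w)³`:
`z⁷ = (z³ + 58696/19683 z² w + 58496/19683 z w² + 19456/19683 w³) F
  + (6464/19683 z³ - 57344/19683 z² w + 155648/19683 z w²) G`,
`w⁷ = (38/19683 z² w + 112/19683 z w² + 101/19683 w³) F
  + (-19/629856 z³ + 457/629856 z² w - 7337/1259712 z w² + 1/64 w³) G`;
for the second map, `F = (z - w)⁴`, `G = 16 z w (z + w)²`:
`z⁷ = (z³ + 7/4 z² w + 13/16 z w²) F + (9/64 z³ - 69/256 z² w + 25/128 z w² - 13/256 w³) G`,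
`w⁷ = (13/16 z² w + 7/4 z w² + w³) F + (-13/256 z³ + 25/128 z² w - 69/256 z w² + 9/64 w³) G`. -/

open MvPolynomial in
/-- A binary cubic form. -/
private noncomputable def NE_q (a : Fin 2 × Fin 2 → Fin 4 → K) :
    Fin 2 × Fin 2 → MvPolynomial (Fin 2) K := fun i =>
  C (a i 0) * X 0 ^ 3 + C (a i 1) * (X 0 ^ 2 * X 1) + C (a i 2) * (X 0 * X 1 ^ 2) +
    C (a i 3) * X 1 ^ 3

open MvPolynomial in
private theorem NE_hom (a : Fin 2 × Fin 2 → Fin 4 → K) (i : Fin 2 × Fin 2) :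
    (NE_q a i).IsHomogeneous 3 := by
  have h0 : (X 0 : MvPolynomial (Fin 2) K).IsHomogeneous 1 := isHomogeneous_X _ _
  have h1 : (X 1 : MvPolynomial (Fin 2) K).IsHomogeneous 1 := isHomogeneous_X _ _
  unfold NE_q
  refine IsHomogeneous.add (IsHomogeneous.add (IsHomogeneous.add ?_ ?_) ?_) ?_
  · exact (h0.pow 3).C_mul _
  · exact ((h0.pow 2).mul h1).C_mul _
  · exact (h0.mul (h1.pow 2)).C_mul _
  · exact (h1.pow 3).C_mul _

private theorem NE_gen (a : Fin 2 × Fin 2 → Fin 4 → K) : ∃ C : ℝ, 0 ≤ C ∧ ∀ z w F G : K,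
    (a (0, 0) 0 * z ^ 3 + a (0, 0) 1 * (z ^ 2 * w) + a (0, 0) 2 * (z * w ^ 2) +
      a (0, 0) 3 * w ^ 3) * F +
    (a (0, 1) 0 * z ^ 3 + a (0, 1) 1 * (z ^ 2 * w) + a (0, 1) 2 * (z * w ^ 2) +
      a (0, 1) 3 * w ^ 3) * G = z ^ 7 →
    (a (1, 0) 0 * z ^ 3 + a (1, 0) 1 * (z ^ 2 * w) + a (1, 0) 2 * (z * w ^ 2) +
      a (1, 0) 3 * w ^ 3) * F +
    (a (1, 1) 0 * z ^ 3 + a (1, 1) 1 * (z ^ 2 * w) + a (1, 1) 2 * (z * w ^ 2) +
      a (1, 1) 3 * w ^ 3) * G = w ^ 7 →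
    4 * logHeight ![z, w] - C ≤ logHeight ![F, G] := by
  obtain ⟨C₀, hC₀⟩ := Height.logHeight_eval_ge' (K := K) (N := 4) (NE_hom a)
  refine ⟨max (-C₀) 0, le_max_right _ _, fun z w F G h1 h2 => ?_⟩
  have h := hC₀ (fun j => MvPolynomial.C ((![F, G] : Fin 2 → K) j)) (x := ![z, w]) (by
      intro k
      fin_cases k
      · simp only [NE_q, Fin.sum_univ_two]
        simp
        linear_combination h1
      · simp only [NE_q, Fin.sum_univ_two]
        simp
        linear_combination h2)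
  have e : (fun j => (MvPolynomial.eval ![z, w])
      (MvPolynomial.C (σ := Fin 2) ((![F, G] : Fin 2 → K) j))) = ![F, G] := by
    funext j
    simp
  rw [e] at h
  push_cast at h
  have := le_max_left (-C₀) 0
  linarith

theorem phi0_height : ∃ C : ℝ, 0 ≤ C ∧ ∀ z w : K,
    4 * logHeight ![z, w] - C ≤
      logHeight ![z * (z - 8 * w) ^ 3, 64 * w * (z + w) ^ 3] := by
  obtain ⟨C, hC, h⟩ := NE_gen (K := K) (fun i => (![![![1, 58696 / 19683, 58496 / 19683,
    19456 / 19683], ![6464 / 19683, -57344 / 19683, 155648 / 19683, 0]],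
    ![![0, 38 / 19683, 112 / 19683, 101 / 19683], ![-19 / 629856, 457 / 629856,
      -7337 / 1259712, 1 / 64]]] : Fin 2 → Fin 2 → Fin 4 → K) i.1 i.2)
  refine ⟨C, hC, fun z w => h z w _ _ ?_ ?_⟩
  · simp
    field_simp
    ring
  · simp
    field_simp
    ring

theorem phi1_height : ∃ C : ℝ, 0 ≤ C ∧ ∀ z w : K,
    4 * logHeight ![z, w] - C ≤
      logHeight ![(z - w) ^ 4, 16 * z * w * (z + w) ^ 2] := by
  obtain ⟨C, hC, h⟩ := NE_gen (K := K) (fun i => (![![![1, 7 / 4, 13 / 16, 0],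
    ![9 / 64, -69 / 256, 25 / 128, -13 / 256]],
    ![![0, 13 / 16, 7 / 4, 1], ![-13 / 256, 25 / 128, -69 / 256, 9 / 64]]] :
      Fin 2 → Fin 2 → Fin 4 → K) i.1 i.2)
  refine ⟨C, hC, fun z w => h z w _ _ ?_ ?_⟩
  · simp
    field_simp
    ring
  · simp
    field_simp
    ring

end Pool.Agent.H38LT
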