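import Pool.Agent.Lib.H38LT.Defs

set_option autoImplicit false

namespace Pool.Agent.H38LT

open Pool.Agent.H38LS WeierstrassCurve NumberField Height

universe u

variable {K : Type u} [Field K] [NumberField K]

/-! Chunk NE2 (S/M). -/

private theorem NE2_pow (n : ℕ) (a b : K) : ∃ C : ℝ, ∀ p : K × K,
    logHeight ![(p.1 + a * p.2) ^ n, b * p.2 ^ n] ≤ n * logHeight ![p.1, p.2] + C := by
  obtain ⟨q, hq⟩ : ∃ q : Fin 2 → MvPolynomial (Fin 2) K,
      q = ![(MvPolynomial.X 0 + MvPolynomial.C a * MvPolynomial.X 1) ^ n,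
        MvPolynomial.C b * MvPolynomial.X 1 ^ n] := ⟨_, rfl⟩
  have h : ∀ i : Fin 2, (q i).IsHomogeneous n := by
    intro i
    rw [hq]
    fin_cases i
    · have h1 : (MvPolynomial.X 0 + MvPolynomial.C a * MvPolynomial.X 1 :
          MvPolynomial (Fin 2) K).IsHomogeneous 1 := by
        refine (MvPolynomial.isHomogeneous_X _ _).add ?_
        have h2 := (MvPolynomial.isHomogeneous_C (Fin 2) a).mul (MvPolynomial.isHomogeneous_X K (1 : Fin 2))
        rwa [zero_add] at h2
      have h3 := h1.pow n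
      rw [one_mul] at h3
      exact h3
    · have h1 := (MvPolynomial.isHomogeneous_X K (1 : Fin 2)).pow n
      rw [one_mul] at h1
      have h2 := (MvPolynomial.isHomogeneous_C (Fin 2) b).mul h1
      rw [zero_add] at h2
      exact h2
  obtain ⟨C, hC⟩ := logHeight_eval_le' h
  refine ⟨C, fun p => ?_⟩
  have h2 := hC ![p.1, p.2]
  have h3 : (fun j => (q j).eval ![p.1, p.2]) = ![(p.1 + a * p.2) ^ n, b * p.2 ^ n] := by
    funext j
    rw [hq]
    fin_cases j <;> simp
  rw [h3] at h2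
  linarith

/-- The power maps (upper bounds): `Height.logHeight_eval_le'`. -/
theorem pow3_height (a b : K) : ∃ C : ℝ, ∀ p : K × K,
    logHeight ![(p.1 + a * p.2) ^ 3, b * p.2 ^ 3] ≤ 3 * logHeight ![p.1, p.2] + C := by
  obtain ⟨C, hC⟩ := NE2_pow 3 a b
  refine ⟨C, fun p => ?_⟩
  have h := hC p
  push_cast at h
  exact h

theorem pow2_height (a b : K) : ∃ C : ℝ, ∀ p : K × K,
    logHeight ![(p.1 + a * p.2) ^ 2, b * p.2 ^ 2] ≤ 2 * logHeight ![p.1, p.2] + C := by
  obtain ⟨C, hC⟩ := NE2_pow 2 a b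
  refine ⟨C, fun p => ?_⟩
  have h := hC p
  push_cast at h
  exact h

end Pool.Agent.H38LT
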