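import Pool.Agent.Lib.H38LT.NA
import Pool.Agent.Lib.H38LT.NB
import Pool.Agent.Lib.H38LT.NE2
import Pool.Agent.Lib.H38LT.NE

set_option autoImplicit false

namespace Pool.Agent.H38LT

open Pool.Agent.H38LS WeierstrassCurve NumberField Height

universe u

variable {K : Type u} [Field K] [NumberField K] [DecidableEq K]

/-! Chunk NF0 (M). The curves with `c₄ = 0` (`j = 0`): at most `m` points with `hhat ≤ 1`.

Proof. `b = - c₆/864 ≠ 0` (`Δ ≠ 0`, `c_relation`), `x' = x + b₂/12`. For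
`g p = ((p.1 + b₂/12 p.2)³, b p.2³)` one has the identity (`c₄ = b₂² - 24 b₄ = 0`, `b_relation`, `ring`
after clearing denominators; short form `y² = x'³ + b`, `dupX' = X⁴ - 8 b X Z³`,
`dupZ = 4 X³ Z + 4 b Z⁴`)
`g (dup W p) = (z (z - 8 w)³, 64 w (z + w)³)` for `(z, w) = g p`. So `γ p = logHeight ![(g p).1, (g p).2]`
satisfies `h2` of `gamma_bound` with the constant of `phi0_height` and `h1` with `e = 3`
(`pow3_height`). If `hhat Q ≤ 1`, `xr Q = (x, 1)`: `logHeight ![x'³, b] ≤ 6 + C/3`, so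
`ζ = x'³/b` (`logHeight ![ζ, 1]`, scaling) lies in a finite set `F` which does not depend on `W`
(Northcott). For given `ζ` there are at most 3 numbers `x'` with `x'³ = ζ b`
(`Polynomial.card_roots`, `Polynomial.nthRoots`), so at most `3 #F` values of `x`: `card_le_of_x`,
`m = 6 #F + 1`. -/

omit [NumberField K] [DecidableEq K] in
private theorem nf_dup [CharZero K] (W : WeierstrassCurve K) (h4 : W.c₄ = 0) (X Z : K) :
    dupX W X Z + W.b₂ / 12 * dupZ W X Z =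
        (X + W.b₂ / 12 * Z) * ((X + W.b₂ / 12 * Z) ^ 3 - 8 * (-W.c₆ / 864) * Z ^ 3) ∧
      dupZ W X Z = 4 * Z * ((X + W.b₂ / 12 * Z) ^ 3 + (-W.c₆ / 864) * Z ^ 3) := by
  have hb4 : W.b₄ = W.b₂ ^ 2 / 24 := by
    have h := h4
    unfold WeierstrassCurve.c₄ at h
    rw [eq_div_iff (by norm_num)]
    linear_combination -h
  have hb8 : W.b₈ = (W.b₂ * W.b₆ - W.b₄ ^ 2) / 4 := by
    have h := W.b_relation
    rw [eq_div_iff (by norm_num)]
    linear_combination h
  have hc6 : W.c₆ = -W.b₂ ^ 3 + 36 * W.b₂ * W.b₄ - 216 * W.b₆ := rfl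
  unfold dupX dupZ
  rw [hb8, hc6, hb4]
  constructor
  · field_simp
    ring
  · field_simp
    ring

theorem count_zero : ∃ m : ℕ, ∀ (W : WeierstrassCurve K) [W.IsElliptic], W.c₄ = 0 →
    ∀ T : Finset W.toAffine.Point, (∀ Q ∈ T, hhat Q ≤ 1) → T.card ≤ m := by
  obtain ⟨C, hC0, hC⟩ := phi0_height (K := K)
  have hfin : {ζ : K | logHeight₁ ζ ≤ 6 + C / 3}.Finite := Northcott.finite_le _
  refine ⟨6 * hfin.toFinset.card + 1, fun W _ h4 T hT => ?_⟩
  have hb0 : (-W.c₆ / 864 : K) ≠ 0 := by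
    have h1 := W.c_relation
    rw [h4] at h1
    have h2 : W.c₆ ≠ 0 := by
      intro h
      rw [h] at h1
      have h3 : W.Δ = 0 := by
        have h5 : (1728 : K) * W.Δ = 0 := by linear_combination h1
        rcases mul_eq_zero.1 h5 with h6 | h6
        · exact absurd h6 (by norm_num)
        · exact h6
      exact W.isUnit_Δ.ne_zero h3
    exact div_ne_zero (neg_ne_zero.2 h2) (by norm_num)
  obtain ⟨C1, hC1⟩ := pow3_height (W.b₂ / 12) (-W.c₆ / 864 : K)
  have hdup : ∀ p : K × K, p ≠ 0 →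
      4 * logHeight ![(p.1 + W.b₂ / 12 * p.2) ^ 3, (-W.c₆ / 864) * p.2 ^ 3] - C ≤
        logHeight ![((dup W p).1 + W.b₂ / 12 * (dup W p).2) ^ 3, (-W.c₆ / 864) * (dup W p).2 ^ 3] := by
    intro p _
    have h1 := hC ((p.1 + W.b₂ / 12 * p.2) ^ 3) ((-W.c₆ / 864) * p.2 ^ 3)
    obtain ⟨e1, e2⟩ := nf_dup W h4 p.1 p.2
    have e3 : ((dup W p).1 + W.b₂ / 12 * (dup W p).2) ^ 3 =
        (p.1 + W.b₂ / 12 * p.2) ^ 3 * ((p.1 + W.b₂ / 12 * p.2) ^ 3 - 8 * ((-W.c₆ / 864) * p.2 ^ 3)) ^ 3 := by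
      unfold dup
      rw [e1]
      ring
    have e4 : (-W.c₆ / 864) * (dup W p).2 ^ 3 =
        64 * ((-W.c₆ / 864) * p.2 ^ 3) * ((p.1 + W.b₂ / 12 * p.2) ^ 3 + (-W.c₆ / 864) * p.2 ^ 3) ^ 3 := by
      unfold dup
      rw [e2]
      ring
    rw [e3, e4]
    exact h1
  have hbd : ∀ Q ∈ T, logHeight ![((xr Q).1 + W.b₂ / 12 * (xr Q).2) ^ 3, (-W.c₆ / 864) * (xr Q).2 ^ 3] ≤
      6 + C / 3 := by
    intro Q hQ
    have h1 := gamma_bound (K := K) (C := C) (e := 3) (by norm_num) hC0 (W := W)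
      (fun p => logHeight ![(p.1 + W.b₂ / 12 * p.2) ^ 3, (-W.c₆ / 864) * p.2 ^ 3]) (CW := C1)
      (fun p _ => hC1 p) hdup Q
    have h2 := hT Q hQ
    refine h1.trans ?_
    linarith
  classical
  set FX : Finset K := hfin.toFinset.biUnion fun ζ =>
    ((Polynomial.nthRoots 3 (ζ * (-W.c₆ / 864))).toFinset).image fun x => x - W.b₂ / 12 with hFX
  have hcard : FX.card ≤ 3 * hfin.toFinset.card := by
    rw [hFX]
    refine Finset.card_biUnion_le.trans ?_
    rw [mul_comm]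
    refine Finset.sum_le_card_nsmul _ _ 3 fun ζ _ => ?_
    exact Finset.card_image_le.trans ((Multiset.toFinset_card_le _).trans (Polynomial.card_nthRoots _ _))
  have hx : ∀ Q ∈ T, Q ≠ 0 → (xr Q).1 ∈ FX := by
    intro Q hQ hQ0
    have h1 := hbd Q hQ
    rcases Q with _ | ⟨x, y, hxy⟩
    · exact absurd rfl hQ0
    · have e1 : xr (WeierstrassCurve.Affine.Point.some x y hxy : W.toAffine.Point) = (x, 1) := rfl
      rw [e1] at h1 ⊢
      simp only [mul_one, one_pow] at h1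
      rw [← logHeight₁_div_eq_logHeight] at h1
      rw [hFX, Finset.mem_biUnion]
      refine ⟨(x + W.b₂ / 12) ^ 3 / (-W.c₆ / 864), hfin.mem_toFinset.2 h1, ?_⟩
      rw [Finset.mem_image]
      refine ⟨x + W.b₂ / 12, ?_, by ring⟩
      rw [Multiset.mem_toFinset, Polynomial.mem_nthRoots (by norm_num), div_mul_cancel₀ _ hb0]
  have h9 := card_le_of_x T FX hx
  omega

end Pool.Agent.H38LT
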