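import Pool.Agent.Lib.H38LT.NA
import Pool.Agent.Lib.H38LT.NB
import Pool.Agent.Lib.H38LT.NE2
import Pool.Agent.Lib.H38LT.NE

set_option autoImplicit false

namespace Pool.Agent.H38LT

open Pool.Agent.H38LS WeierstrassCurve NumberField Height

universe u

variable {K : Type u} [Field K] [NumberField K] [DecidableEq K]

/-! Chunk NF1 (M). The curves with `c₆ = 0` (`j = 1728`): at most `m` points with `hhat ≤ 1`.

Proof. `a = - c₄/48 ≠ 0` (`Δ ≠ 0`, `c_relation`), `x' = x + b₂/12`. For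
`g p = ((p.1 + b₂/12 p.2)², a p.2²)` one has the identity (`c₆ = 0`; short form `y² = x'³ + a x'`,
`dupX' = (X² - a Z²)²`, `dupZ = 4 X Z (X² + a Z²)`)
`g (dup W p) = ((z - w)⁴, 16 z w (z + w)²)` for `(z, w) = g p`. So `γ p = logHeight ![(g p).1, (g p).2]`
satisfies `h2` of `gamma_bound` with the constant of `phi1_height` and `h1` with `e = 2`
(`pow2_height`). If `hhat Q ≤ 1`, `xr Q = (x, 1)`: `logHeight ![x'², a] ≤ 4 + C/3`, so `ζ = x'²/a` lies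
in a finite set `F` which does not depend on `W` (Northcott). For given `ζ` there are at most 2
numbers `x'`, so at most `2 #F` values of `x`: `card_le_of_x`, `m = 4 #F + 1`. -/

omit [NumberField K] [DecidableEq K] in
private theorem NF1_id [CharZero K] (W : WeierstrassCurve K) (h6 : W.c₆ = 0) (p : K × K) :
    ((dup W p).1 + W.b₂ / 12 * (dup W p).2) ^ 2 =
      ((p.1 + W.b₂ / 12 * p.2) ^ 2 - (-W.c₄ / 48) * p.2 ^ 2) ^ 4 ∧
    (-W.c₄ / 48) * (dup W p).2 ^ 2 =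
      16 * (p.1 + W.b₂ / 12 * p.2) ^ 2 * ((-W.c₄ / 48) * p.2 ^ 2) *
        ((p.1 + W.b₂ / 12 * p.2) ^ 2 + (-W.c₄ / 48) * p.2 ^ 2) ^ 2 := by
  have hb6 : W.b₆ = (36 * W.b₂ * W.b₄ - W.b₂ ^ 3) / 216 := by
    rw [WeierstrassCurve.c₆] at h6
    linear_combination (-1 / 216 : K) * h6
  have hb8 : W.b₈ = (W.b₂ * W.b₆ - W.b₄ ^ 2) / 4 := by
    linear_combination (1 / 4 : K) * W.b_relation
  have hX : (dup W p).1 + W.b₂ / 12 * (dup W p).2 =
      ((p.1 + W.b₂ / 12 * p.2) ^ 2 - (-W.c₄ / 48) * p.2 ^ 2) ^ 2 := by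
    simp only [dup, dupX, dupZ]
    rw [hb8, hb6, WeierstrassCurve.c₄]
    ring
  have hZ : (dup W p).2 = 4 * (p.1 + W.b₂ / 12 * p.2) * p.2 *
      ((p.1 + W.b₂ / 12 * p.2) ^ 2 + (-W.c₄ / 48) * p.2 ^ 2) := by
    simp only [dup, dupZ]
    rw [hb6, WeierstrassCurve.c₄]
    ring
  refine ⟨?_, ?_⟩
  · rw [hX]
    ring
  · rw [hZ]
    ring

theorem count_1728 : ∃ m : ℕ, ∀ (W : WeierstrassCurve K) [W.IsElliptic], W.c₆ = 0 →
    ∀ T : Finset W.toAffine.Point, (∀ Q ∈ T, hhat Q ≤ 1) → T.card ≤ m := by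
  obtain ⟨C, hC0, hC⟩ := phi1_height (K := K)
  have hfin : {ζ : K | logHeight₁ ζ ≤ 4 + C / 3}.Finite :=
    Northcott.finite_le (4 + C / 3)
  obtain ⟨F₀, hF₀⟩ : ∃ F₀ : Finset K, ∀ ζ : K, logHeight₁ ζ ≤ 4 + C / 3 → ζ ∈ F₀ :=
    ⟨hfin.toFinset, fun ζ hζ => hfin.mem_toFinset.2 hζ⟩
  refine ⟨4 * F₀.card + 1, ?_⟩
  intro W _ h6 T hT
  have hΔ : W.Δ ≠ 0 := W.isUnit_Δ.ne_zero
  have hc4 : W.c₄ ≠ 0 := by
    intro h4
    have h1 := W.c_relation
    rw [h4, h6] at h1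
    apply hΔ
    have h2 : (1728 : K) * W.Δ = 0 := by
      rw [h1]
      ring
    rcases mul_eq_zero.1 h2 with h3 | h3
    · norm_num at h3
    · exact h3
  obtain ⟨a, ha⟩ : ∃ a : K, a = -W.c₄ / 48 := ⟨_, rfl⟩
  have ha0 : a ≠ 0 := by
    rw [ha]
    exact div_ne_zero (neg_ne_zero.2 hc4) (by norm_num)
  obtain ⟨b, hb⟩ : ∃ b : K, b = W.b₂ / 12 := ⟨_, rfl⟩
  obtain ⟨CW, hCW⟩ := pow2_height b a
  have hbound : ∀ Q : W.toAffine.Point,
      logHeight ![((xr Q).1 + b * (xr Q).2) ^ 2, a * (xr Q).2 ^ 2] ≤ 2 * 2 * hhat Q + C / 3 := by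
    intro Q
    refine gamma_bound (C := C) (e := 2) (CW := CW) (by norm_num) hC0
      (fun p => logHeight ![(p.1 + b * p.2) ^ 2, a * p.2 ^ 2]) (fun p _ => hCW p) ?_ Q
    intro p _
    obtain ⟨e1, e2⟩ := NF1_id W h6 p
    rw [← ha, ← hb] at e1 e2
    have h1 := hC ((p.1 + b * p.2) ^ 2) (a * p.2 ^ 2)
    rw [← e1, ← e2] at h1
    exact h1
  obtain ⟨F, hF⟩ : ∃ F : Finset K, F = F₀.biUnion fun ζ =>
      (Polynomial.nthRoots 2 (ζ * a)).toFinset.image fun y => y - b := ⟨_, rfl⟩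
  have hFcard : F.card ≤ F₀.card * 2 := by
    rw [hF]
    refine Finset.card_biUnion_le_card_mul _ _ _ fun ζ _ => ?_
    exact Finset.card_image_le.trans
      ((Multiset.toFinset_card_le _).trans (Polynomial.card_nthRoots 2 _))
  have hTF : ∀ Q ∈ T, Q ≠ 0 → (xr Q).1 ∈ F := by
    intro Q hQ hQ0
    have h1 := hbound Q
    have h2 := hT Q hQ
    obtain ⟨h3, -⟩ := xr_affine hQ0
    have h4 : (xr Q).2 = 1 := by rw [h3]
    rw [h4, mul_one, one_pow, mul_one, ← logHeight₁_div_eq_logHeight] at h1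
    have h5 : ((xr Q).1 + b) ^ 2 / a ∈ F₀ := hF₀ _ (by linarith)
    rw [hF, Finset.mem_biUnion]
    refine ⟨_, h5, Finset.mem_image.2 ⟨(xr Q).1 + b, ?_, by ring⟩⟩
    rw [Multiset.mem_toFinset, Polynomial.mem_nthRoots (by norm_num)]
    field_simp
  have h := card_le_of_x T F hTF
  omega

end Pool.Agent.H38LT
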