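import Pool.Agent.Lib.H38LT.ND
import Pool.Agent.Lib.H38LT.NF
import Pool.Agent.Lib.H38LT.NF1

set_option autoImplicit false

namespace Pool.Agent.H38LT

open Pool.Agent.H38LS WeierstrassCurve NumberField Height

universe u

variable {K : Type u} [Field K] [NumberField K] [DecidableEq K]

/-! Chunk NG (S/M). Uniform lower bound for bounded `h(j)`.

Proof. The set of the `j ∈ K` with `logHeight₁ j ≤ B` is finite (`Northcott.finite_le`). Let `m` be
the sum of the numbers `m` of `count_zero`, `count_1728` and of `count_generic (1/(j - 1728))` for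
these `j` (`tt W = (j - 1728)⁻¹`: `Δ j = c₄³`, `c_relation`, see `TL_j` in H38LS/TL). Then
`hhat_ge_of_count`. -/

omit [NumberField K] [DecidableEq K] in
private theorem NG_tt (W : WeierstrassCurve K) [W.IsElliptic] : tt W = (W.j - 1728)⁻¹ := by
  have hD : W.Δ ≠ 0 := W.isUnit_Δ.ne_zero
  have h : W.c₄ ^ 3 = W.Δ * W.j := by
    rw [WeierstrassCurve.j, ← mul_assoc, ← W.coe_Δ', Units.mul_inv, one_mul]
  have hc := W.c_relation
  have e : W.j - 1728 = W.c₆ ^ 2 / W.Δ := by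
    rw [eq_div_iff hD]
    linear_combination -hc - h
  rw [e, inv_div]
  rfl

theorem north (B : ℝ) : ∃ c : ℝ, 0 < c ∧ ∀ (W : WeierstrassCurve K) [W.IsElliptic]
    (P : W.toAffine.Point), (∀ n : ℤ, n ≠ 0 → n • P ≠ 0) → logHeight₁ W.j ≤ B → c ≤ hhat P := by
  classical
  obtain ⟨m0, h0⟩ := count_zero (K := K)
  obtain ⟨m1, h1⟩ := count_1728 (K := K)
  choose mg hg using fun t : K => count_generic t
  have hfin : {j : K | logHeight₁ j ≤ B}.Finite := Northcott.finite_le B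
  obtain ⟨m, hm⟩ : ∃ m : ℕ, m = m0 + m1 + ∑ j ∈ hfin.toFinset, mg ((j - 1728)⁻¹) := ⟨_, rfl⟩
  refine ⟨1 / ((m : ℝ) + 1) ^ 2, by positivity, fun W _ P hP hB => hhat_ge_of_count (fun T hT => ?_) hP⟩
  by_cases h4 : W.c₄ = 0
  · have := h0 W h4 T hT
    omega
  by_cases h6 : W.c₆ = 0
  · have := h1 W h6 T hT
    omega
  have h2 := hg ((W.j - 1728)⁻¹) W h4 h6 (NG_tt W) T hT
  have h3 : mg ((W.j - 1728)⁻¹) ≤ ∑ j ∈ hfin.toFinset, mg ((j - 1728)⁻¹) :=
    Finset.single_le_sum (f := fun j => mg ((j - 1728)⁻¹)) (fun _ _ => Nat.zero_le _)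
      (hfin.mem_toFinset.2 hB)
  omega

end Pool.Agent.H38LT
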