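import Pool.Agent.Lib.H38LT.FC
import Pool.Agent.Lib.H38LT.NG

set_option autoImplicit false

namespace Pool.Agent.H38LT

open Pool.Agent.H38LS NumberField Height IsDedekindDomain

universe u

variable {K : Type u} [Field K] [NumberField K] [DecidableEq K]

/-! Chunk FB0 (S/M). Finitely many primes of bounded norm (`Ideal.finite_setOf_absNorm_le` or
similar). -/

omit [DecidableEq K] in
theorem primes_finite (B : ℝ) : {p : HeightOneSpectrum (𝓞 K) | Real.log (Nm p) ≤ B}.Finite := by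
  have hn := Ideal.finite_setOfPred_absNorm_le (S := 𝓞 K) ⌊Real.exp B⌋₊
  refine Set.Finite.of_finite_image (f := fun p : HeightOneSpectrum (𝓞 K) => p.asIdeal)
    (hn.subset ?_) ?_
  · rintro I ⟨p, hp, rfl⟩
    have h1 : 0 < Nm p := lt_trans one_pos (one_lt_Nm p)
    have hp' : Real.log (Nm p) ≤ B := hp
    have h2 : Nm p ≤ Real.exp B := (Real.log_le_iff_le_exp h1).1 hp'
    change Ideal.absNorm p.asIdeal ≤ ⌊Real.exp B⌋₊
    exact Nat.le_floor h2
  · intro p _ q _ h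
    exact HeightOneSpectrum.ext h

/-- Chunk FB0, second part (M). No primes outside `S`: no loss.

Proof. `c, B` from `main_XX` for `J`, `c₀` from `north` for `B`. If `DS = 0`: `TS = 0` (`TS_nonneg`,
`TS_le_RS`), `XX W S 1 = ZS = logDisc + hinf =: Y` (`ZS_add_DS`), `HH ≤ Y ≤ 2 HH`. If `Y ≥ B`:
`hhat ≥ c (Y/HH)³ HH ≥ c HH`. If `Y < B`: `h(j) ≤ HH ≤ Y < B`, so `hhat ≥ c₀ ≥ (c₀/B) HH`. -/
theorem no_loss (hs : Specs.{u}) (J : ℕ) : ∃ c : ℝ, 0 < c ∧
    ∀ (W : WeierstrassCurve K) [W.IsElliptic] (P : W.toAffine.Point),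
      (∀ n : ℤ, n ≠ 0 → n • P ≠ 0) → ∀ S : Finset (HeightOneSpectrum (𝓞 K)), S.card ≤ J →
      DS W S = 0 → c * HH W ≤ hhat P := by
  obtain ⟨c, B, hc, hB, hmain⟩ := main_XX (K := K) hs J
  obtain ⟨c0, hc0, hnorth⟩ := north (K := K) B
  have hB0 : 0 < B := by linarith
  refine ⟨min c (c0 / B), lt_min hc (div_pos hc0 hB0), fun W _ P hP S hS hD => ?_⟩
  have hΔ : W.Δ ≠ 0 := W.isUnit_Δ.ne_zero
  have hT : TS W S 1 = 0 :=
    le_antisymm ((TS_le_RS hΔ S 1).1.trans ((TS_le_RS hΔ S 1).2.trans hD.le)) (TS_nonneg W S 1)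
  have hXX : XX W S 1 = ZS W S := by unfold XX; rw [hT, add_zero]
  have hZ : ZS W S = logDisc W + hinf W := by
    have := ZS_add_DS W S
    rw [hD, add_zero] at this
    exact this
  have hZ0 : 0 ≤ ZS W S := ZS_nonneg W S
  obtain ⟨h1, h2⟩ := HH_le W
  rw [← hZ] at h1 h2
  have hH0 : 0 ≤ HH W := by linarith
  by_cases hY : B ≤ ZS W S
  · have hH : 0 < HH W := by linarith
    have h3 := hmain W P hP S hS 1 le_rfl (by rw [hXX]; exact hY)
    rw [hXX] at h3
    have h4 : 1 ≤ ZS W S / HH W := (one_le_div hH).2 h1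
    have h5 : 1 ≤ (ZS W S / HH W) ^ 3 := one_le_pow₀ h4
    calc min c (c0 / B) * HH W ≤ c * HH W := mul_le_mul_of_nonneg_right (min_le_left _ _) hH0
      _ ≤ (c * (ZS W S / HH W) ^ 3) * HH W :=
        mul_le_mul_of_nonneg_right (le_mul_of_one_le_right hc.le h5) hH0
      _ = c * (ZS W S / HH W) ^ 3 / ((1 : ℕ) : ℝ) ^ 2 * HH W := by norm_num
      _ ≤ hhat P := h3
  · push Not at hY
    have hj : logHeight₁ W.j ≤ HH W := le_max_right _ _
    have h3 := hnorth W P hP (by linarith)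
    calc min c (c0 / B) * HH W ≤ (c0 / B) * HH W :=
          mul_le_mul_of_nonneg_right (min_le_right _ _) hH0
      _ ≤ (c0 / B) * B := mul_le_mul_of_nonneg_left (by linarith) (div_pos hc0 hB0).le
      _ = c0 := div_mul_cancel₀ _ hB0.ne'
      _ ≤ hhat P := h3

end Pool.Agent.H38LT
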