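import Pool.Agent.Lib.H38LT.FB

set_option autoImplicit false

namespace Pool.Agent.H38LT

open Pool.Agent.H38LS NumberField Height IsDedekindDomain

universe u

variable {K : Type u} [Field K] [NumberField K] [DecidableEq K]

/-! Chunk FB1 (M). The theorem with the prime-depleted Szpiro ratio `σ = DS/RS`.

Proof. `c, B` from `main_XX` for `J`; `Σ` = the finite set of the primes with
`log (Nm p) ≤ 2 B` (`primes_finite`); `c₁` from `no_loss` for `J + #Σ`. If `DS = 0` the bound is `0 ≤ hhat`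
(`0/0 = 0` in Lean; `hhat_nonneg`, `HH ≥ 0`). Let `DS > 0`; then some `p ∉ S` has `dmin ≠ 0`
(`DS_eq_zero`), `RS > 0` (`log_le_RS`), `σ = DS/RS ≥ 1`. `s = ⌈2 σ⌉₊ ≤ 3 σ`, `TS ≥ RS/2` (`TS_ge`), so
`X = XX W S s ≥ ZS + RS/2 ≥ (ZS + DS)/(2 σ) ≥ HH/(2 σ)` (`ZS ≥ 0`, `ZS_add_DS`, `HH_le`). If `X ≥ B`:
`hhat ≥ c (1/(2 σ))³/(9 σ²) HH = (c/72) σ⁻⁵ HH` (`HH > 0` as `2 HH ≥ ZS + DS > 0`). If `X < B`:
`RS ≤ 2 TS ≤ 2 X < 2 B`, so every prime outside `S` which divides the minimal discriminant lies in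
`Σ` (`log_le_RS`), `DS W (S ∪ Σ) = 0`, and `hhat ≥ c₁ HH ≥ c₁ σ⁻⁵ HH`. -/

theorem main_depleted (hs : Specs.{u}) (J : ℕ) : ∃ c : ℝ, 0 < c ∧
    ∀ (W : WeierstrassCurve K) [W.IsElliptic] (P : W.toAffine.Point),
      (∀ n : ℤ, n ≠ 0 → n • P ≠ 0) → ∀ S : Finset (HeightOneSpectrum (𝓞 K)), S.card ≤ J →
        c * (RS W S / DS W S) ^ 5 * HH W ≤ hhat P := by
  classical
  obtain ⟨c, B, hc, hB, hmain⟩ := main_XX (K := K) hs J
  obtain ⟨Q, hQ⟩ : ∃ Q : Finset (HeightOneSpectrum (𝓞 K)),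
      Q = (primes_finite (K := K) (2 * B)).toFinset := ⟨_, rfl⟩
  obtain ⟨c1, hc1, hno⟩ := no_loss (K := K) hs (J + Q.card)
  refine ⟨min (c / 72) c1, lt_min (by positivity) hc1, fun W _ P hP S hS => ?_⟩
  have hΔ : W.Δ ≠ 0 := W.isUnit_Δ.ne_zero
  by_cases hD : DS W S = 0
  · rw [hD, div_zero, zero_pow (by norm_num), mul_zero, zero_mul]
    exact hhat_nonneg W P
  have hD0 : 0 < DS W S := lt_of_le_of_ne (DS_nonneg W S) (Ne.symm hD)
  have hR0 : 0 < RS W S := by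
    by_contra hcon
    refine hD (DS_eq_zero fun p hp => ?_)
    by_contra hd
    have h1 := log_le_RS hΔ S hp hd
    have h2 : 0 < Real.log (Nm p) := Real.log_pos (one_lt_Nm p)
    exact hcon (by linarith)
  have hRD : RS W S ≤ DS W S := (TS_le_RS hΔ S 1).2
  have hZ0 : 0 ≤ ZS W S := ZS_nonneg W S
  have hZD := ZS_add_DS W S
  obtain ⟨hH1, hH2⟩ := HH_le W
  rw [← hZD] at hH1 hH2
  have hH0 : 0 < HH W := by linarith
  have hq0 : 0 ≤ RS W S / DS W S := by positivity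
  have hq1 : RS W S / DS W S ≤ 1 := (div_le_one hD0).2 hRD
  obtain ⟨σ, hσ⟩ : ∃ σ : ℝ, σ = DS W S / RS W S := ⟨_, rfl⟩
  have hσ1 : 1 ≤ σ := by
    rw [hσ]
    exact (one_le_div hR0).2 hRD
  have hσq : RS W S / DS W S = 1 / σ := by
    rw [hσ, one_div_div]
  have hσR : σ * RS W S = DS W S := by
    rw [hσ]
    exact div_mul_cancel₀ _ hR0.ne'
  obtain ⟨s, hsd⟩ : ∃ s : ℕ, s = ⌈2 * σ⌉₊ := ⟨_, rfl⟩
  have hs1 : 2 * σ ≤ s := by
    rw [hsd]
    exact Nat.le_ceil _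
  have hs2 : (s : ℝ) ≤ 3 * σ := by
    have h1 : (s : ℝ) < 2 * σ + 1 := by
      rw [hsd]
      exact Nat.ceil_lt_add_one (by positivity)
    linarith
  have hs3 : 1 ≤ s := by
    have h1 : (1 : ℝ) ≤ s := by linarith
    exact_mod_cast h1
  have hs0 : (0 : ℝ) < s := by linarith
  have hT : RS W S / 2 ≤ TS W S s := by
    have h1 := TS_ge hΔ S hs3
    have h2 : DS W S / s ≤ RS W S / 2 := by
      rw [div_le_div_iff₀ hs0 (by norm_num)]
      nlinarith
    linarith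
  by_cases hX : B ≤ XX W S s
  · have h1 := hmain W P hP S hS s hs3 hX
    have h2 : HH W ≤ 2 * σ * XX W S s := by
      unfold XX
      have h3 : ZS W S ≤ 2 * σ * ZS W S := le_mul_of_one_le_left hZ0 (by linarith)
      have h4 : DS W S ≤ 2 * σ * TS W S s := by
        have h5 : σ * RS W S ≤ 2 * σ * TS W S s := by nlinarith
        rwa [hσR] at h5
      linarith
    have h3 : 1 / (2 * σ) ≤ XX W S s / HH W := by
      rw [div_le_div_iff₀ (by positivity) hH0]
      linarith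
    have h4 : (1 / (2 * σ)) ^ 3 ≤ (XX W S s / HH W) ^ 3 :=
      pow_le_pow_left₀ (by positivity) h3 3
    have h5 : (s : ℝ) ^ 2 ≤ (3 * σ) ^ 2 := pow_le_pow_left₀ hs0.le hs2 2
    have h6 : c / 72 * (1 / σ) ^ 5 = c * (1 / (2 * σ)) ^ 3 / (3 * σ) ^ 2 := by
      field_simp
      norm_num
    have h7 : c * (1 / (2 * σ)) ^ 3 / (3 * σ) ^ 2 ≤ c * (XX W S s / HH W) ^ 3 / (s : ℝ) ^ 2 := by
      apply div_le_div₀
      · exact mul_nonneg hc.le (pow_nonneg (div_nonneg (by linarith) hH0.le) 3)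
      · exact mul_le_mul_of_nonneg_left h4 hc.le
      · positivity
      · exact h5
    rw [hσq]
    calc min (c / 72) c1 * (1 / σ) ^ 5 * HH W ≤ c / 72 * (1 / σ) ^ 5 * HH W := by
          refine mul_le_mul_of_nonneg_right (mul_le_mul_of_nonneg_right (min_le_left _ _) ?_) hH0.le
          positivity
      _ ≤ c * (XX W S s / HH W) ^ 3 / (s : ℝ) ^ 2 * HH W := by
          rw [h6]
          exact mul_le_mul_of_nonneg_right h7 hH0.le
      _ ≤ hhat P := h1
  · push Not at hX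
    have hRB : RS W S ≤ 2 * B := by
      unfold XX at hX
      linarith
    have hD' : DS W (S ∪ Q) = 0 := by
      refine DS_eq_zero fun p hp => ?_
      by_contra hd
      have h1 : p ∉ S := fun h => hp (Finset.mem_union_left _ h)
      have h2 := log_le_RS hΔ S h1 hd
      refine hp (Finset.mem_union_right _ ?_)
      rw [hQ, Set.Finite.mem_toFinset]
      exact h2.trans hRB
    have hcard : (S ∪ Q).card ≤ J + Q.card :=
      (Finset.card_union_le S Q).trans (Nat.add_le_add_right hS _)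
    have h1 := hno W P hP (S ∪ Q) hcard hD'
    have h2 : (RS W S / DS W S) ^ 5 ≤ 1 := pow_le_one₀ hq0 hq1
    calc min (c / 72) c1 * (RS W S / DS W S) ^ 5 * HH W ≤ c1 * 1 * HH W := by
          refine mul_le_mul_of_nonneg_right ?_ hH0.le
          exact mul_le_mul (min_le_right _ _) h2 (by positivity) hc1.le
      _ = c1 * HH W := by rw [mul_one]
      _ ≤ hhat P := h1

end Pool.Agent.H38LT
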