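import Pool.Agent.Lib.H38LT.FC3
import Pool.Agent.Lib.H38LT.FB

set_option autoImplicit false

namespace Pool.Agent.H38LT

open Pool.Agent.H38LS NumberField Height IsDedekindDomain

universe u

variable {K : Type u} [Field K] [NumberField K] [DecidableEq K]

/-! FB3. -/

private theorem pow_succ_le_self' {c : ℝ} (h0 : 0 < c) (h1 : c ≤ 1) (n : ℕ) : c ^ (n + 1) ≤ c :=
  pow_le_of_le_one h0.le h1 (Nat.succ_ne_zero n)

theorem no_loss3 (hs : Specs.{u}) : ∃ c : ℝ, 0 < c ∧ c ≤ 1 ∧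
    ∀ (W : WeierstrassCurve K) [W.IsElliptic] (P : W.toAffine.Point),
      (∀ n : ℤ, n ≠ 0 → n • P ≠ 0) → ∀ S : Finset (HeightOneSpectrum (𝓞 K)),
      DS W S = 0 → c ^ (S.card + 1) * HH W ≤ hhat P := by
  obtain ⟨c, B, hc, hc1, hB, hmain⟩ := main_XX3 (K := K) hs
  obtain ⟨c0, hc0, hnorth⟩ := north (K := K) B
  have hB0 : 0 < B := by linarith
  obtain ⟨e, he⟩ : ∃ e : ℝ, e = min c (c0 / B) := ⟨_, rfl⟩
  have he0 : 0 < e := by
    rw [he]
    exact lt_min hc (div_pos hc0 hB0)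
  have hec : e ≤ c := by
    rw [he]
    exact min_le_left _ _
  have hec0 : e ≤ c0 / B := by
    rw [he]
    exact min_le_right _ _
  refine ⟨e, he0, hec.trans hc1, fun W _ P hP S hD => ?_⟩
  have hΔ : W.Δ ≠ 0 := W.isUnit_Δ.ne_zero
  have hT : TS W S 1 = 0 :=
    le_antisymm ((TS_le_RS hΔ S 1).1.trans ((TS_le_RS hΔ S 1).2.trans hD.le)) (TS_nonneg W S 1)
  have hXX : XX W S 1 = ZS W S := by unfold XX; rw [hT, add_zero]
  have hZ : ZS W S = logDisc W + hinf W := by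
    have := ZS_add_DS W S
    rw [hD, add_zero] at this
    exact this
  have hZ0 : 0 ≤ ZS W S := ZS_nonneg W S
  obtain ⟨h1, h2⟩ := HH_le W
  rw [← hZ] at h1 h2
  have hH0 : 0 ≤ HH W := by linarith
  by_cases hY : B ≤ ZS W S
  · have hH : 0 < HH W := by linarith
    have h3 := hmain W P hP S 1 le_rfl (by rw [hXX]; exact hY)
    rw [hXX] at h3
    have h4 : 1 ≤ ZS W S / HH W := (one_le_div hH).2 h1
    have h5 : 1 ≤ (ZS W S / HH W) ^ 3 := one_le_pow₀ h4
    have h6 : e ^ (S.card + 1) ≤ c ^ (S.card + 1) := pow_le_pow_left₀ he0.le hec _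
    calc e ^ (S.card + 1) * HH W ≤ c ^ (S.card + 1) * HH W := mul_le_mul_of_nonneg_right h6 hH0
      _ ≤ (c ^ (S.card + 1) * (ZS W S / HH W) ^ 3) * HH W :=
        mul_le_mul_of_nonneg_right (le_mul_of_one_le_right (by positivity) h5) hH0
      _ = c ^ (S.card + 1) * (ZS W S / HH W) ^ 3 / ((1 : ℕ) : ℝ) ^ 2 * HH W := by norm_num
      _ ≤ hhat P := h3
  · push Not at hY
    have hj : logHeight₁ W.j ≤ HH W := le_max_right _ _
    have h3 := hnorth W P hP (by linarith)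
    calc e ^ (S.card + 1) * HH W ≤ e * HH W :=
          mul_le_mul_of_nonneg_right (pow_succ_le_self' he0 (hec.trans hc1) _) hH0
      _ ≤ (c0 / B) * HH W := mul_le_mul_of_nonneg_right hec0 hH0
      _ ≤ (c0 / B) * B := mul_le_mul_of_nonneg_left (by linarith) (div_pos hc0 hB0).le
      _ = c0 := div_mul_cancel₀ _ hB0.ne'
      _ ≤ hhat P := h3

/-- The final theorem: `s = ⌈4 σ⌉₊ ≤ 5 σ`, `TS ≥ RS - DS/s`, and with
`Y = ZS + DS = logDisc + hinf`, `HH ≤ Y ≤ 2 HH`: `DS/s ≤ 2 HH/(4 σ) ≤ (ZS + RS)/2`, so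
`XX W S s ≥ (ZS + RS)/2 ≥ HH/(2 σ)`. If `XX ≥ B`: `main_XX3`. Otherwise `RS < 2 B`, so every prime
outside `S` which divides the minimal discriminant lies in a finite set `T` which depends only on
`K`, and `no_loss3` for `S ∪ T`. -/
theorem main_plus (hs : Specs.{u}) : ∃ c : ℝ, 0 < c ∧ c ≤ 1 ∧
    ∀ (W : WeierstrassCurve K) [W.IsElliptic] (P : W.toAffine.Point),
      (∀ n : ℤ, n ≠ 0 → n • P ≠ 0) → ∀ (S : Finset (HeightOneSpectrum (𝓞 K))) (σ : ℝ), 1 ≤ σ →
      HH W ≤ σ * (ZS W S + RS W S) →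
        c ^ (S.card + 1) / σ ^ 5 * HH W ≤ hhat P := by
  classical
  obtain ⟨c1, B, hc1, hc11, hB, hmain⟩ := main_XX3 (K := K) hs
  obtain ⟨c2, hc2, hc21, hloss⟩ := no_loss3 (K := K) hs
  obtain ⟨T, hT⟩ : ∃ T : Finset (HeightOneSpectrum (𝓞 K)), ∀ p, p ∈ T ↔ Real.log (Nm p) ≤ 2 * B :=
    ⟨(primes_finite (K := K) (2 * B)).toFinset, fun p => by
      rw [Set.Finite.mem_toFinset]; exact Iff.rfl⟩
  obtain ⟨e, he⟩ : ∃ e : ℝ, e = min (c1 / 200) (c2 ^ (T.card + 1)) := ⟨_, rfl⟩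
  have he0 : 0 < e := by
    rw [he]
    exact lt_min (by positivity) (by positivity)
  have he1 : e ≤ c1 / 200 := by
    rw [he]
    exact min_le_left _ _
  have he2 : e ≤ c2 ^ (T.card + 1) := by
    rw [he]
    exact min_le_right _ _
  refine ⟨e, he0, by linarith, fun W _ P hP S σ hσ hHσ => ?_⟩
  have hΔ : W.Δ ≠ 0 := W.isUnit_Δ.ne_zero
  have hσ0 : 0 < σ := by linarith
  have hZ0 : 0 ≤ ZS W S := ZS_nonneg W S
  have hD0 : 0 ≤ DS W S := DS_nonneg W S
  obtain ⟨h1, h2⟩ := HH_le W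
  rw [← ZS_add_DS W S] at h1 h2
  have hH0 : 0 ≤ HH W := by linarith
  -- the choice of `s`
  obtain ⟨s, hs'⟩ : ∃ s : ℕ, s = ⌈4 * σ⌉₊ := ⟨_, rfl⟩
  have hs1 : 4 * σ ≤ (s : ℝ) := by
    rw [hs']
    exact Nat.le_ceil _
  have hs2 : (s : ℝ) ≤ 5 * σ := by
    rw [hs']
    have := (Nat.ceil_lt_add_one (show 0 ≤ 4 * σ by positivity)).le
    linarith
  have hs0 : (0 : ℝ) < s := by linarith
  have hs3 : 1 ≤ s := by
    have : (0 : ℝ) < s := hs0
    exact_mod_cast this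
  have hTS := TS_ge hΔ S hs3
  have hDs : DS W S / s ≤ (ZS W S + RS W S) / 2 := by
    rw [div_le_iff₀ hs0]
    have hZR : 0 ≤ ZS W S + RS W S := by
      have := (TS_le_RS hΔ S s).1
      have := TS_nonneg W S s
      linarith
    have h3 : (ZS W S + RS W S) / 2 * (4 * σ) ≤ (ZS W S + RS W S) / 2 * s :=
      mul_le_mul_of_nonneg_left hs1 (by linarith)
    have h4 : (ZS W S + RS W S) / 2 * (4 * σ) = 2 * (σ * (ZS W S + RS W S)) := by ring
    linarith
  have hX : (ZS W S + RS W S) / 2 ≤ XX W S s := by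
    unfold XX
    linarith
  by_cases hXB : B ≤ XX W S s
  · have hXX : HH W / (2 * σ) ≤ XX W S s := by
      rw [div_le_iff₀ (by positivity)]
      have h3 : (ZS W S + RS W S) / 2 * (2 * σ) ≤ XX W S s * (2 * σ) :=
        mul_le_mul_of_nonneg_right hX (by positivity)
      have h4 : (ZS W S + RS W S) / 2 * (2 * σ) = σ * (ZS W S + RS W S) := by ring
      linarith
    have hXle : XX W S s ≤ 2 * HH W := by
      have h3 := TS_le_RS hΔ S s
      unfold XX
      linarith [h3.1, h3.2]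
    have hH : 0 < HH W := by linarith
    have h5 := hmain W P hP S s hs3 hXB
    refine le_trans ?_ h5
    refine mul_le_mul_of_nonneg_right ?_ hH0
    have h6 : 1 / (2 * σ) ≤ XX W S s / HH W := by
      rw [div_le_div_iff₀ (by positivity) hH]
      rw [div_le_iff₀ (by positivity)] at hXX
      linarith
    have hq0 : 0 ≤ XX W S s / HH W := div_nonneg (by linarith) hH.le
    have h7 : (1 / (2 * σ)) ^ 3 ≤ (XX W S s / HH W) ^ 3 :=
      pow_le_pow_left₀ (by positivity) h6 3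
    have h8 : (s : ℝ) ^ 2 ≤ (5 * σ) ^ 2 := pow_le_pow_left₀ hs0.le hs2 2
    have h9 : e ^ (S.card + 1) ≤ c1 ^ (S.card + 1) / 200 := by
      calc e ^ (S.card + 1) ≤ (c1 / 200) ^ (S.card + 1) := pow_le_pow_left₀ he0.le he1 _
        _ = c1 ^ (S.card + 1) * (1 / 200) ^ (S.card + 1) := by rw [← mul_pow]; ring
        _ ≤ c1 ^ (S.card + 1) * (1 / 200) := mul_le_mul_of_nonneg_left
          (pow_succ_le_self' (by norm_num) (by norm_num) _) (by positivity)
        _ = c1 ^ (S.card + 1) / 200 := by ring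
    calc e ^ (S.card + 1) / σ ^ 5 ≤ c1 ^ (S.card + 1) / 200 / σ ^ 5 :=
          div_le_div_of_nonneg_right h9 (by positivity)
      _ = c1 ^ (S.card + 1) * (1 / (2 * σ)) ^ 3 / (5 * σ) ^ 2 := by
          field_simp
          norm_num
      _ ≤ c1 ^ (S.card + 1) * (XX W S s / HH W) ^ 3 / (s : ℝ) ^ 2 :=
          div_le_div₀ (mul_nonneg (by positivity) (pow_nonneg hq0 3))
            (mul_le_mul_of_nonneg_left h7 (by positivity)) (by positivity) h8
  · push Not at hXB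
    have hRS : RS W S ≤ 2 * B := by linarith
    have hzero : DS W (S ∪ T) = 0 := by
      refine DS_eq_zero fun p hp => ?_
      by_contra hd
      refine hp (Finset.mem_union_right _ ((hT p).2 ?_))
      exact (log_le_RS hΔ S (fun h => hp (Finset.mem_union_left _ h)) hd).trans hRS
    have h5 := hloss W P hP (S ∪ T) hzero
    have hcard : (S ∪ T).card + 1 ≤ (T.card + 1) * (S.card + 1) := by
      have := Finset.card_union_le S T
      nlinarith
    have h6 : e ^ (S.card + 1) ≤ c2 ^ ((S ∪ T).card + 1) :=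
      calc e ^ (S.card + 1) ≤ (c2 ^ (T.card + 1)) ^ (S.card + 1) :=
            pow_le_pow_left₀ he0.le he2 _
        _ = c2 ^ ((T.card + 1) * (S.card + 1)) := (pow_mul _ _ _).symm
        _ ≤ c2 ^ ((S ∪ T).card + 1) := pow_le_pow_of_le_one hc2.le hc21 hcard
    have h7 : e ^ (S.card + 1) / σ ^ 5 ≤ e ^ (S.card + 1) :=
      div_le_self (by positivity) (one_le_pow₀ hσ)
    calc e ^ (S.card + 1) / σ ^ 5 * HH W ≤ c2 ^ ((S ∪ T).card + 1) * HH W :=
          mul_le_mul_of_nonneg_right (h7.trans h6) hH0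
      _ ≤ hhat P := h5

end Pool.Agent.H38LT
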