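import Mathlib

set_option autoImplicit false

namespace Pool.Agent.H38LT

/-! Chunk FQ (S/M). Choice of `N` (real numbers only). Model: `choose_N` in H38LS/FN1.

Proof. We may assume `c ≤ 1` (or `N = ⌈H/(c X)⌉₊ + 1`). `B = 4 C/c + 1`, `H ≥ X ≥ B > 0`. With
`N = ⌈H/(c X)⌉₊ + 1`, `M = 2 N + 1 ≥ 2 H/(c X)`: `H/(12 M) ≤ c X/24`, `C ≤ c X/4`, so the left side is
`≥ c X/2`; `M ≤ 2 H/(c X) + 5 ≤ (2/c + 5) H/X`. Hence
`h ≥ c X/(2 C2 s² (2/c + 5)² (H/X)²)`. -/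

theorem choose_N2 {c C C2 : ℝ} (hc : 0 < c) (hC : 0 ≤ C) (hC2 : 0 < C2) :
    ∃ c' B : ℝ, 0 < c' ∧ 1 ≤ B ∧ ∀ (X H h s : ℝ), B ≤ X → X ≤ H → 1 ≤ s →
      (∀ N : ℕ, 1 ≤ N → c * X - H / (12 * (2 * N + 1)) - C ≤
        C2 * s ^ 2 * (2 * N + 1) ^ 2 * h) →
      c' * X ^ 3 / (s ^ 2 * H ^ 2) ≤ h := by
  obtain ⟨a, ha⟩ : ∃ a : ℝ, a = 1 / c + 1 := ⟨_, rfl⟩
  have hca : 1 ≤ c * a := by
    rw [ha, mul_add, mul_one_div_cancel hc.ne']
    linarith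
  have ha1 : 1 ≤ a := by
    rw [ha]
    have : 0 < 1 / c := by positivity
    linarith
  refine ⟨c / (2 * C2 * (2 * a + 3) ^ 2), 4 * C / c + 1, by positivity, ?_, ?_⟩
  · have : 0 ≤ 4 * C / c := by positivity
    linarith
  intro X H h s hBX hXH hs hN
  have hCX : C ≤ c * X / 4 := by
    have h1 : 4 * C / c ≤ X := by linarith
    rw [div_le_iff₀ hc] at h1
    linarith
  have hX : 0 < X := by
    have : 0 ≤ 4 * C / c := by positivity
    linarith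
  have hH : 0 < H := by linarith
  have hr : 1 ≤ H / X := by
    rw [le_div_iff₀ hX]
    linarith
  obtain ⟨N, hNd⟩ : ∃ N : ℕ, N = ⌈a * (H / X)⌉₊ := ⟨_, rfl⟩
  have h1 : a * (H / X) ≤ N := by
    rw [hNd]
    exact Nat.le_ceil _
  have h2 : (N : ℝ) < a * (H / X) + 1 := by
    rw [hNd]
    exact Nat.ceil_lt_add_one (by positivity)
  have har : 1 ≤ a * (H / X) := by nlinarith
  have hN1 : 1 ≤ N := by
    have h3 : (1 : ℝ) ≤ N := by linarith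
    exact_mod_cast h3
  have h4 := hN N hN1
  obtain ⟨M, hM⟩ : ∃ M : ℝ, M = 2 * (N : ℝ) + 1 := ⟨_, rfl⟩
  rw [← hM] at h4
  have hM0 : 0 < M := by rw [hM]; positivity
  have hM1 : 2 * (a * (H / X)) ≤ M := by linarith
  have hM2 : M ≤ (2 * a + 3) * (H / X) := by nlinarith
  have h5 : H / (12 * M) ≤ c * X / 24 := by
    rw [div_le_div_iff₀ (by positivity) (by norm_num)]
    have h7 := mul_le_mul_of_nonneg_right hM1 hX.le
    have h8 : 2 * (a * (H / X)) * X = 2 * a * H := by field_simp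
    rw [h8] at h7
    have h9 := mul_le_mul_of_nonneg_left h7 hc.le
    have h10 : H ≤ c * a * H := le_mul_of_one_le_left hH.le hca
    nlinarith
  have h6 : c * X / 2 ≤ C2 * s ^ 2 * M ^ 2 * h := by
    have : 0 < c * X := by positivity
    linarith
  have hh : 0 < h := by
    by_contra hneg
    have h7 : C2 * s ^ 2 * M ^ 2 * h ≤ 0 :=
      mul_nonpos_of_nonneg_of_nonpos (by positivity) (not_lt.1 hneg)
    have : 0 < c * X := by positivity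
    linarith
  have h7 : M ^ 2 ≤ (2 * a + 3) ^ 2 * (H ^ 2 / X ^ 2) := by
    calc M ^ 2 ≤ ((2 * a + 3) * (H / X)) ^ 2 := pow_le_pow_left₀ hM0.le hM2 2
      _ = (2 * a + 3) ^ 2 * (H ^ 2 / X ^ 2) := by ring
  have h8 : c * X / 2 ≤ C2 * s ^ 2 * ((2 * a + 3) ^ 2 * (H ^ 2 / X ^ 2)) * h := by
    refine h6.trans ?_
    gcongr
  rw [div_le_iff₀ (by positivity)]
  have h9 := mul_le_mul_of_nonneg_right h8
    (by positivity : (0 : ℝ) ≤ X ^ 2 / (C2 * (2 * a + 3) ^ 2))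
  have h10 : C2 * s ^ 2 * ((2 * a + 3) ^ 2 * (H ^ 2 / X ^ 2)) * h * (X ^ 2 / (C2 * (2 * a + 3) ^ 2)) =
      h * (s ^ 2 * H ^ 2) := by
    field_simp
  have h11 : c * X / 2 * (X ^ 2 / (C2 * (2 * a + 3) ^ 2)) =
      c / (2 * C2 * (2 * a + 3) ^ 2) * X ^ 3 := by
    field_simp
  rw [h10, h11] at h9
  exact h9

end Pool.Agent.H38LT
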