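import Pool.Agent.Lib.H38LT.MQ
import Pool.Agent.Lib.H38LT.FQ

set_option autoImplicit false

namespace Pool.Agent.H38LT

open Pool.Agent.H38LS NumberField Height IsDedekindDomain

universe u

variable {K : Type u} [Field K] [NumberField K] [DecidableEq K]

/-! Chunk FC (M). The theorem with `XX`.

Proof. `choose_N2` for the constants of `main_ineq2` with `X = XX W S s`, `H = logDisc + hinf`
(`XX ≤ H` by `TS_le_RS`, `ZS_add_DS`): `hhat P ≥ c' X³/(s² H²)`, and `HH ≤ H ≤ 2 HH` (`HH_le`), so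
`X³/(s² H²) ≥ X³/(4 s² HH²) = (X/HH)³ HH/(4 s²)` (`HH > 0` as `2 HH ≥ H ≥ X ≥ B ≥ 1`). -/

theorem main_XX (hs : Specs.{u}) (J : ℕ) : ∃ c B : ℝ, 0 < c ∧ 1 ≤ B ∧
    ∀ (W : WeierstrassCurve K) [W.IsElliptic] (P : W.toAffine.Point),
      (∀ n : ℤ, n ≠ 0 → n • P ≠ 0) → ∀ S : Finset (HeightOneSpectrum (𝓞 K)), S.card ≤ J →
      ∀ s : ℕ, 1 ≤ s → B ≤ XX W S s →
        c * (XX W S s / HH W) ^ 3 / (s : ℝ) ^ 2 * HH W ≤ hhat P := by
  obtain ⟨c, C, C2, hc, hC, hC2, hmain⟩ := main_ineq2 (K := K) hs J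
  obtain ⟨c', B, hc', hB, hchoose⟩ := choose_N2 hc hC hC2
  refine ⟨c' / 4, B, by positivity, hB, ?_⟩
  intro W _ P hP S hS s hs1 hBX
  have hΔ : W.Δ ≠ 0 := W.isUnit_Δ.ne_zero
  have h1 := TS_le_RS hΔ S s
  have h2 := ZS_add_DS W S
  have h3 := HH_le W
  have hX : XX W S s ≤ logDisc W + hinf W := by
    unfold XX
    linarith [h1.1, h1.2]
  have hs1' : (1 : ℝ) ≤ s := by exact_mod_cast hs1
  have h4 := hchoose (XX W S s) (logDisc W + hinf W) (hhat P) (s : ℝ) hBX hX hs1'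
    (fun N hN => hmain W P hP S hS s N hs1 hN)
  refine le_trans ?_ h4
  obtain ⟨X, hXd⟩ : ∃ X : ℝ, X = XX W S s := ⟨_, rfl⟩
  obtain ⟨H, hHd⟩ : ∃ H : ℝ, H = logDisc W + hinf W := ⟨_, rfl⟩
  obtain ⟨Y, hYd⟩ : ∃ Y : ℝ, Y = HH W := ⟨_, rfl⟩
  rw [← hXd, ← hHd] at hX ⊢
  rw [← hXd] at hBX
  rw [← hHd, ← hYd] at h3
  rw [← hYd]
  have hX0 : 0 < X := by linarith
  have hH0 : 0 < H := by linarith
  have hY0 : 0 < Y := by linarith [h3.2]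
  have hs0 : (0 : ℝ) < s := by linarith
  have e1 : c' / 4 * (X / Y) ^ 3 / (s : ℝ) ^ 2 * Y = c' * X ^ 3 / (4 * (s : ℝ) ^ 2 * Y ^ 2) := by
    field_simp
  rw [e1, div_le_div_iff_of_pos_left (by positivity) (by positivity) (by positivity)]
  have h5 : H ^ 2 ≤ (2 * Y) ^ 2 := pow_le_pow_left₀ hH0.le h3.2 2
  have h6 := mul_le_mul_of_nonneg_left h5 (by positivity : (0 : ℝ) ≤ (s : ℝ) ^ 2)
  nlinarith

end Pool.Agent.H38LT
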