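import Pool.Agent.Lib.H38LT.MQ3
import Pool.Agent.Lib.H38LT.FQ

set_option autoImplicit false

namespace Pool.Agent.H38LT

open Pool.Agent.H38LS NumberField Height IsDedekindDomain

universe u

variable {K : Type u} [Field K] [NumberField K] [DecidableEq K]

/-! FC3. `choose_N2` (with `C2 := 1` and `h := C2 * 2500 ^ #S * hhat P`) for the constants of
`main_ineq3`: `c' X³/(s² H²) ≤ C2 2500^(#S) hhat P`, `H = logDisc + hinf ≤ 2 HH`. -/

theorem main_XX3 (hs : Specs.{u}) : ∃ c B : ℝ, 0 < c ∧ c ≤ 1 ∧ 1 ≤ B ∧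
    ∀ (W : WeierstrassCurve K) [W.IsElliptic] (P : W.toAffine.Point),
      (∀ n : ℤ, n ≠ 0 → n • P ≠ 0) → ∀ S : Finset (HeightOneSpectrum (𝓞 K)),
      ∀ s : ℕ, 1 ≤ s → B ≤ XX W S s →
        c ^ (S.card + 1) * (XX W S s / HH W) ^ 3 / (s : ℝ) ^ 2 * HH W ≤ hhat P := by
  obtain ⟨c, C, C2, hc, hC, hC2, hmain⟩ := main_ineq3 (K := K) hs
  obtain ⟨c', B, hc', hB, hchoose⟩ := choose_N2 hc hC one_pos
  obtain ⟨e, he⟩ : ∃ e : ℝ, e = min (1 / 2500) (c' / (4 * C2)) := ⟨_, rfl⟩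
  have he0 : 0 < e := by
    rw [he]
    exact lt_min (by norm_num) (by positivity)
  have he1 : e ≤ 1 / 2500 := by
    rw [he]
    exact min_le_left _ _
  have he2 : e ≤ c' / (4 * C2) := by
    rw [he]
    exact min_le_right _ _
  refine ⟨e, B, he0, he1.trans (by norm_num), hB, ?_⟩
  intro W _ P hP S s hs1 hBX
  have hΔ : W.Δ ≠ 0 := W.isUnit_Δ.ne_zero
  have h1 := TS_le_RS hΔ S s
  have h2 := ZS_add_DS W S
  have h3 := HH_le W
  have hX : XX W S s ≤ logDisc W + hinf W := by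
    unfold XX
    linarith [h1.1, h1.2]
  have hs1' : (1 : ℝ) ≤ s := by exact_mod_cast hs1
  have h4 := hchoose (XX W S s) (logDisc W + hinf W) (C2 * 2500 ^ S.card * hhat P) (s : ℝ) hBX hX
    hs1' (fun N hN => (hmain W P hP S s N hs1 hN).trans (le_of_eq (by ring)))
  obtain ⟨X, hXd⟩ : ∃ X : ℝ, X = XX W S s := ⟨_, rfl⟩
  obtain ⟨H, hHd⟩ : ∃ H : ℝ, H = logDisc W + hinf W := ⟨_, rfl⟩
  obtain ⟨Y, hYd⟩ : ∃ Y : ℝ, Y = HH W := ⟨_, rfl⟩
  rw [← hXd, ← hHd] at hX h4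
  rw [← hXd] at hBX
  rw [← hHd, ← hYd] at h3
  rw [← hYd, ← hXd]
  have hX0 : 0 < X := by linarith
  have hH0 : 0 < H := by linarith
  have hY0 : 0 < Y := by linarith [h3.2]
  have hs0 : (0 : ℝ) < s := by linarith
  have hp : (0 : ℝ) < 2500 ^ S.card := by positivity
  -- the constant
  have hpow : e ^ (S.card + 1) ≤ c' / (4 * C2 * 2500 ^ S.card) := by
    have h5 : e ^ S.card ≤ (1 / 2500) ^ S.card := pow_le_pow_left₀ he0.le he1 _
    calc e ^ (S.card + 1) = e ^ S.card * e := pow_succ _ _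
      _ ≤ (1 / 2500) ^ S.card * (c' / (4 * C2)) :=
        mul_le_mul h5 he2 he0.le (by positivity)
      _ = c' / (4 * C2 * 2500 ^ S.card) := by
        rw [one_div, inv_pow]
        field_simp
  have e0 : 0 ≤ (X / Y) ^ 3 / (s : ℝ) ^ 2 * Y := by positivity
  have e1 : e ^ (S.card + 1) * (X / Y) ^ 3 / (s : ℝ) ^ 2 * Y =
      e ^ (S.card + 1) * ((X / Y) ^ 3 / (s : ℝ) ^ 2 * Y) := by ring
  rw [e1]
  refine (mul_le_mul_of_nonneg_right hpow e0).trans ?_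
  have h5 : H ^ 2 ≤ (2 * Y) ^ 2 := pow_le_pow_left₀ hH0.le h3.2 2
  have h6 : c' * X ^ 3 / ((s : ℝ) ^ 2 * (2 * Y) ^ 2) ≤ c' * X ^ 3 / ((s : ℝ) ^ 2 * H ^ 2) :=
    div_le_div_of_nonneg_left (by positivity) (by positivity)
      (mul_le_mul_of_nonneg_left h5 (by positivity))
  have h7 := h6.trans h4
  have e2 : c' / (4 * C2 * 2500 ^ S.card) * ((X / Y) ^ 3 / (s : ℝ) ^ 2 * Y) =
      c' * X ^ 3 / ((s : ℝ) ^ 2 * (2 * Y) ^ 2) / (C2 * 2500 ^ S.card) := by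
    field_simp
    try ring
  rw [e2, div_le_iff₀ (by positivity)]
  linarith

end Pool.Agent.H38LT
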