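import Pool.Agent.Lib.H38LT.FB3

set_option autoImplicit false

namespace Pool.Agent.H38LT

open Pool.Agent.H38LS NumberField Height IsDedekindDomain

universe u

/-! GB. The inequality `main_XX3` for all curves (no lower bound for `XX`). -/

section XXsum

variable {K : Type*} [Field K] [NumberField K]

private theorem GB_log_nonneg (p : HeightOneSpectrum (𝓞 K)) : 0 ≤ Real.log (Nm p) :=
  Real.log_nonneg (one_lt_Nm p).le

open Classical in
theorem XX_eq_sum {W : WeierstrassCurve K} [W.IsElliptic] (S : Finset (HeightOneSpectrum (𝓞 K)))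
    {S0 : Finset (HeightOneSpectrum (𝓞 K))} (hS : ∀ p ∉ S0, dmin W p = 0) (s : ℕ) :
    XX W S s = hinf W + ∑ p ∈ S0, if p ∈ S then (dmin W p : ℝ) * Real.log (Nm p)
      else if dmin W p ≠ 0 ∧ dmin W p ≤ s then Real.log (Nm p) else 0 := by
  have key : (∑ p ∈ S0, if p ∈ S then (dmin W p : ℝ) * Real.log (Nm p)
      else if dmin W p ≠ 0 ∧ dmin W p ≤ s then Real.log (Nm p) else 0) =
      ∑ p ∈ S, (dmin W p : ℝ) * Real.log (Nm p) +
        ∑ p ∈ S0 \ S, if dmin W p ≠ 0 ∧ dmin W p ≤ s then Real.log (Nm p) else 0 := by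
    rw [Finset.sum_ite]
    congr 1
    · apply Finset.sum_subset
      · intro p hp
        exact (Finset.mem_filter.1 hp).2
      · intro p hp hp'
        have h0 : p ∉ S0 := fun h => hp' (Finset.mem_filter.2 ⟨h, hp⟩)
        rw [hS p h0, Nat.cast_zero, zero_mul]
    · refine Finset.sum_congr ?_ fun _ _ => rfl
      ext p
      rw [Finset.mem_sdiff, Finset.mem_filter]
  unfold XX ZS
  rw [TS_eq_sum S hS s, add_assoc, key]

theorem XX_mono {W : WeierstrassCurve K} [W.IsElliptic] {S S' : Finset (HeightOneSpectrum (𝓞 K))}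
    (h : S ⊆ S') (s : ℕ) : XX W S s ≤ XX W S' s := by
  classical
  have hΔ : W.Δ ≠ 0 := W.isUnit_Δ.ne_zero
  have hS : ∀ p ∉ (dmin_finite hΔ).toFinset, dmin W p = 0 := by
    intro p hp
    by_contra hcon
    apply hp
    rw [Set.Finite.mem_toFinset]
    exact hcon
  rw [XX_eq_sum S hS s, XX_eq_sum S' hS s]
  refine add_le_add le_rfl (Finset.sum_le_sum fun p _ => ?_)
  by_cases h1 : p ∈ S
  · rw [if_pos h1, if_pos (h h1)]
  · rw [if_neg h1]
    by_cases h2 : p ∈ S'
    · rw [if_pos h2]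
      split_ifs with h3
      · have h4 : (1 : ℝ) ≤ dmin W p := by exact_mod_cast Nat.one_le_iff_ne_zero.2 h3.1
        exact le_mul_of_one_le_left (GB_log_nonneg p) h4
      · exact mul_nonneg (Nat.cast_nonneg _) (GB_log_nonneg p)
    · rw [if_neg h2]

theorem log_le_ZS {W : WeierstrassCurve K} [W.IsElliptic] {S : Finset (HeightOneSpectrum (𝓞 K))}
    {p : HeightOneSpectrum (𝓞 K)} (hp : p ∈ S) (hd : dmin W p ≠ 0) :
    Real.log (Nm p) ≤ ZS W S := by
  unfold ZS
  have h1 : (dmin W p : ℝ) * Real.log (Nm p) ≤ ∑ p ∈ S, (dmin W p : ℝ) * Real.log (Nm p) :=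
    Finset.single_le_sum (f := fun p => (dmin W p : ℝ) * Real.log (Nm p))
      (fun q _ => mul_nonneg (Nat.cast_nonneg _) (GB_log_nonneg q)) hp
  have h4 : (1 : ℝ) ≤ dmin W p := by exact_mod_cast Nat.one_le_iff_ne_zero.2 hd
  have h5 := le_mul_of_one_le_left (GB_log_nonneg p) h4
  have h6 := hinf_nonneg W
  linarith

end XXsum

variable {K : Type u} [Field K] [NumberField K] [DecidableEq K]

open Classical in
/-- The final inequality for all curves. If `HH ≤ B`: `north`. If `HH > B`: let `Z` be the primes of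
`log Nm ≤ B`. If no prime outside `S ∪ Z` divides the minimal discriminant then
`XX(S ∪ Z) ≥ ZS(S ∪ Z) ≥ HH > B`; otherwise add one such prime. `XX` increases with `S`. -/
theorem main_XX4 (hs : Specs.{u}) : ∃ c : ℝ, 0 < c ∧ c ≤ 1 ∧
    ∀ (W : WeierstrassCurve K) [W.IsElliptic] (P : W.toAffine.Point),
      (∀ n : ℤ, n ≠ 0 → n • P ≠ 0) → ∀ S : Finset (HeightOneSpectrum (𝓞 K)),
      ∀ s : ℕ, 1 ≤ s →
        c ^ (S.card + 1) * (XX W S s / HH W) ^ 3 / (s : ℝ) ^ 2 * HH W ≤ hhat P := by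
  obtain ⟨c₁, B, hc₁, hc₁1, hB, hmain⟩ := main_XX3 (K := K) hs
  obtain ⟨c0, hc0, hnorth⟩ := north (K := K) B
  have hB0 : 0 < B := by linarith
  have hfin := primes_finite (K := K) B
  obtain ⟨Z, hZd⟩ : ∃ Z : Finset (HeightOneSpectrum (𝓞 K)), ∀ p, p ∈ Z ↔ Real.log (Nm p) ≤ B :=
    ⟨hfin.toFinset, fun p => by rw [Set.Finite.mem_toFinset]; exact Iff.rfl⟩
  obtain ⟨d, hd⟩ : ∃ d : ℝ, d = min (c₁ ^ (Z.card + 2)) (c0 / (8 * B)) := ⟨_, rfl⟩
  have hd0 : 0 < d := by
    rw [hd]
    exact lt_min (by positivity) (by positivity)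
  have hd1 : d ≤ c₁ ^ (Z.card + 2) := by
    rw [hd]
    exact min_le_left _ _
  have hd2 : d ≤ c0 / (8 * B) := by
    rw [hd]
    exact min_le_right _ _
  have hd3 : d ≤ 1 := hd1.trans (pow_le_one₀ hc₁.le hc₁1)
  refine ⟨d, hd0, hd3, fun W _ P hP S s hs1 => ?_⟩
  have hΔ : W.Δ ≠ 0 := W.isUnit_Δ.ne_zero
  obtain ⟨hY1, hY2⟩ := HH_le W
  have hXnn : ∀ S' : Finset (HeightOneSpectrum (𝓞 K)), ZS W S' ≤ XX W S' s := fun S' => by
    unfold XX
    have := TS_nonneg W S' s
    linarith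
  have hX0 : 0 ≤ XX W S s := (ZS_nonneg W S).trans (hXnn S)
  have hH0 : 0 ≤ HH W := le_max_of_le_right (zero_le_logHeight₁ _)
  have hs1' : (1 : ℝ) ≤ s := by exact_mod_cast hs1
  by_cases hHB : HH W ≤ B
  · have hj : logHeight₁ W.j ≤ B := (le_max_right _ _).trans hHB
    have h3 := hnorth W P hP hj
    have hX2 : XX W S s ≤ 2 * HH W := by
      have h1 := TS_le_RS hΔ S s
      have h2 := ZS_add_DS W S
      unfold XX
      linarith [h1.1, h1.2]
    have h4 : XX W S s / HH W ≤ 2 := div_le_of_le_mul₀ hH0 (by norm_num) hX2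
    have h40 : 0 ≤ XX W S s / HH W := div_nonneg hX0 hH0
    have h5 : (XX W S s / HH W) ^ 3 ≤ 8 := by
      have := pow_le_pow_left₀ h40 h4 3
      linarith
    have h6 : d ^ (S.card + 1) ≤ d := by
      rw [pow_succ]
      exact mul_le_of_le_one_left hd0.le (pow_le_one₀ hd0.le hd3)
    have h7 : d ^ (S.card + 1) * (XX W S s / HH W) ^ 3 ≤ d * 8 :=
      mul_le_mul h6 h5 (by positivity) hd0.le
    have h8 : d ^ (S.card + 1) * (XX W S s / HH W) ^ 3 / (s : ℝ) ^ 2 ≤ d * 8 := by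
      refine (div_le_self (by positivity) ?_).trans h7
      exact one_le_pow₀ hs1'
    calc d ^ (S.card + 1) * (XX W S s / HH W) ^ 3 / (s : ℝ) ^ 2 * HH W ≤ (d * 8) * B :=
          mul_le_mul h8 hHB hH0 (by positivity)
      _ ≤ (c0 / (8 * B) * 8) * B :=
          mul_le_mul_of_nonneg_right (mul_le_mul_of_nonneg_right hd2 (by norm_num)) hB0.le
      _ = c0 := by field_simp
      _ ≤ hhat P := h3
  · push Not at hHB
    obtain ⟨S2, hS2, hcard, hX2⟩ : ∃ S2 : Finset (HeightOneSpectrum (𝓞 K)), S ⊆ S2 ∧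
        S2.card ≤ S.card + Z.card + 1 ∧ B ≤ XX W S2 s := by
      by_cases hD : ∀ p ∉ S ∪ Z, dmin W p = 0
      · refine ⟨S ∪ Z, Finset.subset_union_left, (Finset.card_union_le S Z).trans (Nat.le_succ _), ?_⟩
        have h1 := ZS_add_DS W (S ∪ Z)
        rw [DS_eq_zero hD, add_zero] at h1
        refine le_trans ?_ (hXnn _)
        rw [h1]
        linarith
      · push Not at hD
        obtain ⟨p, hp, hpd⟩ := hD
        refine ⟨insert p (S ∪ Z), Finset.subset_union_left.trans (Finset.subset_insert _ _), ?_, ?_⟩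
        · have h1 := Finset.card_insert_le p (S ∪ Z)
          have h2 := Finset.card_union_le S Z
          omega
        · have hpZ : p ∉ Z := fun h => hp (Finset.mem_union_right _ h)
          have h1 : B < Real.log (Nm p) := by
            by_contra hcon
            exact hpZ ((hZd p).2 (not_lt.1 hcon))
          have h2 := log_le_ZS (W := W) (Finset.mem_insert_self p (S ∪ Z)) hpd
          exact (h1.le.trans h2).trans (hXnn _)
    have h1 := hmain W P hP S2 s hs1 hX2
    refine le_trans ?_ h1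
    have h2 : XX W S s / HH W ≤ XX W S2 s / HH W := div_le_div_of_nonneg_right (XX_mono hS2 s) hH0
    have h3 : (XX W S s / HH W) ^ 3 ≤ (XX W S2 s / HH W) ^ 3 :=
      pow_le_pow_left₀ (div_nonneg hX0 hH0) h2 3
    have h4 : d ^ (S.card + 1) ≤ c₁ ^ (S2.card + 1) := by
      calc d ^ (S.card + 1) ≤ (c₁ ^ (Z.card + 2)) ^ (S.card + 1) := pow_le_pow_left₀ hd0.le hd1 _
        _ = c₁ ^ ((Z.card + 2) * (S.card + 1)) := (pow_mul _ _ _).symm
        _ ≤ c₁ ^ (S2.card + 1) := by
          refine pow_le_pow_of_le_one hc₁.le hc₁1 ?_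
          nlinarith
    refine mul_le_mul_of_nonneg_right (div_le_div_of_nonneg_right ?_ (by positivity)) hH0
    exact mul_le_mul h4 h3 (pow_nonneg (div_nonneg hX0 hH0) 3) (by positivity)

end Pool.Agent.H38LT
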