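import Pool.Agent.Lib.H38LT.Defs
import Pool.Agent.Lib.H38LS.K1

set_option autoImplicit false

namespace Pool.Agent.H38LT

open Pool.Agent.H38LS

/-! Chunk K2 (S/M). The kernel is bounded below for close positions.

Proof. `kernel_formula` (H38LS/K1): with `u = a/L`, `w = b/L` in `[0, 1/2]`, `|u - w| ≤ 1/100`, say
`u ≤ w`: `1/6 - w + u² + w²`, `w ≤ u + 1/100`, `w² ≥ u²`, so it is at least
`1/6 - 1/100 - u + 2 u² ≥ 1/6 - 1/100 - 1/8 = 0.0316 > 1/48`. -/

theorem kernel_close {L a b : ℝ} (hL : 0 < L) (ha : 0 ≤ a) (ha' : a ≤ L / 2) (hb : 0 ≤ b)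
    (hb' : b ≤ L / 2) (hab : |a - b| ≤ L / 100) :
    L / 48 ≤ L / 6 - hh L |a - b| / 2 - hh L (fold L (a + b)) / 2 := by
  rw [kernel_formula hL ha ha' hb hb']
  have hu0 : 0 ≤ a / L := div_nonneg ha hL.le
  have hw0 : 0 ≤ b / L := div_nonneg hb hL.le
  have hd : |a / L - b / L| ≤ 1 / 100 := by
    rw [← sub_div, abs_div, abs_of_pos hL, div_le_iff₀ hL]
    linarith
  have hd' := abs_le.mp hd
  have key : 1 / 48 ≤ 1 / 6 - max (a / L) (b / L) + (a / L) ^ 2 + (b / L) ^ 2 := by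
    rcases le_total (a / L) (b / L) with h | h
    · rw [max_eq_right h]
      nlinarith [sq_nonneg (a / L - 1 / 4), mul_self_le_mul_self hu0 h]
    · rw [max_eq_left h]
      nlinarith [sq_nonneg (b / L - 1 / 4), mul_self_le_mul_self hw0 h]
  calc L / 48 = L * (1 / 48) := by ring
    _ ≤ _ := mul_le_mul_of_nonneg_left key hL.le

end Pool.Agent.H38LT
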