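import Pool.Agent.Lib.H38LT.OQ1
import Pool.Agent.Lib.H38LT.DF

set_option autoImplicit false

namespace Pool.Agent.H38LT

open Pool.Agent.H38LS NumberField Height IsDedekindDomain

universe u

variable {K : Type u} [Field K] [NumberField K] [DecidableEq K]

/-! Chunk MQ (M). The main inequality. Model: `main_ineq` in H38LS/MI2.

Proof. `Cf` from `exists_Cf`; `Cf' = 2 Cf` also satisfies `CfOK` (`LocLB.mono`). `S0` is the union of
`S`, of the set of bad primes (`good_finite`) and of the primes over 6 (`av_six_finite`). Sum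
`one_q2` over `q ∈ (s, 2 s]` (`s` numbers, `q² ≤ 4 s²`) and use `sum_q` (H38LS/SQ, for `Cf'`) at the
primes of `S0 \ S`, with `M = 2 N + 1`, `r = J + #(InfinitePlace K)`:
`8 * 2500^r * M⁴ * 576 s³ hhat P ≥ s (c M² ZS - M ZS/12 - C M²) + (s M²/24) ∑_(p ∈ S0 \ S, p ∤ 6,
1 ≤ dmin ≤ s) log (Nm p) - (s M/12) DS - 2 s M² ∑_(p ∣ 6) Cf p`.
The sum over `p ∤ 6` is at least `TS W S s - ∑_(p ∣ 6) log (Nm p)`; `ZS + DS = logDisc + hinf`;
`c ≤ 1/24`. Divide by `s M²`. -/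

open Classical in
private theorem MQ_sum (hs : Specs.{u}) {Cf : HeightOneSpectrum (𝓞 K) → ℝ} (hCf : CfOK Cf)
    (W : WeierstrassCurve K) [W.IsElliptic] (P : W.toAffine.Point)
    (S : Finset (HeightOneSpectrum (𝓞 K))) {s N : ℕ} (hs1 : 1 ≤ s) (hN : 1 ≤ N) :
    s * (2 * N + 1) ^ 2 / 24 * (∑ p ∈ S, (if G6 p ∧ dmin W p ≠ 0 ∧ dmin W p ≤ s
      then Real.log (Nm p) else 0)) -
      s * (2 * N + 1) / 12 * (∑ p ∈ S, (dmin W p : ℝ) * Real.log (Nm p)) -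
      s * (2 * N + 1) ^ 2 * ∑ p ∈ S, Cf p ≤
    ∑ p ∈ S, ∑ q ∈ Finset.Ioc s (2 * s), Bp Cf W p ((12 * q : ℕ) • P) N := by
  have h := Finset.sum_le_sum fun p (_ : p ∈ S) => sum_q hs hCf W p P hs1 hN
  refine le_trans (le_of_eq ?_) h
  rw [Finset.mul_sum, Finset.mul_sum, Finset.mul_sum, ← Finset.sum_sub_distrib,
    ← Finset.sum_sub_distrib]
  refine Finset.sum_congr rfl fun p _ => ?_
  split_ifs <;> ring

omit [DecidableEq K] in
open Classical in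
private theorem MQ_Ts {W : WeierstrassCurve K} {S S0 B6 : Finset (HeightOneSpectrum (𝓞 K))}
    (hB6 : ∀ p, p ∈ B6 ↔ ¬ G6 p) (hSd : ∀ p ∉ S0, dmin W p = 0) (s : ℕ) :
    TS W S s - ∑ p ∈ B6, Real.log (Nm p) ≤
      ∑ p ∈ S0 \ S, (if G6 p ∧ dmin W p ≠ 0 ∧ dmin W p ≤ s then Real.log (Nm p) else 0) := by
  have hlog : ∀ p : HeightOneSpectrum (𝓞 K), 0 ≤ Real.log (Nm p) := fun p =>
    Real.log_nonneg (one_lt_Nm p).le
  have e : ∑ p ∈ S0 \ S, (if p ∈ B6 then Real.log (Nm p) else 0) ≤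
      ∑ p ∈ B6, Real.log (Nm p) := by
    rw [Finset.sum_ite_mem]
    exact Finset.sum_le_sum_of_subset_of_nonneg Finset.inter_subset_right fun p _ _ => hlog p
  refine (sub_le_sub_left e _).trans ?_
  rw [TS_eq_sum S hSd, ← Finset.sum_sub_distrib]
  refine Finset.sum_le_sum fun p _ => ?_
  have h0 := hlog p
  by_cases h1 : G6 p
  · have h2 : p ∉ B6 := fun h => (hB6 p).1 h h1
    rw [if_neg h2, sub_zero]
    by_cases h3 : dmin W p ≠ 0 ∧ dmin W p ≤ s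
    · rw [if_pos h3, if_pos ⟨h1, h3⟩]
    · rw [if_neg h3, if_neg fun h => h3 h.2]
  · have h2 : p ∈ B6 := (hB6 p).2 h1
    rw [if_pos h2, if_neg fun h : G6 p ∧ dmin W p ≠ 0 ∧ dmin W p ≤ s => h1 h.1]
    split_ifs <;> linarith

private theorem MQ_arith {s M T l6 D c6 c Z C0 H E : ℝ} (hs : 0 < s) (hM : 0 < M)
    (h : s * M ^ 2 / 24 * (T - l6) - s * M / 12 * D - s * M ^ 2 * c6 +
      s * (c * M ^ 2 * Z - M * Z / 12 - C0 * M ^ 2) ≤ s * (E * M ^ 4 * (576 * s ^ 2 * H))) :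
    c * Z + T / 24 - (Z + D) / (12 * M) - (C0 + c6 + l6 / 24) ≤
      576 * E * s ^ 2 * M ^ 2 * H := by
  have h1 : 0 < s * M ^ 2 := by positivity
  refine le_of_mul_le_mul_left ?_ h1
  have e1 : s * M ^ 2 * (c * Z + T / 24 - (Z + D) / (12 * M) - (C0 + c6 + l6 / 24)) =
      s * M ^ 2 / 24 * (T - l6) - s * M / 12 * D - s * M ^ 2 * c6 +
      s * (c * M ^ 2 * Z - M * Z / 12 - C0 * M ^ 2) := by
    field_simp
    ring
  have e2 : s * M ^ 2 * (576 * E * s ^ 2 * M ^ 2 * H) = s * (E * M ^ 4 * (576 * s ^ 2 * H)) := by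
    ring
  rw [e1, e2]
  exact h

private theorem MQ_two {Cf : HeightOneSpectrum (𝓞 K) → ℝ} (h : CfOK Cf) :
    CfOK (fun p => 2 * Cf p) := by
  refine ⟨fun p => mul_nonneg two_pos.le (h.1 p), fun p hp => ?_, fun p hp W hW hc x => ?_⟩
  · change 2 * Cf p = 0
    rw [h.2.1 p hp, mul_zero]
  · refine LocLB.mono (h.2.2 p hp W hW hc x) ?_
    have := h.1 p
    change -(2 * Cf p) ≤ -Cf p
    linarith

theorem main_ineq2 (hs : Specs.{u}) (J : ℕ) :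
    ∃ c C C2 : ℝ, 0 < c ∧ 0 ≤ C ∧ 0 < C2 ∧ ∀ (W : WeierstrassCurve K) [W.IsElliptic]
      (P : W.toAffine.Point), (∀ n : ℤ, n ≠ 0 → n • P ≠ 0) →
      ∀ S : Finset (HeightOneSpectrum (𝓞 K)), S.card ≤ J → ∀ s N : ℕ, 1 ≤ s → 1 ≤ N →
        c * XX W S s - (logDisc W + hinf W) / (12 * (2 * N + 1)) - C ≤
          C2 * (s : ℝ) ^ 2 * (2 * N + 1) ^ 2 * hhat P := by
  classical
  obtain ⟨Cf, hCf⟩ := exists_Cf (K := K) hs
  have hCf2 := MQ_two hCf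
  obtain ⟨c, C0, hc, hc48, hC0, one⟩ := one_q2 (K := K) hs hCf J
  have hfin := av_six_finite (K := K)
  obtain ⟨B6, hB6⟩ : ∃ B6 : Finset (HeightOneSpectrum (𝓞 K)), ∀ p, p ∈ B6 ↔ ¬ G6 p :=
    ⟨hfin.toFinset, fun p => by rw [Set.Finite.mem_toFinset]; exact Iff.rfl⟩
  have hl6 : 0 ≤ ∑ p ∈ B6, Real.log (Nm p) := Finset.sum_nonneg fun p _ =>
    Real.log_nonneg (one_lt_Nm p).le
  have hc6 : 0 ≤ ∑ p ∈ B6, (2 * Cf p) := Finset.sum_nonneg fun p _ => hCf2.1 p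
  obtain ⟨E, hE⟩ : ∃ E : ℝ, E = 8 * 2500 ^ (J + Fintype.card (InfinitePlace K)) := ⟨_, rfl⟩
  have hE0 : 0 < E := by rw [hE]; positivity
  refine ⟨c, C0 + ∑ p ∈ B6, (2 * Cf p) + (∑ p ∈ B6, Real.log (Nm p)) / 24, 576 * E, hc,
    by positivity, by positivity, ?_⟩
  intro W _ P hP S hSJ s N hs1 hN
  have hΔ : W.Δ ≠ 0 := W.isUnit_Δ.ne_zero
  obtain ⟨S0, hS0⟩ : ∃ S0 : Finset (HeightOneSpectrum (𝓞 K)), ∀ p,
      p ∈ S0 ↔ p ∈ S ∨ ¬ (IntegralAt (av p) W ∧ av p W.Δ = 1) :=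
    ⟨S ∪ (good_finite hΔ).toFinset, fun p => by
      rw [Finset.mem_union, Set.Finite.mem_toFinset]; exact Iff.rfl⟩
  have hSg : ∀ p ∉ S0, IntegralAt (av p) W ∧ av p W.Δ = 1 := by
    intro p hp
    by_contra h
    exact hp ((hS0 p).2 (Or.inr h))
  have hSd : ∀ p ∉ S0, dmin W p = 0 := fun p hp => dmin_eq_zero (hSg p hp).1 (hSg p hp).2
  have hSS : S ⊆ S0 := fun p hp => (hS0 p).2 (Or.inl hp)
  have hH := hhat_nonneg W P
  have hspos : (0 : ℝ) < s := by exact_mod_cast hs1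
  have h1 : ∀ q ∈ Finset.Ioc s (2 * s), (c * (2 * N + 1) ^ 2 * ZS W S - (2 * N + 1) * ZS W S / 12 -
      C0 * (2 * N + 1) ^ 2) +
      ∑ p ∈ S0 \ S, Bp (fun p => 2 * Cf p) W p ((12 * q : ℕ) • P) N ≤
      E * (2 * N + 1) ^ 4 * (576 * (s : ℝ) ^ 2 * hhat P) := by
    intro q hq
    rw [Finset.mem_Ioc] at hq
    refine (one W P hP S S0 hSS hSJ hSg q N (by omega)).trans ?_
    rw [hE]
    refine mul_le_mul_of_nonneg_left ?_ (by positivity)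
    have h2 : (q : ℝ) ≤ 2 * s := by exact_mod_cast hq.2
    have h3 : (q : ℝ) ^ 2 ≤ (2 * s) ^ 2 := pow_le_pow_left₀ (Nat.cast_nonneg _) h2 2
    have h4 : 144 * (q : ℝ) ^ 2 ≤ 576 * (s : ℝ) ^ 2 := by linarith
    exact mul_le_mul_of_nonneg_right h4 hH
  have hcard : ((Finset.Ioc s (2 * s)).card : ℝ) = s := by
    rw [Nat.card_Ioc, show 2 * s - s = s by omega]
  have h2 := Finset.sum_le_sum h1
  rw [Finset.sum_add_distrib, Finset.sum_const, Finset.sum_const, nsmul_eq_mul, nsmul_eq_mul,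
    hcard, Finset.sum_comm] at h2
  have h3 := MQ_sum hs hCf2 W P (S0 \ S) hs1 hN
  have h4 := MQ_Ts (S := S) hB6 hSd s
  rw [← DS_eq_sum S hSd] at h3
  have h5 : ∑ p ∈ S0 \ S, (2 * Cf p) ≤ ∑ p ∈ B6, (2 * Cf p) := by
    have h6 : ∑ p ∈ S0 \ S, (2 * Cf p) = ∑ p ∈ (S0 \ S) ∩ B6, (2 * Cf p) := by
      refine (Finset.sum_subset Finset.inter_subset_left fun p hp hp' => ?_).symm
      refine hCf2.2.1 p ?_
      by_contra h
      exact hp' (Finset.mem_inter.2 ⟨hp, (hB6 p).2 h⟩)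
    rw [h6]
    exact Finset.sum_le_sum_of_subset_of_nonneg Finset.inter_subset_right fun p _ _ => hCf2.1 p
  have h5' : (s : ℝ) * (2 * N + 1) ^ 2 * ∑ p ∈ S0 \ S, (2 * Cf p) ≤
      (s : ℝ) * (2 * N + 1) ^ 2 * ∑ p ∈ B6, (2 * Cf p) :=
    mul_le_mul_of_nonneg_left h5 (by positivity)
  have h6 : (s : ℝ) * (2 * N + 1) ^ 2 / 24 * (TS W S s - ∑ p ∈ B6, Real.log (Nm p)) ≤
      (s : ℝ) * (2 * N + 1) ^ 2 / 24 * (∑ p ∈ S0 \ S, (if G6 p ∧ dmin W p ≠ 0 ∧ dmin W p ≤ s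
      then Real.log (Nm p) else 0)) := mul_le_mul_of_nonneg_left h4 (by positivity)
  have h7 := MQ_arith (s := (s : ℝ)) (M := 2 * (N : ℝ) + 1) (T := TS W S s)
    (l6 := ∑ p ∈ B6, Real.log (Nm p)) (D := DS W S) (c6 := ∑ p ∈ B6, (2 * Cf p)) (c := c)
    (Z := ZS W S) (C0 := C0) (H := hhat P) (E := E) hspos (by positivity) (by linarith)
  have hT := TS_nonneg W S s
  have hZD := ZS_add_DS W S
  rw [← hZD]
  have h8 : c * XX W S s ≤ c * ZS W S + TS W S s / 24 := by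
    unfold XX
    have : c * TS W S s ≤ 1 / 24 * TS W S s := mul_le_mul_of_nonneg_right (by linarith) hT
    linarith
  linarith

end Pool.Agent.H38LT
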