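import Pool.Agent.Lib.H38LT.Defs

set_option autoImplicit false

namespace Pool.Agent.H38LT

open Pool.Agent.H38LS WeierstrassCurve NumberField Height

universe u

variable {K : Type u} [Field K] [NumberField K] [DecidableEq K]

/-! Chunk NA (S/M). Few points of small height give a lower bound.

Proof. Otherwise `hhat P < 1/(m + 1)²`; the `m + 1` points `k P`, `k = 1, …, m + 1`, are different
(`(k - l) P ≠ 0`) and have `hhat (k P) = k² hhat P ≤ 1` (`hhat_zsmul`, `hhat_nonneg`), a finite set
`T` with more than `m` elements. -/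

theorem hhat_ge_of_count {m : ℕ} {W : WeierstrassCurve K} [W.IsElliptic]
    (hm : ∀ T : Finset W.toAffine.Point, (∀ Q ∈ T, hhat Q ≤ 1) → T.card ≤ m)
    {P : W.toAffine.Point} (hP : ∀ n : ℤ, n ≠ 0 → n • P ≠ 0) :
    1 / ((m : ℝ) + 1) ^ 2 ≤ hhat P := by
  by_contra hlt
  rw [not_le] at hlt
  have hinj : Function.Injective (fun k : ℕ => ((k : ℤ) + 1) • P) := by
    intro k l hkl
    by_contra hne
    refine hP ((k : ℤ) - l) (fun h => hne (by omega)) ?_
    have h1 : ((k : ℤ) + 1) • P = ((l : ℤ) + 1) • P := hkl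
    have h2 : ((k : ℤ) - l) • P = ((k : ℤ) + 1) • P - ((l : ℤ) + 1) • P := by
      rw [← sub_smul]
      congr 1
      ring
    rw [h2, h1, sub_self]
  have hpos : (0 : ℝ) < ((m : ℝ) + 1) ^ 2 := by positivity
  have hle : ∀ Q ∈ (Finset.range (m + 1)).map ⟨_, hinj⟩, hhat Q ≤ 1 := by
    intro Q hQ
    obtain ⟨k, hk, rfl⟩ := Finset.mem_map.1 hQ
    have hk' : (k : ℝ) ≤ m := by
      exact_mod_cast Nat.lt_succ_iff.1 (Finset.mem_range.1 hk)
    show hhat (((k : ℤ) + 1) • P) ≤ 1
    rw [hhat_zsmul]
    push_cast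
    have h1 : ((k : ℝ) + 1) ^ 2 ≤ ((m : ℝ) + 1) ^ 2 := by
      have : (0 : ℝ) ≤ k := Nat.cast_nonneg k
      exact pow_le_pow_left₀ (by linarith) (by linarith) 2
    calc ((k : ℝ) + 1) ^ 2 * hhat P ≤ ((m : ℝ) + 1) ^ 2 * hhat P :=
          mul_le_mul_of_nonneg_right h1 (hhat_nonneg W P)
      _ ≤ ((m : ℝ) + 1) ^ 2 * (1 / ((m : ℝ) + 1) ^ 2) :=
          mul_le_mul_of_nonneg_left hlt.le hpos.le
      _ = 1 := mul_one_div_cancel hpos.ne'
  have hcard := hm _ hle
  rw [Finset.card_map, Finset.card_range] at hcard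
  omega

/-- At most two points have a given x-coordinate, and one has none: if every point `≠ 0` of `T` has
its x-coordinate in the finite set `F` then `#T ≤ 2 #F + 1`. (Two points with the same `x` are equal or
opposite: `WeierstrassCurve.Affine.Y_eq_of_X_eq` or similar; `Finset.card_le_mul_card_image`.) -/
theorem card_le_of_x {W : WeierstrassCurve K} (T : Finset W.toAffine.Point) (F : Finset K)
    (hT : ∀ Q ∈ T, Q ≠ 0 → (xr Q).1 ∈ F) : T.card ≤ 2 * F.card + 1 := by
  classical
  have key : ∀ Q Q' : W.toAffine.Point, Q ≠ 0 → Q' ≠ 0 → (xr Q).1 = (xr Q').1 →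
      Q = Q' ∨ Q = -Q' := by
    intro Q Q' hQ hQ' hx
    match Q, Q', hQ, hQ', hx with
    | .zero, _, hQ, _, _ => exact absurd rfl hQ
    | .some _ _ _, .zero, _, hQ', _ => exact absurd rfl hQ'
    | .some x y h, .some x' y' h', _, _, hx =>
      have hx' : x = x' := hx
      subst hx'
      rcases Affine.Y_eq_of_X_eq h.1 h'.1 rfl with hy | hy
      · left
        subst hy
        rfl
      · right
        subst hy
        rfl
  have h1 : (T.erase 0).card ≤ 2 * F.card := by
    refine Finset.card_le_mul_card_image_of_maps_to (f := fun Q => (xr Q).1) ?_ 2 ?_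
    · intro Q hQ
      exact hT Q (Finset.mem_of_mem_erase hQ) (Finset.ne_of_mem_erase hQ)
    · intro b _
      rcases Finset.eq_empty_or_nonempty ((T.erase 0).filter (fun Q => (xr Q).1 = b)) with he | ⟨Q₀, hQ₀⟩
      · rw [he]
        simp
      · rw [Finset.mem_filter] at hQ₀
        have hsub : (T.erase 0).filter (fun Q => (xr Q).1 = b) ⊆ {Q₀, -Q₀} := by
          intro Q hQ
          rw [Finset.mem_filter] at hQ
          rcases key Q Q₀ (Finset.ne_of_mem_erase hQ.1) (Finset.ne_of_mem_erase hQ₀.1)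
            (hQ.2.trans hQ₀.2.symm) with h | h
          · rw [h]
            exact Finset.mem_insert_self _ _
          · rw [h]
            exact Finset.mem_insert_of_mem (Finset.mem_singleton_self _)
        exact (Finset.card_le_card hsub).trans Finset.card_le_two
  have h2 : T.card ≤ (T.erase 0).card + 1 := by
    have := Finset.pred_card_le_card_erase (s := T) (a := (0 : W.toAffine.Point))
    omega
  omega

end Pool.Agent.H38LT
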