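import Pool.Agent.Lib.H38LT.Defs

set_option autoImplicit false

namespace Pool.Agent.H38LT

open Pool.Agent.H38LS WeierstrassCurve NumberField Height Filter

universe u

variable {K : Type u} [Field K] [NumberField K] [DecidableEq K]

/-! Chunk NB2 (M). Two bounds for heights on the projective line. -/

omit [NumberField K] [DecidableEq K] in
private theorem NB2_vec_ne {p : K × K} (hp : p ≠ 0) : (![p.1, p.2] : Fin 2 → K) ≠ 0 := by
  intro h
  refine hp (Prod.ext ?_ ?_)
  · simpa using congrFun h 0
  · simpa using congrFun h 1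

omit [NumberField K] [DecidableEq K] in
private theorem NB2_asm (W : WeierstrassCurve K) (s : K × K × K) :
    (fun i => (WeierstrassCurve.addSubMap W i).eval ![s.1, s.2.1, s.2.2]) =
      ![(asm W s).1, (asm W s).2.1, (asm W s).2.2] := by
  funext i
  fin_cases i <;> simp [WeierstrassCurve.addSubMap, asm]

/-- The duplication on the x-line (any elliptic curve): lower bound.

Proof. `asm_sym_self` (H38LS/X1): `asm W (sym p p) = (dupX, dupZ, 0)` (see there for the exact form).
`abs_logHeight_addSubMap_sub_two_mul_logHeight_le` and `abs_logHeight_sym2_sub_le` as in `xh_par`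
(H38LS/H1): `logHeight (dup W p) = logHeight ![dupX, dupZ, 0] ≥ 2 logHeight (sym p p) - C₁ ≥
4 logHeight p - C₂` (the height does not change if a coordinate `0` is removed or the coordinates
are permuted: see `xh_zero` in H1 and `Height.logHeight_cons_zero`, `Height.logHeight_comp_equiv` or
similar). -/
theorem dup_height (W : WeierstrassCurve K) [W.IsElliptic] :
    ∃ C : ℝ, 0 ≤ C ∧ ∀ p : K × K, p ≠ 0 →
      4 * logHeight ![p.1, p.2] - C ≤ logHeight ![(dup W p).1, (dup W p).2] := by
  obtain ⟨C1, h1⟩ := WeierstrassCurve.abs_logHeight_addSubMap_sub_two_mul_logHeight_le W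
  obtain ⟨C2, h2⟩ := abs_logHeight_sym2_sub_le K
  refine ⟨|C1| + 2 * |C2|, by positivity, fun p hp => ?_⟩
  have e1 := h2 (NB2_vec_ne hp) (NB2_vec_ne hp)
  have e3 := h1 ![(sym p p).1, (sym p p).2.1, (sym p p).2.2]
  rw [NB2_asm, asm_sym_self] at e3
  have e4 : logHeight ![(dup W p).1, (dup W p).2, 0] = logHeight ![(dup W p).1, (dup W p).2] :=
    logHeight_cons_cons_cons_zero _ _ _
  have e5 : ![(sym p p).1, (sym p p).2.1, (sym p p).2.2] =
      ![p.1 * p.1, p.1 * p.2 + p.2 * p.1, p.2 * p.2] := by
    funext i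
    fin_cases i
    · simp [sym]
    · simp [sym, mul_comm]
    · simp [sym]
  rw [e5] at e3
  dsimp only at e3
  rw [e4] at e3
  have a1 := (abs_le.mp e1).1
  have a3 := (abs_le.mp e3).1
  have b1 := le_abs_self C1
  have b2 := le_abs_self C2
  linarith

/-- A linear substitution changes the height by at most a constant (upper bound).
(`Height.logHeight_eval_le'` for the linear forms, or Mathlib's bound for linear maps.) -/
theorem lin_height (a b c d : K) :
    ∃ C : ℝ, 0 ≤ C ∧ ∀ p : K × K, p ≠ 0 →
      logHeight ![a * p.1 + b * p.2, c * p.1 + d * p.2] ≤ logHeight ![p.1, p.2] + C := by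
  refine ⟨max 0 (totalWeight K * Real.log (Nat.card (Fin 2)) +
    logHeight (fun ij : Fin 2 × Fin 2 => (!![a, b; c, d] : Matrix (Fin 2) (Fin 2) K) ij.1 ij.2)),
    le_max_left _ _, fun p _ => ?_⟩
  have h := logHeight_linearMap_apply_le
    (fun ij : Fin 2 × Fin 2 => (!![a, b; c, d] : Matrix (Fin 2) (Fin 2) K) ij.1 ij.2)
    ![p.1, p.2]
  have e : (fun j : Fin 2 => ∑ i : Fin 2,
      (!![a, b; c, d] : Matrix (Fin 2) (Fin 2) K) j i * (![p.1, p.2] : Fin 2 → K) i) =
      ![a * p.1 + b * p.2, c * p.1 + d * p.2] := by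
    funext j
    fin_cases j <;> simp [Fin.sum_univ_two]
  dsimp only at h
  rw [e] at h
  have h2 := le_max_right 0 (totalWeight K * Real.log (Nat.card (Fin 2)) +
    logHeight (fun ij : Fin 2 × Fin 2 => (!![a, b; c, d] : Matrix (Fin 2) (Fin 2) K) ij.1 ij.2))
  linarith

end Pool.Agent.H38LT
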