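import Pool.Agent.Lib.H38LT.NA
import Pool.Agent.Lib.H38LT.NB
import Pool.Agent.Lib.H38LT.NB2

set_option autoImplicit false

namespace Pool.Agent.H38LT

open Pool.Agent.H38LS WeierstrassCurve NumberField Height

universe u

variable {K : Type u} [Field K] [NumberField K] [DecidableEq K]

/-! Chunk ND (M). The curves with a given `j ≠ 0, 1728`: at most `m` points with `hhat ≤ 1`.

Proof. If there is no such curve take `m = 0`. Otherwise `E = Et t` is elliptic (`disc_Et`: its
discriminant is not 0). `C` from `dup_height (Et t)`. For `W` with `tt W = t` let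
`γ p = logHeight ![(nrm W p).1, (nrm W p).2]`: `h1` with `e = 1` by `lin_height`
(`nrm W p = ((p.1 - rr W * p.2)/cc W, p.2)`); `h2`: `nrm W (dup W p)` is proportional to
`dup (Et t) (nrm W p)` (`dup_M` for `q = nrm W p`, as `p = (cc q.1 + rr q.2, q.2)`; `cc W ≠ 0`), so
`γ (dup W p) ≥ 4 γ p - C`. By `gamma_bound`, `hhat Q ≤ 1` implies
`logHeight ![X, 1] ≤ 2 + C/3` for `xr Q = (x, 1)`, `X = (x - rr W)/cc W` (`logHeight₁`:
`Height.logHeight₁_eq_logHeight` or similar), so `X` lies in a finite set `F` which depends only on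
`t` (Northcott, `Northcott.finite_le`), and `x = cc W X + rr W` in a finite set with `#F` elements:
`card_le_of_x`, `m = 2 #F + 1`. -/

theorem count_generic (t : K) : ∃ m : ℕ, ∀ (W : WeierstrassCurve K) [W.IsElliptic],
    W.c₄ ≠ 0 → W.c₆ ≠ 0 → tt W = t →
      ∀ T : Finset W.toAffine.Point, (∀ Q ∈ T, hhat Q ≤ 1) → T.card ≤ m := by
  by_cases hex : (Et t).Δ = 0
  · refine ⟨0, fun W _ h4 h6 htt => ?_⟩
    exfalso
    have h := disc_Et h4 h6
    rw [htt, hex, mul_zero] at h
    exact W.isUnit_Δ.ne_zero h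
  have : (Et t).IsElliptic := ⟨isUnit_iff_ne_zero.mpr hex⟩
  obtain ⟨C, hC0, hC⟩ := dup_height (Et t)
  have hfin : {x : K | logHeight₁ x ≤ 2 + C / 3}.Finite := Northcott.finite_le _
  refine ⟨2 * hfin.toFinset.card + 1, fun W _ h4 h6 htt T hT => ?_⟩
  have hc : cc W ≠ 0 := by
    unfold cc
    exact div_ne_zero (neg_ne_zero.mpr h6) h4
  obtain ⟨D, hD0, hD⟩ := lin_height (1 / cc W) (-(rr W) / cc W) (0 : K) 1
  have hnrm : ∀ p : K × K, nrm W p = (1 / cc W * p.1 + -(rr W) / cc W * p.2, 0 * p.1 + 1 * p.2) := by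
    intro p
    unfold nrm
    refine Prod.ext ?_ ?_
    · simp only
      ring
    · simp only
      ring
  have h1 : ∀ p : K × K, p ≠ 0 →
      logHeight ![(nrm W p).1, (nrm W p).2] ≤ 1 * logHeight ![p.1, p.2] + D := by
    intro p hp
    have h := hD p hp
    rw [← one_mul (logHeight ![p.1, p.2])] at h
    rw [hnrm]
    exact h
  have h2 : ∀ p : K × K, p ≠ 0 →
      4 * logHeight ![(nrm W p).1, (nrm W p).2] - C ≤
        logHeight ![(nrm W (dup W p)).1, (nrm W (dup W p)).2] := by
    intro p hp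
    have hpq : p = (cc W * (nrm W p).1 + rr W * (nrm W p).2, (nrm W p).2) := by
      unfold nrm
      refine Prod.ext ?_ rfl
      simp only
      rw [mul_div_cancel₀ _ hc]
      ring
    have hq : nrm W p ≠ 0 := by
      intro h0
      rw [h0] at hpq
      apply hp
      rw [hpq]
      simp
    have hdup := dup_M h4 h6 (nrm W p)
    rw [← hpq, htt] at hdup
    have e1 : (nrm W (dup W p)).1 = cc W ^ 3 * (dup (Et t) (nrm W p)).1 := by
      rw [hdup]
      unfold nrm
      simp only
      rw [div_eq_iff hc]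
      ring
    have e2 : (nrm W (dup W p)).2 = cc W ^ 3 * (dup (Et t) (nrm W p)).2 := by
      rw [hdup]
      rfl
    have e3 : ![(nrm W (dup W p)).1, (nrm W (dup W p)).2] =
        (cc W ^ 3) • ![(dup (Et t) (nrm W p)).1, (dup (Et t) (nrm W p)).2] := by
      rw [e1, e2]
      simp
    rw [e3, logHeight_smul_eq_logHeight _ (pow_ne_zero 3 hc)]
    exact hC _ hq
  have hb : ∀ Q ∈ T, logHeight ![(nrm W (xr Q)).1, (nrm W (xr Q)).2] ≤ 2 + C / 3 := by
    intro Q hQ
    have h3 := gamma_bound (e := 1) zero_le_one hC0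
      (fun p => logHeight ![(nrm W p).1, (nrm W p).2]) h1 h2 Q
    have h4 := hT Q hQ
    linarith
  have hF := card_le_of_x T (hfin.toFinset.image (fun X => cc W * X + rr W)) (by
    intro Q hQ hQ0
    rw [Finset.mem_image]
    rcases Q with _ | ⟨x, y, hxy⟩
    · exact absurd rfl hQ0
    · refine ⟨(x - rr W) / cc W, ?_, ?_⟩
      · rw [Set.Finite.mem_toFinset, Set.mem_ofPred_eq, logHeight₁_eq_logHeight]
        have h3 := hb _ hQ
        have e : (nrm W (xr (WeierstrassCurve.Affine.Point.some x y hxy : W.toAffine.Point))) =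
            ((x - rr W) / cc W, 1) := by
          unfold nrm xr
          simp
        rw [e] at h3
        exact h3
      · simp only [xr]
        rw [mul_div_cancel₀ _ hc]
        ring)
  have hcard : (hfin.toFinset.image (fun X => cc W * X + rr W)).card ≤ hfin.toFinset.card :=
    Finset.card_image_le
  omega

end Pool.Agent.H38LT
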