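import Mathlib

set_option autoImplicit false

namespace Pool.Agent.H38LT

/-! Chunk PH (S/M). Pigeonhole.

Proof. Map `n ∈ [1, M 50^r]` to the vector of the boxes `min ⌊100 (f i n)/(L i)⌋ 49` in
`ι → Fin 50`: there are `50^(card ι) ≤ 50^r` vectors, so one fibre has at least `M` elements
(`Finset.exists_le_card_fiber_of_mul_le_card_of_maps_to`); take a subset with `M` elements
(`Finset.exists_subset_card_eq`). Two numbers of `[0, L/2]` in the same box differ by at most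
`L/100`. -/

private theorem PH_box {x y : ℝ} (hx : 0 ≤ x) (hy : 0 ≤ y) (hx' : x ≤ 50) (hy' : y ≤ 50)
    (h : min ⌊x⌋₊ 49 = min ⌊y⌋₊ 49) : |x - y| ≤ 1 := by
  have h1 := Nat.floor_le hx
  have h2 := Nat.floor_le hy
  have h3 := Nat.lt_floor_add_one x
  have h4 := Nat.lt_floor_add_one y
  rcases lt_or_ge ⌊x⌋₊ 49 with hxs | hxs
  · have h5 : ⌊x⌋₊ = ⌊y⌋₊ := by omega
    rw [h5] at h1 h3
    rw [abs_le]
    constructor <;> linarith
  · have h5 : 49 ≤ ⌊y⌋₊ := by omega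
    have h6 : (49 : ℝ) ≤ (⌊x⌋₊ : ℝ) := by exact_mod_cast hxs
    have h7 : (49 : ℝ) ≤ (⌊y⌋₊ : ℝ) := by exact_mod_cast h5
    rw [abs_le]
    constructor <;> linarith

theorem pigeon_box {ι : Type*} [Fintype ι] (f : ι → ℤ → ℝ) (L : ι → ℝ) (hL : ∀ i, 0 < L i)
    (hf : ∀ i n, 0 ≤ f i n ∧ f i n ≤ L i / 2) (r M : ℕ) (hr : Fintype.card ι ≤ r) :
    ∃ A : Finset ℤ, A.card = M ∧ (∀ a ∈ A, 0 < a ∧ a ≤ ((M * 50 ^ r : ℕ) : ℤ)) ∧
      ∀ i, ∀ a ∈ A, ∀ b ∈ A, |f i a - f i b| ≤ L i / 100 := by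
  classical
  have hx : ∀ i n, 0 ≤ 100 * f i n / L i ∧ 100 * f i n / L i ≤ 50 := by
    intro i n
    have h1 := hf i n
    refine ⟨div_nonneg (by linarith [h1.1]) (hL i).le, ?_⟩
    rw [div_le_iff₀ (hL i)]
    linarith [h1.2]
  obtain ⟨g, hg⟩ : ∃ g : ℤ → ι → Fin 50, ∀ n i,
      ((g n i : Fin 50) : ℕ) = min ⌊100 * f i n / L i⌋₊ 49 :=
    ⟨fun n i => ⟨min ⌊100 * f i n / L i⌋₊ 49, by omega⟩, fun n i => rfl⟩
  obtain ⟨N, hN⟩ : ∃ N : ℕ, N = M * 50 ^ r := ⟨_, rfl⟩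
  have hcard : (Finset.univ : Finset (ι → Fin 50)).card * M ≤
      (Finset.Icc (1 : ℤ) (N : ℤ)).card := by
    rw [Finset.card_univ, Fintype.card_fun, Fintype.card_fin, Int.card_Icc]
    have h1 : ((N : ℤ) + 1 - 1).toNat = N := by simp
    rw [h1, hN, mul_comm]
    exact Nat.mul_le_mul_left _ (Nat.pow_le_pow_right (by norm_num) hr)
  obtain ⟨y, -, hy⟩ := Finset.exists_le_card_fiber_of_mul_le_card_of_maps_to
    (s := Finset.Icc (1 : ℤ) (N : ℤ)) (t := (Finset.univ : Finset (ι → Fin 50))) (f := g)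
    (fun a _ => Finset.mem_univ _) ⟨fun _ => 0, Finset.mem_univ _⟩ hcard
  obtain ⟨A, hA, hAM⟩ := Finset.exists_subset_card_eq hy
  refine ⟨A, hAM, fun a ha => ?_, fun i a ha b hb => ?_⟩
  · have h1 := Finset.mem_Icc.1 (Finset.mem_filter.1 (hA ha)).1
    rw [← hN]
    exact ⟨by omega, h1.2⟩
  · have ha' := (Finset.mem_filter.1 (hA ha)).2
    have hb' := (Finset.mem_filter.1 (hA hb)).2
    have h1 : min ⌊100 * f i a / L i⌋₊ 49 = min ⌊100 * f i b / L i⌋₊ 49 := by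
      rw [← hg a i, ← hg b i, ha', hb']
    have h2 := PH_box (hx i a).1 (hx i b).1 (hx i a).2 (hx i b).2 h1
    have h3 : 100 * f i a / L i - 100 * f i b / L i = 100 * (f i a - f i b) / L i := by ring
    rw [h3, abs_div, abs_mul, abs_of_pos (hL i), div_le_one (hL i)] at h2
    have h4 : |(100 : ℝ)| = 100 := by norm_num
    rw [h4] at h2
    linarith

end Pool.Agent.H38LT
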