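import Pool.Agent.Lib.H38LT.U2
import Pool.Agent.Lib.H38LT.EE

set_option autoImplicit false

namespace Pool.Agent.H38LT

open Pool.Agent.H38LS NumberField IsDedekindDomain

universe u

variable {K : Type u} [Field K] [NumberField K] [DecidableEq K]

/-! Chunk V2 (M). The local lower bounds at a prime `p` of `S` (close positions), `R = 12 q P`,
`M = A.card`, `D = dmin log (Nm p)`.

Proof. `E` from `dmin_le`, `c = 1/(48 (1 + E))`, `Cp p = if G6 p then 0 else 2 Cf p + c E log (Nm p)`.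
The functions `l` as in `prime_bound` (H38LS/PP1). `1 < |j|`: `ix_nonarch_close`,
`L = log |j| ≤ D` (`log_j_le`), `L ≥ log (Nm p)` (`av_value`: `|j|` is a positive power of `Nm p`), so
`D ≤ (1 + E) L` and `L/48 ≥ c D`. `|j| ≤ 1`, `p ∤ 6`: if `dmin ≠ 0` every term is at least
`log (Nm p)/12` (`ker_gain`, `ker_value`; `card_IX`, `2 M² - M ≥ M²` as `M ≥ 1` or `M = 0`), and
`D ≤ E log (Nm p)`; if `dmin = 0` all terms are `≥ 0`. `|j| ≤ 1`, `p ∣ 6`: `l = - Cf p`,
`D ≤ E log (Nm p)`. -/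

omit [DecidableEq K] in
private theorem V2_d (p : HeightOneSpectrum (𝓞 K)) (W : WeierstrassCurve K) [W.IsElliptic] :
    ∃ d : ℝ, 0 < d ∧ d ^ 6 = av p W.Δ := by
  have h0 : 0 < av p W.Δ := (av p).pos W.isUnit_Δ.ne_zero
  refine ⟨av p W.Δ ^ ((1 : ℝ) / 6), Real.rpow_pos_of_pos h0 _, ?_⟩
  rw [← Real.rpow_natCast, ← Real.rpow_mul h0.le]
  norm_num

private theorem V2_nonneg {a d : ℝ} (hd : 0 < d) : 0 ≤ Real.log (max a d / d) / 2 := by
  have h1 : 1 ≤ max a d / d := by
    rw [le_div_iff₀ hd, one_mul]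
    exact le_max_right _ _
  have := Real.log_nonneg h1
  linarith

private theorem V2_good (hs : Specs.{u}) (W : WeierstrassCurve K) [W.IsElliptic]
    (p : HeightOneSpectrum (𝓞 K)) (hG : G6 p) (h : av p W.j ≤ 1) {d : ℝ} (hd : 0 < d)
    (hd6 : d ^ 6 = av p W.Δ) {Q : W.toAffine.Point} (hQ : Q ≠ 0) :
    LocLB (av p) W (xr Q) (Real.log (max (av p ((xr Q).1 + W.b₂ / 12)) d / d) / 2) := by
  have h1 := hs.B1 K (av p) (av_nonarch p) hG.1 hG.2 W W.isUnit_Δ.ne_zero
    (by simpa using c4_le h) d hd hd6 (xr Q).1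
  rw [← (xr_affine hQ).1] at h1
  exact h1

omit [DecidableEq K] in
/-- `log |j| ≥ log (Nm p)` if `|j| > 1`. -/
private theorem V2_log (p : HeightOneSpectrum (𝓞 K)) {W : WeierstrassCurve K} [W.IsElliptic]
    (h : 1 < av p W.j) : Real.log (Nm p) ≤ Real.log (av p W.j) := by
  have hN := one_lt_Nm p
  have hj : W.j ≠ 0 := by
    intro h0
    rw [h0, map_zero] at h
    linarith
  obtain ⟨k, hk⟩ := av_value p hj
  have hk1 : 1 ≤ k := by
    by_contra hcon
    have hk0 : k ≤ 0 := by omega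
    have h1 : Nm p ^ k ≤ 1 := zpow_le_one_of_nonpos₀ hN.le hk0
    rw [hk] at h
    linarith
  refine Real.log_le_log (by linarith) ?_
  rw [hk]
  calc Nm p = Nm p ^ (1 : ℤ) := (zpow_one _).symm
    _ ≤ Nm p ^ k := zpow_le_zpow_right₀ hN.le hk1

theorem prime_close (hs : Specs.{u}) {Cf : HeightOneSpectrum (𝓞 K) → ℝ} (hCf : CfOK Cf) :
    ∃ (c : ℝ) (Cp : HeightOneSpectrum (𝓞 K) → ℝ), 0 < c ∧ c ≤ 1 / 48 ∧ (∀ p, 0 ≤ Cp p) ∧
      (∀ p, G6 p → Cp p = 0) ∧
      ∀ (W : WeierstrassCurve K) [W.IsElliptic] (p : HeightOneSpectrum (𝓞 K))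
        (P : W.toAffine.Point) (q : ℕ) (A : Finset ℤ), (∀ a ∈ A, 0 < a) →
        (∀ n : ℤ, n ≠ 0 → n • ((12 * q : ℕ) • P) ≠ 0) →
        (1 < av p W.j → Close (av p) (Real.log (av p W.j)) ((12 * q : ℕ) • P) A) →
        ∃ l : ℤ → ℝ, (∀ n : ℤ, n ≠ 0 → LocLB (av p) W (xr (n • ((12 * q : ℕ) • P))) (l n)) ∧
          c * (A.card : ℝ) ^ 2 * ((dmin W p : ℝ) * Real.log (Nm p)) -
              (A.card : ℝ) * ((dmin W p : ℝ) * Real.log (Nm p)) / 12 - Cp p * (A.card : ℝ) ^ 2 ≤
            ∑ x ∈ IX A, l (vl x) := by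
  classical
  obtain ⟨E, hE1, hE⟩ := dmin_le (K := K)
  have hlN : ∀ p : HeightOneSpectrum (𝓞 K), 0 < Real.log (Nm p) := fun p => Real.log_pos (one_lt_Nm p)
  obtain ⟨c, hc⟩ : ∃ c : ℝ, c = 1 / (48 * (1 + E)) := ⟨_, rfl⟩
  have hE0 : 0 < 1 + E := by linarith
  have hcE : c * (1 + E) = 1 / 48 := by
    rw [hc]
    field_simp
  have hc0 : 0 < c := by
    rw [hc]
    positivity
  have hc48 : c ≤ 1 / 48 := by nlinarith
  have hcE' : c * E ≤ 1 / 48 := by nlinarith
  refine ⟨c, fun p => if G6 p then 0 else 2 * Cf p + c * E * Real.log (Nm p), hc0, hc48, fun p => ?_,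
    fun p hp => if_pos hp, ?_⟩
  · change (0 : ℝ) ≤ if G6 p then 0 else 2 * Cf p + c * E * Real.log (Nm p)
    split_ifs
    · exact le_rfl
    · have h1 := hCf.1 p
      have h2 := hlN p
      positivity
  intro W _ p P q A hA hP hcl
  have hN := hlN p
  have hMn : (0 : ℝ) ≤ (A.card : ℝ) := Nat.cast_nonneg _
  have hM2 : (A.card : ℝ) ≤ (A.card : ℝ) ^ 2 := by
    exact_mod_cast Nat.le_self_pow (by norm_num) A.card
  have hD := hE p W
  have hCf0 := hCf.1 p
  obtain ⟨D, hDd⟩ : ∃ D : ℝ, D = (dmin W p : ℝ) * Real.log (Nm p) := ⟨_, rfl⟩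
  have hD0 : 0 ≤ D := by
    rw [hDd]
    positivity
  rw [← hDd] at hD
  beta_reduce
  rw [← hDd]
  obtain ⟨M, hM⟩ : ∃ M : ℝ, M = (A.card : ℝ) := ⟨_, rfl⟩
  rw [← hM] at hMn hM2 ⊢
  have hcard := card_IX A
  rw [← hM] at hcard
  by_cases h : 1 < av p W.j
  · refine ⟨fun n => Gf (av p) (Real.log (av p W.j)) (nrm W (xr (n • ((12 * q : ℕ) • P)))),
      fun n hn => locLB_point hs (av_nonarch p) h rfl (hP n hn), ?_⟩
    have h1 := ix_nonarch_close hs.A2 (av_nonarch p) h rfl ((12 * q : ℕ) • P) A (hcl h)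
    rw [← hM] at h1
    refine le_trans ?_ h1
    have h2 := log_j_le (W := W) p h
    rw [← hDd] at h2
    have h3 := V2_log p h
    rw [max_eq_right h.le] at hD
    generalize Real.log (av p W.j) = L at h2 h3 hD
    have h4 : D ≤ (1 + E) * L := by nlinarith
    have h5 : c * D ≤ L / 48 := by
      calc c * D ≤ c * ((1 + E) * L) := mul_le_mul_of_nonneg_left h4 hc0.le
        _ = L / 48 := by rw [← mul_assoc, hcE]; ring
    have h6 : 0 ≤ (if G6 p then (0 : ℝ) else 2 * Cf p + c * E * Real.log (Nm p)) * M ^ 2 := by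
      split_ifs
      · simp
      · positivity
    have h7 : c * M ^ 2 * D ≤ M ^ 2 * (L / 48) := by
      calc c * M ^ 2 * D = M ^ 2 * (c * D) := by ring
        _ ≤ M ^ 2 * (L / 48) := mul_le_mul_of_nonneg_left h5 (by positivity)
    have h8 : M * (L / 12) ≤ M * D / 12 := by
      rw [← mul_div_assoc]
      gcongr
    linarith
  · have hj : av p W.j ≤ 1 := not_lt.mp h
    rw [max_eq_left hj, Real.log_one, zero_add] at hD
    have h5 : c * D ≤ Real.log (Nm p) / 48 := by
      calc c * D ≤ c * (E * Real.log (Nm p)) := mul_le_mul_of_nonneg_left hD hc0.le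
        _ = c * E * Real.log (Nm p) := by ring
        _ ≤ 1 / 48 * Real.log (Nm p) := mul_le_mul_of_nonneg_right hcE' hN.le
        _ = Real.log (Nm p) / 48 := by ring
    by_cases hG : G6 p
    · obtain ⟨d, hd, hd6⟩ := V2_d p W
      refine ⟨fun n => Real.log (max (av p ((xr (n • ((12 * q : ℕ) • P))).1 + W.b₂ / 12)) d / d) / 2,
        fun n hn => V2_good hs W p hG hj hd hd6 (hP n hn), ?_⟩
      rw [if_pos hG]
      by_cases hm : dmin W p = 0
      · have h1 : D = 0 := by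
          rw [hDd, hm, Nat.cast_zero, zero_mul]
        rw [h1]
        refine le_trans (le_of_eq ?_) (Finset.sum_nonneg fun x _ => V2_nonneg hd)
        ring
      · have h1 : ∑ _x ∈ IX A, Real.log (Nm p) / 12
            ≤ ∑ x ∈ IX A, Real.log (max (av p ((xr (vl x • ((12 * q : ℕ) • P))).1
              + W.b₂ / 12)) d / d) / 2 := by
          refine Finset.sum_le_sum fun x hx => ?_
          have hne : vl x ≠ 0 := vl_ne_zero hA hx
          refine ker_value p hd hd6 ?_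
          have h2 := ker_gain hs.B2 hs.B3 p hG.1 hG.2 hj hm hd hd6 q P (vl x)
          rw [(xr_affine (hP _ hne)).1] at h2
          exact h2
        rw [Finset.sum_const, nsmul_eq_mul, hcard] at h1
        refine le_trans ?_ h1
        have h7 : c * M ^ 2 * D ≤ M ^ 2 * (Real.log (Nm p) / 48) := by
          calc c * M ^ 2 * D = M ^ 2 * (c * D) := by ring
            _ ≤ M ^ 2 * (Real.log (Nm p) / 48) := mul_le_mul_of_nonneg_left h5 (by positivity)
        have h8 : M ^ 2 * (Real.log (Nm p) / 12) ≤ (2 * M ^ 2 - M) * (Real.log (Nm p) / 12) := by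
          apply mul_le_mul_of_nonneg_right _ (by positivity)
          linarith
        have h9 : 0 ≤ M * D / 12 := by positivity
        have h10 : M ^ 2 * (Real.log (Nm p) / 48) ≤ M ^ 2 * (Real.log (Nm p) / 12) := by
          apply mul_le_mul_of_nonneg_left _ (by positivity)
          linarith
        linarith
    · refine ⟨fun _ => -(Cf p), fun n hn => ?_, ?_⟩
      · have h1 := hCf.2.2 p hG W W.isUnit_Δ.ne_zero (c4_le hj) (xr (n • ((12 * q : ℕ) • P))).1
        rw [← (xr_affine (hP n hn)).1] at h1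
        exact h1
      · rw [if_neg hG, Finset.sum_const, nsmul_eq_mul, hcard]
        have h7 : c * M ^ 2 * D ≤ c * E * Real.log (Nm p) * M ^ 2 := by
          calc c * M ^ 2 * D = M ^ 2 * (c * D) := by ring
            _ ≤ M ^ 2 * (c * (E * Real.log (Nm p))) :=
              mul_le_mul_of_nonneg_left (mul_le_mul_of_nonneg_left hD hc0.le) (by positivity)
            _ = c * E * Real.log (Nm p) * M ^ 2 := by ring
        have h8 : 0 ≤ M * D / 12 := by positivity
        have h9 : 0 ≤ M * Cf p := by positivity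
        nlinarith

end Pool.Agent.H38LT
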