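import Pool.Agent.Lib.H38LT.U3

set_option autoImplicit false

namespace Pool.Agent.H38LT

open Pool.Agent.H38LS NumberField IsDedekindDomain

universe u

variable {K : Type u} [Field K] [NumberField K] [DecidableEq K]

/-! Chunk V3 (M). The infinite places, close positions, `M = A.card`. Model: `inf_bound` in
H38LS/PP2 and the proof of `large_inf` in H38LS/TL (with its private lemmas).

Proof. For each `w` take `C, t₀` from `Spec.D1` and from `ix_arch` (the smaller `t₀`). If
`c₄, c₆ ≠ 0` and `|t|_w ≤ t₀`: `l n = Gf w L (nrm W (xr (n R))) - C`, `L = - log |t|_w > 0`, and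
`|L - log (max 1 |j|_w)| ≤ log 1729` (`j - 1728 = 1/t`). Otherwise `|j|_w ≤ J = 1728 + 1/t₀` and
`l n = - C'` (`Spec.E1`, `c4_le`); `card_IX`. Only finitely many `w`: take the maximum (or the sum) of
the constants. -/

omit [NumberField K] [DecidableEq K] in
private theorem V3_c4 (W : WeierstrassCurve K) [W.IsElliptic] : W.c₄ ^ 3 = W.Δ * W.j := by
  rw [WeierstrassCurve.j, ← mul_assoc, ← W.coe_Δ', Units.mul_inv, one_mul]

omit [NumberField K] [DecidableEq K] in
private theorem V3_j (W : WeierstrassCurve K) [W.IsElliptic] :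
    W.j = (tt W)⁻¹ + 1728 := by
  have hD : W.Δ ≠ 0 := W.isUnit_Δ.ne_zero
  have h := V3_c4 W
  have hc := W.c_relation
  have e : W.Δ * W.j = W.Δ * ((tt W)⁻¹ + 1728) := by
    unfold tt
    rw [mul_add, inv_div, mul_div_cancel₀ _ hD]
    linear_combination -hc - h
  exact mul_left_cancel₀ hD e

omit [NumberField K] [DecidableEq K] in
private theorem V3_1728 (v : AbsoluteValue K ℝ) : v 1728 ≤ 1728 := by
  have h := v.apply_nat_le_self 1728
  simpa using h

private theorem V3_place (hs : Specs.{u}) (v : AbsoluteValue K ℝ) : ∃ C : ℝ, 0 ≤ C ∧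
    ∀ (W : WeierstrassCurve K) [W.IsElliptic] (R : W.toAffine.Point),
    (∀ n : ℤ, n ≠ 0 → n • R ≠ 0) → ∀ A : Finset ℤ,
    (W.c₄ ≠ 0 → W.c₆ ≠ 0 → 0 < -Real.log (v (tt W)) →
      Close v (-Real.log (v (tt W))) R A) →
    ∃ l : ℤ → ℝ, (∀ n : ℤ, n ≠ 0 → LocLB v W (xr (n • R)) (l n)) ∧
      (A.card : ℝ) ^ 2 * (Real.log (max 1 (v W.j)) / 48) -
          (A.card : ℝ) * (Real.log (max 1 (v W.j)) / 12) - C * (A.card : ℝ) ^ 2 ≤
        ∑ x ∈ IX A, l (vl x) := by
  obtain ⟨C1, t1, ht1, ht1', hD1⟩ := hs.D1 K v (by norm_num) (by norm_num)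
  obtain ⟨C2, t2, hC2, ht2, ht2', hS⟩ := ix_arch hs.D2 v
  have ht0 : 0 < min t1 t2 := lt_min ht1 ht2
  have hinv : 0 < 1 / min t1 t2 := by positivity
  obtain ⟨C3, hE⟩ := hs.E1 K v (by norm_num) (by norm_num) (1728 + 1 / min t1 t2)
  have hlog : 0 ≤ Real.log 1729 := Real.log_nonneg (by norm_num)
  have hlogJ : 0 ≤ Real.log (1728 + 1 / min t1 t2) := Real.log_nonneg (by linarith)
  refine ⟨2 * |C1| + C2 + Real.log 1729 + 2 * |C3| + Real.log (1728 + 1 / min t1 t2),
    by positivity, ?_⟩
  intro W _ R hR A hcl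
  have hM0 : (0 : ℝ) ≤ A.card := Nat.cast_nonneg _
  have hM2 : (A.card : ℝ) ≤ (A.card : ℝ) ^ 2 := by
    have : A.card ≤ A.card ^ 2 := Nat.le_self_pow (by norm_num) _
    exact_mod_cast this
  have hΔ : W.Δ ≠ 0 := W.isUnit_Δ.ne_zero
  have hcard := card_IX A
  have hmax : 0 ≤ Real.log (max 1 (v W.j)) := Real.log_nonneg (le_max_left _ _)
  have hcb : ∀ c : ℝ, (2 * (A.card : ℝ) ^ 2 - A.card) * c ≤ (A.card : ℝ) ^ 2 * (2 * |c|) := by
    intro c
    have h1 : (2 * (A.card : ℝ) ^ 2 - A.card) * c ≤ (2 * (A.card : ℝ) ^ 2 - A.card) * |c| :=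
      mul_le_mul_of_nonneg_left (le_abs_self _) (by nlinarith)
    have h2 := mul_nonneg hM0 (abs_nonneg c)
    nlinarith
  by_cases hA : W.c₄ ≠ 0 ∧ W.c₆ ≠ 0 ∧ v (tt W) ≤ min t1 t2
  · obtain ⟨h4, h6, ht⟩ := hA
    have htt : 0 < v (tt W) := v.pos (div_ne_zero hΔ (pow_ne_zero 2 h6))
    have htl : v (tt W) < 1 := (ht.trans (min_le_left _ _)).trans_lt ht1'
    have hLpos : 0 < -Real.log (v (tt W)) := by
      have := Real.log_neg htt htl
      linarith
    refine ⟨fun n => Gf v (-Real.log (v (tt W))) (nrm W (xr (n • R))) - C1, ?_, ?_⟩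
    · intro n hn
      have hQ := hR n hn
      refine locLB_nrm v h4 h6 hΔ (xr_ne_zero _) ?_
      have h := hD1 (tt W) htt (ht.trans (min_le_left _ _)) ((xr (n • R)).1 / cc W - rr W / cc W)
      have e : nrm W (xr (n • R)) = ((xr (n • R)).1 / cc W - rr W / cc W, 1) := by
        have h2 : (xr (n • R)).2 = 1 := by
          rw [(xr_affine hQ).1]
        unfold nrm
        rw [h2, mul_one, sub_div]
      have h' : LocLB v (Et (tt W)) (nrm W (xr (n • R)))
          (Gf v (-Real.log (v (tt W))) (nrm W (xr (n • R))) - C1) := by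
        rw [e]
        exact h
      exact h'
    · have h := hS W h4 h6 (ht.trans (min_le_right _ _)) _ rfl R A (hcl h4 h6 hLpos)
      have hL : -Real.log (v (tt W)) ≤ Real.log (max 1 (v W.j)) + Real.log 1729 := by
        rw [← Real.log_inv, ← Real.log_mul (by positivity) (by norm_num)]
        apply Real.log_le_log (inv_pos.2 htt)
        have e : (tt W)⁻¹ = W.j - 1728 := by rw [V3_j W]; ring
        rw [← map_inv₀, e]
        have h1 : v (W.j - 1728) ≤ v W.j + v 1728 := by
          rw [sub_eq_add_neg]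
          exact (v.add_le _ _).trans (by rw [v.map_neg])
        have h2 := V3_1728 v
        have h3 : v W.j ≤ max 1 (v W.j) := le_max_right _ _
        have h4 : (1 : ℝ) ≤ max 1 (v W.j) := le_max_left _ _
        linarith
      have hL' : Real.log (max 1 (v W.j)) ≤ -Real.log (v (tt W)) + Real.log 1729 := by
        rw [← Real.log_inv, ← Real.log_mul (inv_ne_zero htt.ne') (by norm_num)]
        apply Real.log_le_log (lt_of_lt_of_le one_pos (le_max_left _ _))
        have h1 : 1 ≤ (v (tt W))⁻¹ := (one_le_inv₀ htt).2 htl.le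
        apply max_le
        · linarith
        · rw [V3_j W]
          refine (v.add_le _ _).trans ?_
          rw [map_inv₀]
          have := V3_1728 v
          nlinarith
      rw [Finset.sum_sub_distrib, Finset.sum_const, nsmul_eq_mul, hcard]
      have h1 := hcb C1
      generalize Real.log (max 1 (v W.j)) = Lj at *
      generalize -Real.log (v (tt W)) = L at *
      have h5 : (A.card : ℝ) * (L / 12) ≤ A.card * ((Lj + Real.log 1729) / 12) :=
        mul_le_mul_of_nonneg_left (by linarith) hM0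
      have h6 : (A.card : ℝ) ^ 2 * ((Lj - Real.log 1729) / 48) ≤ (A.card : ℝ) ^ 2 * (L / 48) :=
        mul_le_mul_of_nonneg_left (by linarith) (by positivity)
      have h9 : (A.card : ℝ) * Real.log 1729 ≤ (A.card : ℝ) ^ 2 * Real.log 1729 :=
        mul_le_mul_of_nonneg_right hM2 hlog
      have h10 : 0 ≤ (A.card : ℝ) ^ 2 * Real.log 1729 := by positivity
      have h11 : 0 ≤ (A.card : ℝ) ^ 2 * (2 * |C3|) := by positivity
      have h12 : 0 ≤ (A.card : ℝ) ^ 2 * Real.log (1728 + 1 / min t1 t2) := by positivity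
      nlinarith
  · have hj : v W.j ≤ 1728 + 1 / min t1 t2 := by
      by_cases h4 : W.c₄ = 0
      · have : W.j = 0 := by
          have h := V3_c4 W
          rw [h4] at h
          have h' : W.Δ * W.j = 0 := by rw [← h]; ring
          exact (mul_eq_zero.1 h').resolve_left hΔ
        rw [this, map_zero]
        positivity
      · by_cases h6 : W.c₆ = 0
        · have : W.j = 1728 := by
            rw [V3_j W]
            unfold tt
            rw [h6]
            simp
          rw [this]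
          have := V3_1728 v
          linarith
        · have ht : min t1 t2 < v (tt W) := by
            by_contra hcon
            exact hA ⟨h4, h6, not_lt.1 hcon⟩
          rw [V3_j W]
          have h1 : v ((tt W)⁻¹ + 1728) ≤ v (tt W)⁻¹ + v 1728 := v.add_le _ _
          have h2 := V3_1728 v
          have h3 : v (tt W)⁻¹ ≤ 1 / min t1 t2 := by
            rw [map_inv₀, ← one_div]
            exact one_div_le_one_div_of_le ht0 ht.le
          linarith
    refine ⟨fun _ => -C3, ?_, ?_⟩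
    · intro n hn
      have h := hE W hΔ (c4_le hj) (xr (n • R)).1
      rw [← (xr_affine (hR n hn)).1] at h
      exact h
    · rw [Finset.sum_const, nsmul_eq_mul, hcard]
      have h1 := hcb C3
      have hlj : Real.log (max 1 (v W.j)) ≤ Real.log (1728 + 1 / min t1 t2) := by
        apply Real.log_le_log (lt_of_lt_of_le one_pos (le_max_left _ _))
        exact max_le (by linarith) hj
      generalize Real.log (max 1 (v W.j)) = Lj at *
      generalize Real.log (1728 + 1 / min t1 t2) = LJ at *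
      have h2 : 0 ≤ (A.card : ℝ) * (Lj / 12) := by positivity
      have h3 : 0 ≤ (A.card : ℝ) ^ 2 * (2 * |C1| + C2 + Real.log 1729) := by positivity
      have h4 : (A.card : ℝ) ^ 2 * (Lj / 48) ≤ (A.card : ℝ) ^ 2 * LJ :=
        mul_le_mul_of_nonneg_left (by linarith) (by positivity)
      nlinarith

theorem inf_close (hs : Specs.{u}) : ∃ C : ℝ, 0 ≤ C ∧ ∀ (w : InfinitePlace K)
    (W : WeierstrassCurve K) [W.IsElliptic] (R : W.toAffine.Point),
    (∀ n : ℤ, n ≠ 0 → n • R ≠ 0) → ∀ A : Finset ℤ, (∀ a ∈ A, 0 < a) →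
    (W.c₄ ≠ 0 → W.c₆ ≠ 0 → 0 < -Real.log (w.val (tt W)) →
      Close w.val (-Real.log (w.val (tt W))) R A) →
    ∃ l : ℤ → ℝ, (∀ n : ℤ, n ≠ 0 → LocLB w.val W (xr (n • R)) (l n)) ∧
      (A.card : ℝ) ^ 2 * (Real.log (max 1 (w W.j)) / 48) -
          (A.card : ℝ) * (Real.log (max 1 (w W.j)) / 12) - C * (A.card : ℝ) ^ 2 ≤
        ∑ x ∈ IX A, l (vl x) := by
  choose C hC h using fun w : InfinitePlace K => V3_place (K := K) hs w.val
  refine ⟨∑ w, C w, Finset.sum_nonneg fun w _ => hC w, ?_⟩
  intro w W _ R hR A _ hcl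
  obtain ⟨l, hl, hl2⟩ := h w W R hR A hcl
  refine ⟨l, hl, le_trans ?_ hl2⟩
  have h1 : C w ≤ ∑ w, C w := Finset.single_le_sum (fun w _ => hC w) (Finset.mem_univ w)
  have h2 := mul_le_mul_of_nonneg_right h1 (show (0 : ℝ) ≤ (A.card : ℝ) ^ 2 by positivity)
  have e : w W.j = w.val W.j := rfl
  rw [e]
  linarith

end Pool.Agent.H38LT
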