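import Pool.Agent.Lib.H38LT.V1
import Pool.Agent.Lib.H38LT.V2
import Pool.Agent.Lib.H38LT.V3
import Pool.Agent.Lib.H38LT.PH

set_option autoImplicit false

namespace Pool.Agent.H38LT

open Pool.Agent.H38LS NumberField Height IsDedekindDomain

universe u

variable {K : Type u} [Field K] [NumberField K] [DecidableEq K]

/-! Chunk OQ0 (M). The good index set: close positions at all infinite places and at all primes of
`S`.

Proof. `pigeon_box` with the index type of the pairs (infinite places `w` with `c₄, c₆ ≠ 0`,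
`L_w = - log |t|_w > 0`) and (primes `p ∈ S` with `1 < |j|_p`, `L_p = log |j|_p`), of cardinality at
most `#S + #(InfinitePlace K) ≤ r`; `f i n = aP _ L_i (n R) ∈ [0, L_i/2]` (`aP_mem`, `tt_value` for
`c₄, c₆ ≠ 0` at the primes). (E.g. a subtype of `InfinitePlace K ⊕ S`; or take all of the sum type
and put `f = 0`, `L = 1` at the irrelevant places.) -/

/-- At an irrelevant place the length is `1` and the function is `0`. -/
private theorem OQ_aux (v : AbsoluteValue K ℝ) (L : ℝ) (P : Prop) (W : WeierstrassCurve K)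
    [W.IsElliptic] (R : W.toAffine.Point) (h : P → 0 < L ∧ W.c₄ ≠ 0 ∧ W.c₆ ≠ 0) :
    ∃ (f : ℤ → ℝ) (L' : ℝ), 0 < L' ∧ (∀ n, 0 ≤ f n ∧ f n ≤ L' / 2) ∧
      (P → L' = L ∧ ∀ n : ℤ, f n = aP v L (n • R)) := by
  by_cases hP : P
  · obtain ⟨h1, h4, h6⟩ := h hP
    exact ⟨fun n => aP v L (n • R), L, h1, fun n => aP_mem v h1.le h4 h6 _,
      fun _ => ⟨rfl, fun _ => rfl⟩⟩
  · exact ⟨fun _ => 0, 1, one_pos, fun _ => ⟨le_refl _, by norm_num⟩, fun hP' => absurd hP' hP⟩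

theorem good_set (W : WeierstrassCurve K) [W.IsElliptic] (R : W.toAffine.Point)
    (S : Finset (HeightOneSpectrum (𝓞 K))) (r M : ℕ)
    (hr : S.card + Fintype.card (InfinitePlace K) ≤ r) :
    ∃ A : Finset ℤ, A.card = M ∧ (∀ a ∈ A, 0 < a ∧ a ≤ ((M * 50 ^ r : ℕ) : ℤ)) ∧
      (∀ p ∈ S, 1 < av p W.j → Close (av p) (Real.log (av p W.j)) R A) ∧
      ∀ w : InfinitePlace K, W.c₄ ≠ 0 → W.c₆ ≠ 0 → 0 < -Real.log (w.val (tt W)) →
        Close w.val (-Real.log (w.val (tt W))) R A := by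
  have hp : ∀ p : HeightOneSpectrum (𝓞 K), ∃ (f : ℤ → ℝ) (L' : ℝ), 0 < L' ∧
      (∀ n, 0 ≤ f n ∧ f n ≤ L' / 2) ∧
      (1 < av p W.j → L' = Real.log (av p W.j) ∧
        ∀ n : ℤ, f n = aP (av p) (Real.log (av p W.j)) (n • R)) := fun p =>
    OQ_aux (av p) (Real.log (av p W.j)) (1 < av p W.j) W R fun h => by
      have h1 := tt_value (av_nonarch p) h
      exact ⟨Real.log_pos h, h1.1, h1.2.1⟩
  have hw : ∀ w : InfinitePlace K, ∃ (f : ℤ → ℝ) (L' : ℝ), 0 < L' ∧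
      (∀ n, 0 ≤ f n ∧ f n ≤ L' / 2) ∧
      ((W.c₄ ≠ 0 ∧ W.c₆ ≠ 0 ∧ 0 < -Real.log (w.val (tt W))) → L' = -Real.log (w.val (tt W)) ∧
        ∀ n : ℤ, f n = aP w.val (-Real.log (w.val (tt W))) (n • R)) := fun w =>
    OQ_aux w.val (-Real.log (w.val (tt W)))
      (W.c₄ ≠ 0 ∧ W.c₆ ≠ 0 ∧ 0 < -Real.log (w.val (tt W))) W R fun h => ⟨h.2.2, h.1, h.2.1⟩
  choose fp Lp hp0 hp1 hp2 using hp
  choose fw Lw hw0 hw1 hw2 using hw
  have hcard : Fintype.card ({p // p ∈ S} ⊕ InfinitePlace K) ≤ r := by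
    rw [Fintype.card_sum, Fintype.card_coe]
    exact hr
  obtain ⟨A, hA, hA1, hA2⟩ := pigeon_box
    (ι := {p // p ∈ S} ⊕ InfinitePlace K)
    (fun i => Sum.elim (fun p => fp p.1) (fun w => fw w) i)
    (fun i => Sum.elim (fun p => Lp p.1) (fun w => Lw w) i)
    (fun i => by
      rcases i with p | w
      · exact hp0 p.1
      · exact hw0 w)
    (fun i n => by
      rcases i with p | w
      · exact hp1 p.1 n
      · exact hw1 w n) r M hcard
  refine ⟨A, hA, hA1, fun p hpS hj a ha b hb => ?_, fun w h4 h6 ht a ha b hb => ?_⟩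
  · have h1 := hA2 (Sum.inl ⟨p, hpS⟩) a ha b hb
    obtain ⟨h2, h3⟩ := hp2 p hj
    simp only [Sum.elim_inl] at h1
    rw [h3 a, h3 b, h2] at h1
    exact h1
  · have h1 := hA2 (Sum.inr w) a ha b hb
    obtain ⟨h2, h3⟩ := hw2 w ⟨h4, h6, ht⟩
    simp only [Sum.elim_inr] at h1
    rw [h3 a, h3 b, h2] at h1
    exact h1

end Pool.Agent.H38LT
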