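import Pool.Agent.Lib.H38LT.OQ

set_option autoImplicit false

namespace Pool.Agent.H38LT

open Pool.Agent.H38LS NumberField Height IsDedekindDomain

universe u

variable {K : Type u} [Field K] [NumberField K] [DecidableEq K]

/-! Chunk OQ1 (M). The inequality for one `q`, `M = 2 N + 1`. Model: `one_q` in H38LS/MI.

Proof. `R = 12 q P`, `A` from `good_set` with `r = J + #(InfinitePlace K)`. For every `x ∈ IX A`,
`n = vl x ≠ 0` (`vl_ne_zero`), `hhat_lower` with the finite set `S0` and the bounds of `prime_ix`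
(at `p ∈ S0 \ S`), `prime_close` (at `p ∈ S`), `inf_close` gives
`∑_w mult l_w n + ∑_(p ∈ S0) l_p n ≤ hhat (n R) = n² (12 q)² hhat P`. Sum over `IX A`, `IX_sq` with
`N' = M 50^r`, `N'² = M² 2500^r`. Constants: `c` of `prime_close`, `C = ∑_(p ∣ 6) Cp p + C_inf ∑ mult`
(`av_six_finite`; `∑_(p ∈ S) Cp p ≤ ∑_(p ∣ 6) Cp p`), `hinf/48 ≥ c hinf`. -/

open Classical in
theorem one_q2 (hs : Specs.{u}) {Cf : HeightOneSpectrum (𝓞 K) → ℝ} (hCf : CfOK Cf) (J : ℕ) :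
    ∃ c C : ℝ, 0 < c ∧ c ≤ 1 / 48 ∧ 0 ≤ C ∧ ∀ (W : WeierstrassCurve K) [W.IsElliptic]
      (P : W.toAffine.Point), (∀ n : ℤ, n ≠ 0 → n • P ≠ 0) →
      ∀ S S0 : Finset (HeightOneSpectrum (𝓞 K)), S ⊆ S0 → S.card ≤ J →
      (∀ p ∉ S0, IntegralAt (av p) W ∧ av p W.Δ = 1) → ∀ q N : ℕ, 1 ≤ q →
        c * (2 * N + 1) ^ 2 * ZS W S - (2 * N + 1) * ZS W S / 12 - C * (2 * N + 1) ^ 2 +
            ∑ p ∈ S0 \ S, Bp (fun p => 2 * Cf p) W p ((12 * q : ℕ) • P) N ≤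
          8 * 2500 ^ (J + Fintype.card (InfinitePlace K)) * (2 * N + 1) ^ 4 *
            (144 * (q : ℝ) ^ 2 * hhat P) := by
  obtain ⟨c, Cp, hc0, hc48, hCp0, hCpG, hclose⟩ := prime_close (K := K) hs hCf
  obtain ⟨Ci, hCi, hinfb⟩ := inf_close (K := K) hs
  have hfin := av_six_finite (K := K)
  obtain ⟨B6, hB6⟩ : ∃ B6 : Finset (HeightOneSpectrum (𝓞 K)), ∀ p, p ∈ B6 ↔ ¬ G6 p :=
    ⟨hfin.toFinset, fun p => by rw [Set.Finite.mem_toFinset]; exact Iff.rfl⟩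
  have hc6 : 0 ≤ ∑ p ∈ B6, Cp p := Finset.sum_nonneg fun p _ => hCp0 p
  refine ⟨c, ∑ p ∈ B6, Cp p + Ci * ∑ w : InfinitePlace K, (w.mult : ℝ), hc0, hc48, by positivity, ?_⟩
  intro W _ P hP S S0 hSS hSJ hS0 q N hq
  obtain ⟨R, hR⟩ : ∃ R : W.toAffine.Point, R = (12 * q : ℕ) • P := ⟨_, rfl⟩
  have hR0 : ∀ n : ℤ, n ≠ 0 → n • ((12 * q : ℕ) • P) ≠ 0 := by
    intro n hn
    rw [← natCast_zsmul, smul_smul]
    refine hP _ (mul_ne_zero hn ?_)
    have h1 : (12 * q : ℕ) ≠ 0 := by omega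
    exact_mod_cast h1
  obtain ⟨A, hAcard, hAr, hAS, hAw⟩ := good_set W ((12 * q : ℕ) • P) S
    (J + Fintype.card (InfinitePlace K)) (2 * N + 1) (by omega)
  have hA : ∀ a ∈ A, 0 < a := fun a ha => (hAr a ha).1
  obtain ⟨M, hM⟩ : ∃ M : ℝ, M = 2 * (N : ℝ) + 1 := ⟨_, rfl⟩
  have hcardM : (A.card : ℝ) = M := by
    rw [hAcard, hM]
    push_cast
    ring
  have hM0 : 0 ≤ M := by
    rw [hM]
    positivity
  -- the local bounds
  have hloc : ∀ p : HeightOneSpectrum (𝓞 K), ∃ l : ℤ → ℝ,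
      (∀ n : ℤ, n ≠ 0 → LocLB (av p) W (xr (n • ((12 * q : ℕ) • P))) (l n)) ∧
      (p ∈ S → c * M ^ 2 * ((dmin W p : ℝ) * Real.log (Nm p)) -
              M * ((dmin W p : ℝ) * Real.log (Nm p)) / 12 - Cp p * M ^ 2 ≤
            ∑ x ∈ IX A, l (vl x)) ∧
      (p ∉ S → Bp (fun p => 2 * Cf p) W p ((12 * q : ℕ) • P) N ≤ ∑ x ∈ IX A, l (vl x)) := by
    intro p
    by_cases hpS : p ∈ S
    · obtain ⟨l, h1, h2⟩ := hclose W p P q A hA hR0 (fun h => hAS p hpS h)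
      rw [hcardM] at h2
      exact ⟨l, h1, fun _ => h2, fun h => absurd hpS h⟩
    · obtain ⟨l, h1, h2⟩ := prime_ix hs hCf W p P q N A hA hAcard hR0
      exact ⟨l, h1, fun h => absurd h hpS, fun _ => h2⟩
  choose l hl hlS hlN using hloc
  choose m hm hmB using fun w : InfinitePlace K => hinfb w W ((12 * q : ℕ) • P) hR0 A hA (hAw w)
  have key : ∀ n : ℤ, n ≠ 0 → ∑ w : InfinitePlace K, (w.mult : ℝ) * m w n + ∑ p ∈ S0, l p n ≤
      (n : ℝ) ^ 2 * (144 * (q : ℝ) ^ 2 * hhat P) := by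
    intro n hn
    have h1 := hhat_lower (hR0 n hn) S0 hS0 (fun p => l p n) (fun p _ => hl p n hn)
      (fun w => m w n) (fun w => hm w n hn)
    have h2 : hhat (n • ((12 * q : ℕ) • P)) = (n : ℝ) ^ 2 * (144 * (q : ℝ) ^ 2 * hhat P) := by
      rw [hhat_zsmul, ← natCast_zsmul, hhat_zsmul]
      push_cast
      ring
    rw [h2] at h1
    exact h1
  have hsum : ∑ x ∈ IX A, (∑ w : InfinitePlace K, (w.mult : ℝ) * m w (vl x) + ∑ p ∈ S0, l p (vl x)) ≤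
      ∑ x ∈ IX A, ((vl x : ℤ) : ℝ) ^ 2 * (144 * (q : ℝ) ^ 2 * hhat P) :=
    Finset.sum_le_sum fun x hx => key _ (vl_ne_zero hA hx)
  rw [Finset.sum_add_distrib, Finset.sum_comm, Finset.sum_comm (t := S0), ← Finset.sum_mul] at hsum
  have hH : 0 ≤ 144 * (q : ℝ) ^ 2 * hhat P := by
    have := hhat_nonneg W P
    positivity
  -- the right side
  have hsq := IX_sq (A := A) (N := M * 50 ^ (J + Fintype.card (InfinitePlace K))) (fun a ha => by
    refine ⟨(hAr a ha).1, ?_⟩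
    have h1 : (a : ℝ) ≤ (((2 * N + 1) * 50 ^ (J + Fintype.card (InfinitePlace K)) : ℕ) : ℤ) := by
      exact_mod_cast (hAr a ha).2
    refine h1.trans (le_of_eq ?_)
    rw [hM]
    push_cast
    ring)
  rw [hcardM] at hsq
  have hpow : ((50 : ℝ) ^ (J + Fintype.card (InfinitePlace K))) ^ 2 =
      2500 ^ (J + Fintype.card (InfinitePlace K)) := by
    rw [← pow_mul, mul_comm, pow_mul]
    norm_num
  have hr : (∑ x ∈ IX A, ((vl x : ℤ) : ℝ) ^ 2) * (144 * (q : ℝ) ^ 2 * hhat P) ≤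
      8 * 2500 ^ (J + Fintype.card (InfinitePlace K)) * M ^ 4 * (144 * (q : ℝ) ^ 2 * hhat P) := by
    refine mul_le_mul_of_nonneg_right (hsq.trans (le_of_eq ?_)) hH
    rw [mul_pow, hpow]
    ring
  -- the primes
  have hsplit : ∑ p ∈ S0, ∑ x ∈ IX A, l p (vl x) = ∑ p ∈ S0 \ S, ∑ x ∈ IX A, l p (vl x) +
      ∑ p ∈ S, ∑ x ∈ IX A, l p (vl x) := (Finset.sum_sdiff hSS).symm
  have hl1 : ∑ p ∈ S0 \ S, Bp (fun p => 2 * Cf p) W p ((12 * q : ℕ) • P) N ≤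
      ∑ p ∈ S0 \ S, ∑ x ∈ IX A, l p (vl x) :=
    Finset.sum_le_sum fun p hp => hlN p (Finset.mem_sdiff.1 hp).2
  have hl2 : ∑ p ∈ S, (c * M ^ 2 * ((dmin W p : ℝ) * Real.log (Nm p)) -
      M * ((dmin W p : ℝ) * Real.log (Nm p)) / 12 - Cp p * M ^ 2) ≤
      ∑ p ∈ S, ∑ x ∈ IX A, l p (vl x) := Finset.sum_le_sum fun p hp => hlS p hp
  obtain ⟨D, hD⟩ : ∃ D : ℝ, D = ∑ p ∈ S, (dmin W p : ℝ) * Real.log (Nm p) := ⟨_, rfl⟩
  have hl3 : ∑ p ∈ S, (c * M ^ 2 * ((dmin W p : ℝ) * Real.log (Nm p)) -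
      M * ((dmin W p : ℝ) * Real.log (Nm p)) / 12 - Cp p * M ^ 2) =
      c * M ^ 2 * D - M * D / 12 - (∑ p ∈ S, Cp p) * M ^ 2 := by
    rw [Finset.sum_sub_distrib, Finset.sum_sub_distrib, hD, Finset.mul_sum, Finset.mul_sum, Finset.sum_div,
      Finset.sum_mul]
  have hCpS : ∑ p ∈ S, Cp p ≤ ∑ p ∈ B6, Cp p := by
    have h1 : ∑ p ∈ S, Cp p = ∑ p ∈ S.filter (fun p => p ∈ B6), Cp p := by
      rw [Finset.sum_filter]
      refine Finset.sum_congr rfl fun p _ => ?_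
      split_ifs with h
      · rfl
      · rw [hB6, not_not] at h
        exact hCpG p h
    rw [h1]
    refine Finset.sum_le_sum_of_subset_of_nonneg ?_ fun p _ _ => hCp0 p
    intro p hp
    exact (Finset.mem_filter.1 hp).2
  have hCpM := mul_le_mul_of_nonneg_right hCpS (show 0 ≤ M ^ 2 by positivity)
  -- the infinite places
  have hm2 : ∑ w : InfinitePlace K, (w.mult : ℝ) * (M ^ 2 * (Real.log (max 1 (w W.j)) / 48) -
      M * (Real.log (max 1 (w W.j)) / 12) - Ci * M ^ 2) ≤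
      ∑ w : InfinitePlace K, ∑ x ∈ IX A, (w.mult : ℝ) * m w (vl x) := by
    refine Finset.sum_le_sum fun w _ => ?_
    rw [← Finset.mul_sum]
    have h1 := hmB w
    rw [hcardM] at h1
    exact mul_le_mul_of_nonneg_left h1 (Nat.cast_nonneg _)
  have hm3 : ∑ w : InfinitePlace K, (w.mult : ℝ) * (M ^ 2 * (Real.log (max 1 (w W.j)) / 48) -
      M * (Real.log (max 1 (w W.j)) / 12) - Ci * M ^ 2) =
      M ^ 2 * (hinf W / 48) - M * (hinf W / 12) - Ci * (∑ w : InfinitePlace K, (w.mult : ℝ)) * M ^ 2 := by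
    unfold hinf
    rw [Finset.sum_div, Finset.sum_div, Finset.mul_sum, Finset.mul_sum, Finset.mul_sum, Finset.sum_mul,
      ← Finset.sum_sub_distrib, ← Finset.sum_sub_distrib]
    refine Finset.sum_congr rfl fun w _ => ?_
    ring
  have hinf0 := hinf_nonneg W
  have hZ : ZS W S = hinf W + D := by
    rw [hD]
    rfl
  have hci : c * M ^ 2 * hinf W ≤ M ^ 2 * (hinf W / 48) := by
    have h1 := mul_le_mul_of_nonneg_right hc48 (show 0 ≤ M ^ 2 * hinf W by positivity)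
    linarith
  rw [hm3] at hm2
  rw [hl3] at hl2
  rw [← hM, hZ]
  have hfinal : c * M ^ 2 * (hinf W + D) - M * (hinf W + D) / 12 -
      (∑ p ∈ B6, Cp p + Ci * ∑ w : InfinitePlace K, (w.mult : ℝ)) * M ^ 2 =
      (c * M ^ 2 * hinf W - M * (hinf W / 12) - Ci * (∑ w : InfinitePlace K, (w.mult : ℝ)) * M ^ 2) +
      (c * M ^ 2 * D - M * D / 12 - (∑ p ∈ B6, Cp p) * M ^ 2) := by ring
  rw [hfinal]
  linarith

end Pool.Agent.H38LT
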