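import Pool.Agent.Lib.H38LT.OQ

set_option autoImplicit false

namespace Pool.Agent.H38LT

open Pool.Agent.H38LS NumberField Height IsDedekindDomain

universe u

variable {K : Type u} [Field K] [NumberField K] [DecidableEq K]

/-! OQ3: `one_q2` with `r = #S + #(InfinitePlace K)`. -/

open Classical in
theorem one_q3 (hs : Specs.{u}) {Cf : HeightOneSpectrum (𝓞 K) → ℝ} (hCf : CfOK Cf) :
    ∃ c C : ℝ, 0 < c ∧ c ≤ 1 / 48 ∧ 0 ≤ C ∧ ∀ (W : WeierstrassCurve K) [W.IsElliptic]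
      (P : W.toAffine.Point), (∀ n : ℤ, n ≠ 0 → n • P ≠ 0) →
      ∀ S S0 : Finset (HeightOneSpectrum (𝓞 K)), S ⊆ S0 →
      (∀ p ∉ S0, IntegralAt (av p) W ∧ av p W.Δ = 1) → ∀ q N : ℕ, 1 ≤ q →
        c * (2 * N + 1) ^ 2 * ZS W S - (2 * N + 1) * ZS W S / 12 - C * (2 * N + 1) ^ 2 +
            ∑ p ∈ S0 \ S, Bp (fun p => 2 * Cf p) W p ((12 * q : ℕ) • P) N ≤
          8 * 2500 ^ (S.card + Fintype.card (InfinitePlace K)) * (2 * N + 1) ^ 4 *
            (144 * (q : ℝ) ^ 2 * hhat P) := by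
  obtain ⟨c, Cp, hc, hc48, hCp0, hCp6, hpc⟩ := prime_close (K := K) hs hCf
  obtain ⟨Ci, hCi, hinfb⟩ := inf_close (K := K) hs
  have hfin := av_six_finite (K := K)
  obtain ⟨B6, hB6⟩ : ∃ B6 : Finset (HeightOneSpectrum (𝓞 K)), ∀ p, p ∈ B6 ↔ ¬ G6 p :=
    ⟨hfin.toFinset, fun p => by rw [Set.Finite.mem_toFinset]; exact Iff.rfl⟩
  have hC6 : 0 ≤ ∑ p ∈ B6, Cp p := Finset.sum_nonneg fun p _ => hCp0 p
  refine ⟨c, ∑ p ∈ B6, Cp p + Ci * ∑ w : InfinitePlace K, (w.mult : ℝ), hc, hc48,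
    by positivity, ?_⟩
  intro W _ P hP S S0 hSS hS q N hq
  have hR0 : ∀ n : ℤ, n ≠ 0 → n • ((12 * q : ℕ) • P) ≠ 0 := by
    intro n hn
    rw [← natCast_zsmul, smul_smul]
    refine hP _ (mul_ne_zero hn ?_)
    have h1 : (12 * q : ℕ) ≠ 0 := by omega
    exact_mod_cast h1
  obtain ⟨r, hr⟩ : ∃ r : ℕ, r = S.card + Fintype.card (InfinitePlace K) := ⟨_, rfl⟩
  obtain ⟨A, hAc, hA, hAp, hAw⟩ := good_set W ((12 * q : ℕ) • P) S r (2 * N + 1) hr.ge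
  have hApos : ∀ a ∈ A, 0 < a := fun a ha => (hA a ha).1
  have hM : (A.card : ℝ) = 2 * N + 1 := by
    rw [hAc]
    push_cast
    ring
  choose m hm hmB using fun w : InfinitePlace K =>
    hinfb w W ((12 * q : ℕ) • P) hR0 A hApos (hAw w)
  have hex : ∀ p : HeightOneSpectrum (𝓞 K), ∃ l : ℤ → ℝ,
      (∀ n : ℤ, n ≠ 0 → LocLB (av p) W (xr (n • ((12 * q : ℕ) • P))) (l n)) ∧
      (if p ∈ S then c * (2 * N + 1) ^ 2 * ((dmin W p : ℝ) * Real.log (Nm p)) -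
              (2 * N + 1) * ((dmin W p : ℝ) * Real.log (Nm p)) / 12 - Cp p * (2 * N + 1) ^ 2
        else Bp (fun p => 2 * Cf p) W p ((12 * q : ℕ) • P) N) ≤ ∑ x ∈ IX A, l (vl x) := by
    intro p
    by_cases hp : p ∈ S
    · obtain ⟨l, h1, h2⟩ := hpc W p P q A hApos hR0 (hAp p hp)
      refine ⟨l, h1, ?_⟩
      rw [if_pos hp, ← hM]
      exact h2
    · obtain ⟨l, h1, h2⟩ := prime_ix hs hCf W p P q N A hApos hAc hR0
      refine ⟨l, h1, ?_⟩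
      rw [if_neg hp]
      exact h2
  choose l hl hlB using hex
  have key : ∀ n : ℤ, n ≠ 0 → ∑ w : InfinitePlace K, (w.mult : ℝ) * m w n + ∑ p ∈ S0, l p n ≤
      (n : ℝ) ^ 2 * (144 * (q : ℝ) ^ 2 * hhat P) := by
    intro n hn
    have h1 := hhat_lower (hR0 n hn) S0 hS (fun p => l p n) (fun p _ => hl p n hn)
      (fun w => m w n) (fun w => hm w n hn)
    have h2 : hhat (n • ((12 * q : ℕ) • P)) = (n : ℝ) ^ 2 * (144 * (q : ℝ) ^ 2 * hhat P) := by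
      rw [hhat_zsmul, ← natCast_zsmul, hhat_zsmul]
      push_cast
      ring
    rw [h2] at h1
    exact h1
  have hsum : ∑ x ∈ IX A, (∑ w : InfinitePlace K, (w.mult : ℝ) * m w (vl x) +
      ∑ p ∈ S0, l p (vl x)) ≤
      ∑ x ∈ IX A, ((vl x : ℤ) : ℝ) ^ 2 * (144 * (q : ℝ) ^ 2 * hhat P) :=
    Finset.sum_le_sum fun x hx => key _ (vl_ne_zero hApos hx)
  rw [Finset.sum_add_distrib, Finset.sum_comm, Finset.sum_comm (t := S0), ← Finset.sum_mul] at hsum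
  have hH : 0 ≤ 144 * (q : ℝ) ^ 2 * hhat P := by
    have := hhat_nonneg W P
    positivity
  have hN' : ∀ a ∈ A, 0 < a ∧ (a : ℝ) ≤ (2 * N + 1) * 50 ^ r := by
    intro a ha
    refine ⟨(hA a ha).1, ?_⟩
    have h1 := (hA a ha).2
    have h2 : (a : ℝ) ≤ (((2 * N + 1) * 50 ^ r : ℕ) : ℝ) := by exact_mod_cast h1
    push_cast at h2
    exact h2
  have hsq := IX_sq hN'
  rw [hM] at hsq
  have hsq2 : ∑ x ∈ IX A, ((vl x : ℤ) : ℝ) ^ 2 ≤ 8 * 2500 ^ r * (2 * N + 1) ^ 4 := by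
    refine hsq.trans (le_of_eq ?_)
    have e : (2500 : ℝ) ^ r = (50 ^ r) ^ 2 := by
      rw [← pow_mul, mul_comm r 2, pow_mul]
      norm_num
    rw [e]
    ring
  have hr2 : (∑ x ∈ IX A, ((vl x : ℤ) : ℝ) ^ 2) * (144 * (q : ℝ) ^ 2 * hhat P) ≤
      8 * 2500 ^ r * (2 * N + 1) ^ 4 * (144 * (q : ℝ) ^ 2 * hhat P) :=
    mul_le_mul_of_nonneg_right hsq2 hH
  have hl2 : ∑ p ∈ S0, (if p ∈ S then c * (2 * N + 1) ^ 2 * ((dmin W p : ℝ) * Real.log (Nm p)) -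
              (2 * N + 1) * ((dmin W p : ℝ) * Real.log (Nm p)) / 12 - Cp p * (2 * N + 1) ^ 2
        else Bp (fun p => 2 * Cf p) W p ((12 * q : ℕ) • P) N) ≤
      ∑ p ∈ S0, ∑ x ∈ IX A, l p (vl x) :=
    Finset.sum_le_sum fun p _ => hlB p
  have hl3 : ∑ p ∈ S0, (if p ∈ S then c * (2 * N + 1) ^ 2 * ((dmin W p : ℝ) * Real.log (Nm p)) -
              (2 * N + 1) * ((dmin W p : ℝ) * Real.log (Nm p)) / 12 - Cp p * (2 * N + 1) ^ 2
        else Bp (fun p => 2 * Cf p) W p ((12 * q : ℕ) • P) N) =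
      (c * (2 * N + 1) ^ 2 * ∑ p ∈ S, (dmin W p : ℝ) * Real.log (Nm p)) -
        (2 * N + 1) * (∑ p ∈ S, (dmin W p : ℝ) * Real.log (Nm p)) / 12 -
        (∑ p ∈ S, Cp p) * (2 * N + 1) ^ 2 +
      ∑ p ∈ S0 \ S, Bp (fun p => 2 * Cf p) W p ((12 * q : ℕ) • P) N := by
    rw [← Finset.sum_sdiff hSS, add_comm]
    congr 1
    · rw [Finset.sum_congr rfl fun p (hp : p ∈ S) => if_pos hp, Finset.sum_sub_distrib,
        Finset.sum_sub_distrib, ← Finset.mul_sum, ← Finset.sum_div, ← Finset.mul_sum,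
        ← Finset.sum_mul]
    · exact Finset.sum_congr rfl fun p hp => if_neg (Finset.mem_sdiff.1 hp).2
  have hCpS : ∑ p ∈ S, Cp p ≤ ∑ p ∈ B6, Cp p := by
    have h6 : ∑ p ∈ S, Cp p = ∑ p ∈ S ∩ B6, Cp p := by
      refine (Finset.sum_subset Finset.inter_subset_left fun p hp hp' => ?_).symm
      refine hCp6 p ?_
      by_contra h
      exact hp' (Finset.mem_inter.2 ⟨hp, (hB6 p).2 h⟩)
    rw [h6]
    exact Finset.sum_le_sum_of_subset_of_nonneg Finset.inter_subset_right fun p _ _ => hCp0 p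
  have hCpS' := mul_le_mul_of_nonneg_right hCpS (show (0 : ℝ) ≤ (2 * N + 1) ^ 2 by positivity)
  have hm2 : ∑ w : InfinitePlace K, (w.mult : ℝ) * ((2 * N + 1) ^ 2 *
      (Real.log (max 1 (w W.j)) / 48) - (2 * N + 1) * (Real.log (max 1 (w W.j)) / 12) -
        Ci * (2 * N + 1) ^ 2) ≤
      ∑ w : InfinitePlace K, ∑ x ∈ IX A, (w.mult : ℝ) * m w (vl x) := by
    refine Finset.sum_le_sum fun w _ => ?_
    rw [← Finset.mul_sum]
    refine mul_le_mul_of_nonneg_left ?_ (Nat.cast_nonneg _)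
    have h1 := hmB w
    rw [hM] at h1
    exact h1
  have hm3 : ∑ w : InfinitePlace K, (w.mult : ℝ) * ((2 * N + 1) ^ 2 *
      (Real.log (max 1 (w W.j)) / 48) - (2 * N + 1) * (Real.log (max 1 (w W.j)) / 12) -
        Ci * (2 * N + 1) ^ 2) =
      (2 * N + 1) ^ 2 * (hinf W / 48) - (2 * N + 1) * (hinf W / 12) -
        Ci * (∑ w : InfinitePlace K, (w.mult : ℝ)) * (2 * N + 1) ^ 2 := by
    unfold hinf
    rw [Finset.sum_div, Finset.sum_div, Finset.mul_sum, Finset.mul_sum, Finset.mul_sum,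
      Finset.sum_mul, ← Finset.sum_sub_distrib, ← Finset.sum_sub_distrib]
    refine Finset.sum_congr rfl fun w _ => ?_
    ring
  rw [hm3] at hm2
  rw [hl3] at hl2
  have hinf0 := hinf_nonneg W
  have hci : c * (2 * N + 1) ^ 2 * hinf W ≤ (2 * (N : ℝ) + 1) ^ 2 * (hinf W / 48) := by
    have h1 : c * hinf W ≤ 1 / 48 * hinf W := mul_le_mul_of_nonneg_right hc48 hinf0
    have h2 := mul_le_mul_of_nonneg_left h1 (show (0 : ℝ) ≤ (2 * N + 1) ^ 2 by positivity)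
    linarith
  rw [← hr]
  unfold ZS
  linarith

end Pool.Agent.H38LT
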