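import Pool.Agent.Lib.H38LT.Defs

set_option autoImplicit false

namespace Pool.Agent.H38LT

open Pool.Agent.H38LS

/-! Chunk U1 (S/M). The index set. -/

/-- `Finset.sum_disjSum`. -/
theorem sum_IX {β : Type*} [AddCommMonoid β] (A : Finset ℤ) (f : ℤ → β) :
    ∑ x ∈ IX A, f (vl x) = ∑ x ∈ A.offDiag, f (x.1 - x.2) + ∑ x ∈ A ×ˢ A, f (x.1 + x.2) := by
  unfold IX
  rw [Finset.sum_disjSum]
  rfl

/-- `M² - M` differences and `M²` sums. -/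
theorem card_IX (A : Finset ℤ) : ((IX A).card : ℝ) = 2 * (A.card : ℝ) ^ 2 - A.card := by
  unfold IX
  rw [Finset.card_disjSum, Finset.offDiag_card, Finset.card_product, Nat.cast_add,
    Nat.cast_sub (Nat.le_mul_self _)]
  push_cast
  ring

theorem vl_ne_zero {A : Finset ℤ} (hA : ∀ a ∈ A, 0 < a) {x : (ℤ × ℤ) ⊕ (ℤ × ℤ)}
    (hx : x ∈ IX A) : vl x ≠ 0 := by
  unfold IX at hx
  rw [Finset.mem_disjSum] at hx
  rcases hx with ⟨y, hy, rfl⟩ | ⟨y, hy, rfl⟩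
  · show y.1 - y.2 ≠ 0
    exact sub_ne_zero.2 (Finset.mem_offDiag.1 hy).2.2
  · show y.1 + y.2 ≠ 0
    have h1 := hA _ (Finset.mem_product.1 hy).1
    have h2 := hA _ (Finset.mem_product.1 hy).2
    omega

/-- `|i ± j| ≤ 2 N`, at most `2 M²` terms. -/
theorem IX_sq {A : Finset ℤ} {N : ℝ} (hA : ∀ a ∈ A, 0 < a ∧ (a : ℝ) ≤ N) :
    ∑ x ∈ IX A, ((vl x : ℤ) : ℝ) ^ 2 ≤ 8 * (A.card : ℝ) ^ 2 * N ^ 2 := by
  have h1 : ∀ x ∈ IX A, ((vl x : ℤ) : ℝ) ^ 2 ≤ 4 * N ^ 2 := by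
    intro x hx
    unfold IX at hx
    rw [Finset.mem_disjSum] at hx
    have key : ∀ i ∈ A, ∀ j ∈ A, ∀ z : ℝ, |z| ≤ (i : ℝ) + j → z ^ 2 ≤ 4 * N ^ 2 := by
      intro i hi j hj z hz
      have h2 : |z| ≤ 2 * N := by linarith [(hA i hi).2, (hA j hj).2]
      have h3 := pow_le_pow_left₀ (abs_nonneg z) h2 2
      rw [sq_abs] at h3
      linarith
    rcases hx with ⟨y, hy, rfl⟩ | ⟨y, hy, rfl⟩
    · have h2 := Finset.mem_offDiag.1 hy
      refine key y.1 h2.1 y.2 h2.2.1 _ ?_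
      have p1 : (0 : ℝ) < (y.1 : ℝ) := by exact_mod_cast (hA _ h2.1).1
      have p2 : (0 : ℝ) < (y.2 : ℝ) := by exact_mod_cast (hA _ h2.2.1).1
      show |((y.1 - y.2 : ℤ) : ℝ)| ≤ _
      push_cast
      rw [abs_le]
      constructor <;> linarith
    · have h2 := Finset.mem_product.1 hy
      refine key y.1 h2.1 y.2 h2.2 _ ?_
      have p1 : (0 : ℝ) < (y.1 : ℝ) := by exact_mod_cast (hA _ h2.1).1
      have p2 : (0 : ℝ) < (y.2 : ℝ) := by exact_mod_cast (hA _ h2.2).1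
      show |((y.1 + y.2 : ℤ) : ℝ)| ≤ _
      push_cast
      rw [abs_of_pos (by linarith)]
  have h2 := Finset.sum_le_card_nsmul (IX A) _ _ h1
  rw [nsmul_eq_mul, card_IX] at h2
  refine h2.trans ?_
  have h3 : (0 : ℝ) ≤ A.card := Nat.cast_nonneg _
  have h4 : (0 : ℝ) ≤ 4 * N ^ 2 := by positivity
  have h5 : 0 ≤ (A.card : ℝ) * (4 * N ^ 2) := mul_nonneg h3 h4
  linarith

/-- The full double sum of `G (iR + jR) + G (iR - jR)` is the sum over `IX A` plus `M G 0` (the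
differences with `i = j`); `sum_IX`, `Finset.diag_union_offDiag`. -/
theorem sum_sym2 {Γ : Type*} [AddCommGroup Γ] (R : Γ) (G : Γ → ℝ) (A : Finset ℤ)
    (κ : ℤ → ℤ → ℝ) (k0 c : ℝ) (hκ : k0 ≤ ∑ i ∈ A, ∑ j ∈ A, κ i j)
    (hG : ∀ i ∈ A, ∀ j ∈ A, κ i j - c ≤ G (i • R + j • R) + G (i • R - j • R)) :
    k0 - c * (A.card : ℝ) ^ 2 - A.card * G 0 ≤ ∑ x ∈ IX A, G (vl x • R) := by
  have h1 : ∑ i ∈ A, ∑ j ∈ A, (κ i j - c) ≤
      ∑ i ∈ A, ∑ j ∈ A, (G (i • R + j • R) + G (i • R - j • R)) :=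
    Finset.sum_le_sum fun i hi => Finset.sum_le_sum fun j hj => hG i hi j hj
  have h2 : ∑ i ∈ A, ∑ j ∈ A, (κ i j - c) =
      (∑ i ∈ A, ∑ j ∈ A, κ i j) - c * (A.card : ℝ) ^ 2 := by
    simp only [Finset.sum_sub_distrib, Finset.sum_const, nsmul_eq_mul]
    ring
  have h3 : ∑ i ∈ A, ∑ j ∈ A, (G (i • R + j • R) + G (i • R - j • R)) =
      ∑ x ∈ A ×ˢ A, G ((x.1 + x.2) • R) + ∑ x ∈ A ×ˢ A, G ((x.1 - x.2) • R) := by
    rw [← Finset.sum_add_distrib, Finset.sum_product]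
    refine Finset.sum_congr rfl fun i _ => Finset.sum_congr rfl fun j _ => ?_
    rw [add_smul, sub_smul]
  have h4 : ∑ x ∈ A ×ˢ A, G ((x.1 - x.2) • R) =
      A.card * G 0 + ∑ x ∈ A.offDiag, G ((x.1 - x.2) • R) := by
    rw [← Finset.diag_union_offDiag, Finset.sum_union (Finset.disjoint_diag_offDiag _),
      Finset.sum_diag]
    simp only [sub_self, zero_smul, Finset.sum_const, nsmul_eq_mul]
  have h5 := sum_IX A (fun n => G (n • R))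
  rw [h2, h3, h4] at h1
  rw [h5]
  linarith

end Pool.Agent.H38LT
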