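import Pool.Agent.Lib.H38LT.U1
import Pool.Agent.Lib.H38LT.K2

set_option autoImplicit false

namespace Pool.Agent.H38LT

open Pool.Agent.H38LS

universe u

variable {K : Type u} [Field K] [NumberField K] [DecidableEq K] {W : WeierstrassCurve K}
  [W.IsElliptic]

/-! Chunk U2 (M). Nonarchimedean places with `|j| > 1`. Models: `sum_nonarch`, `sum_nonarch_zero` in
H38LS/S4. `ix_nonarch`: `sum_sym2` with `k0 = 0`, `c = 0`, `κ i j` the kernel of K1 for
`a i = aP (i R)` (`kernel_pos` for the finite set `A`), `aP_multiset`. `ix_nonarch_close`: the same with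
`k0 = M² L/48` by `kernel_close`. `ix_nonarch_zero`: all terms are `L/12` (`aP_zsmul_zero`),
`card_IX`. -/

private theorem U2_zero {v : AbsoluteValue K ℝ} (hv : IsNonarchimedean v)
    (h : 1 < v W.j) (L : ℝ) : Gf v L (nrm W (xr (0 : W.toAffine.Point))) = L / 12 := by
  obtain ⟨h4, h6, _, _⟩ := tt_value (W := W) hv h
  have e := aP_zero (W := W) v L h4 h6
  unfold aP at e
  unfold Gf
  rw [e]
  unfold hh
  ring

private theorem U2_pair (hA2 : Spec.A2.{u}) {v : AbsoluteValue K ℝ} (hv : IsNonarchimedean v)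
    (h : 1 < v W.j) {L : ℝ} (hL : L = Real.log (v W.j)) (P Q : W.toAffine.Point) :
    L / 6 - hh L |aP v L P - aP v L Q| / 2 - hh L (fold L (aP v L P + aP v L Q)) / 2 - 0 ≤
      Gf v L (nrm W (xr (P + Q))) + Gf v L (nrm W (xr (P - Q))) := by
  have e1 : ∀ P : W.toAffine.Point, Gf v L (nrm W (xr P)) = L / 12 - hh L (aP v L P) / 2 :=
    fun P => rfl
  rw [e1, e1]
  rcases aP_multiset hA2 hv h hL P Q with ⟨a1, a2⟩ | ⟨a1, a2⟩
  · rw [a1, a2]
    linarith
  · rw [a1, a2]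
    linarith

theorem ix_nonarch (hA2 : Spec.A2.{u}) {v : AbsoluteValue K ℝ} (hv : IsNonarchimedean v)
    (h : 1 < v W.j) {L : ℝ} (hL : L = Real.log (v W.j)) (R : W.toAffine.Point) (A : Finset ℤ) :
    -(A.card : ℝ) * (L / 12) ≤ ∑ x ∈ IX A, Gf v L (nrm W (xr (vl x • R))) := by
  obtain ⟨h4, h6, _, _⟩ := tt_value (W := W) hv h
  have hL0 : 0 < L := by
    rw [hL]
    exact Real.log_pos h
  have key := sum_sym2 R (fun P => Gf v L (nrm W (xr P))) A
    (fun i j => L / 6 - hh L |aP v L (i • R) - aP v L (j • R)| / 2 -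
      hh L (fold L (aP v L (i • R) + aP v L (j • R))) / 2) 0 0
    (kernel_pos A hL0 (fun i => aP v L (i • R))
      (fun i _ => aP_mem v hL0.le h4 h6 (i • R)))
    (fun i _ j _ => U2_pair hA2 hv h hL (i • R) (j • R))
  simp only [U2_zero hv h L] at key
  linarith

theorem ix_nonarch_zero (hA2 : Spec.A2.{u}) {v : AbsoluteValue K ℝ} (hv : IsNonarchimedean v)
    (h : 1 < v W.j) {L : ℝ} (hL : L = Real.log (v W.j)) {R : W.toAffine.Point}
    (hR : aP v L R = 0) (A : Finset ℤ) :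
    ∑ x ∈ IX A, Gf v L (nrm W (xr (vl x • R))) =
      (2 * (A.card : ℝ) ^ 2 - A.card) * (L / 12) := by
  obtain ⟨h4, h6, _, _⟩ := tt_value (W := W) hv h
  have h1 : ∀ x ∈ IX A, Gf v L (nrm W (xr (vl x • R))) = L / 12 := by
    intro x _
    have e := aP_zsmul_zero hA2 hv h hL hR (vl x)
    unfold aP at e
    unfold Gf
    rw [e]
    unfold hh
    ring
  rw [Finset.sum_congr rfl h1, Finset.sum_const, nsmul_eq_mul, card_IX]

theorem ix_nonarch_close (hA2 : Spec.A2.{u}) {v : AbsoluteValue K ℝ} (hv : IsNonarchimedean v)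
    (h : 1 < v W.j) {L : ℝ} (hL : L = Real.log (v W.j)) (R : W.toAffine.Point) (A : Finset ℤ)
    (hcl : Close v L R A) :
    (A.card : ℝ) ^ 2 * (L / 48) - (A.card : ℝ) * (L / 12) ≤
      ∑ x ∈ IX A, Gf v L (nrm W (xr (vl x • R))) := by
  obtain ⟨h4, h6, _, _⟩ := tt_value (W := W) hv h
  have hL0 : 0 < L := by
    rw [hL]
    exact Real.log_pos h
  have hk : (A.card : ℝ) ^ 2 * (L / 48) ≤ ∑ i ∈ A, ∑ j ∈ A,
      (L / 6 - hh L |aP v L (i • R) - aP v L (j • R)| / 2 -
        hh L (fold L (aP v L (i • R) + aP v L (j • R))) / 2) := by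
    have h1 : (A.card : ℝ) ^ 2 * (L / 48) = ∑ _i ∈ A, ∑ _j ∈ A, L / 48 := by
      simp only [Finset.sum_const, nsmul_eq_mul]
      ring
    rw [h1]
    refine Finset.sum_le_sum fun i hi => Finset.sum_le_sum fun j hj => ?_
    have hi1 := aP_mem v hL0.le h4 h6 (i • R)
    have hj1 := aP_mem v hL0.le h4 h6 (j • R)
    exact kernel_close hL0 hi1.1 hi1.2 hj1.1 hj1.2 (hcl i hi j hj)
  have key := sum_sym2 R (fun P => Gf v L (nrm W (xr P))) A
    (fun i j => L / 6 - hh L |aP v L (i • R) - aP v L (j • R)| / 2 -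
      hh L (fold L (aP v L (i • R) + aP v L (j • R))) / 2) ((A.card : ℝ) ^ 2 * (L / 48)) 0
    hk (fun i _ j _ => U2_pair hA2 hv h hL (i • R) (j • R))
  simp only [U2_zero hv h L] at key
  linarith

end Pool.Agent.H38LT
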