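import Pool.Agent.Lib.H38LT.U1
import Pool.Agent.Lib.H38LT.K2

set_option autoImplicit false

namespace Pool.Agent.H38LT

open Pool.Agent.H38LS

universe u

variable {K : Type u} [Field K] [NumberField K] [DecidableEq K]

/-! Chunk U3 (M). Any absolute value with `|t|` small, close positions. Model: `sum_arch` in
H38LS/S9 (`coarse_points`, `majorize`), with `sum_sym2` (`k0 = M² L/48` by `kernel_close`) instead of
`sum_sym`. -/

theorem ix_arch (hD2 : Spec.D2.{u}) (v : AbsoluteValue K ℝ) :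
    ∃ C t₀ : ℝ, 0 < C ∧ 0 < t₀ ∧ t₀ < 1 ∧ ∀ (W : WeierstrassCurve K) [W.IsElliptic],
      W.c₄ ≠ 0 → W.c₆ ≠ 0 → v (tt W) ≤ t₀ → ∀ L : ℝ, L = -Real.log (v (tt W)) →
      ∀ (R : W.toAffine.Point) (A : Finset ℤ), Close v L R A →
        (A.card : ℝ) ^ 2 * (L / 48) - (A.card : ℝ) * (L / 12) - C * (A.card : ℝ) ^ 2 ≤
          ∑ x ∈ IX A, Gf v L (nrm W (xr (vl x • R))) := by
  obtain ⟨C, t₀, hC, ht0, ht1, h⟩ := coarse_points hD2 v
  refine ⟨C, t₀, hC, ht0, ht1, ?_⟩
  intro W _ h4 h6 hv L hL R A hcl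
  have hΔ : W.Δ ≠ 0 := W.isUnit_Δ.ne_zero
  have htt : tt W ≠ 0 := div_ne_zero hΔ (pow_ne_zero 2 h6)
  have hLpos : 0 < L := by
    rw [hL]
    have := Real.log_neg (v.pos htt) (lt_of_le_of_lt hv ht1)
    linarith
  have hmem : ∀ P : W.toAffine.Point, 0 ≤ aP v L P ∧ aP v L P ≤ L / 2 :=
    fun P => aP_mem v hLpos.le h4 h6 P
  have hκ : (A.card : ℝ) ^ 2 * (L / 48) ≤ ∑ i ∈ A, ∑ j ∈ A,
      (L / 6 - hh L |aP v L (i • R) - aP v L (j • R)| / 2 -
        hh L (fold L (aP v L (i • R) + aP v L (j • R))) / 2) := by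
    have h1 : ∑ i ∈ A, ∑ j ∈ A, (L / 48) ≤ ∑ i ∈ A, ∑ j ∈ A,
      (L / 6 - hh L |aP v L (i • R) - aP v L (j • R)| / 2 -
        hh L (fold L (aP v L (i • R) + aP v L (j • R))) / 2) :=
      Finset.sum_le_sum fun i hi => Finset.sum_le_sum fun j hj =>
        kernel_close hLpos (hmem (i • R)).1 (hmem (i • R)).2 (hmem (j • R)).1 (hmem (j • R)).2
          (hcl i hi j hj)
    simp only [Finset.sum_const, nsmul_eq_mul] at h1
    calc (A.card : ℝ) ^ 2 * (L / 48) = (A.card : ℝ) * ((A.card : ℝ) * (L / 48)) := by ring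
      _ ≤ _ := h1
  have hs := sum_sym2 R (fun Q : W.toAffine.Point => Gf v L (nrm W (xr Q))) A
    (fun i j => L / 6 - hh L |aP v L (i • R) - aP v L (j • R)| / 2 -
      hh L (fold L (aP v L (i • R) + aP v L (j • R))) / 2) ((A.card : ℝ) ^ 2 * (L / 48)) C
    hκ ?_
  · have h0 : Gf v L (nrm W (xr (0 : W.toAffine.Point))) = L / 12 := by
      have e : al v L (nrm W (xr (0 : W.toAffine.Point))) = 0 := aP_zero v L h4 h6
      unfold Gf hh
      rw [e]
      ring
    simp only [h0] at hs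
    linarith
  · intro i _ j _
    obtain ⟨ha0, ha1⟩ := hmem (i • R)
    obtain ⟨hb0, hb1⟩ := hmem (j • R)
    have hm := majorize hLpos hC.le (hmem (i • R + j • R)) (hmem (i • R - j • R))
      (b₁ := |aP v L (i • R) - aP v L (j • R)|) (b₂ := fold L (aP v L (i • R) + aP v L (j • R)))
      ⟨abs_nonneg _, abs_le.mpr ⟨by linarith, by linarith⟩⟩
      ⟨le_min (by linarith) (by linarith), by
        unfold fold
        rcases le_total (aP v L (i • R) + aP v L (j • R)) (L / 2) with h1 | h1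
        · exact (min_le_left _ _).trans h1
        · exact (min_le_right _ _).trans (by linarith)⟩
      (h W h4 h6 hv L hL (i • R) (j • R))
    show L / 6 - hh L |aP v L (i • R) - aP v L (j • R)| / 2 -
      hh L (fold L (aP v L (i • R) + aP v L (j • R))) / 2 - C ≤
      Gf v L (nrm W (xr (i • R + j • R))) + Gf v L (nrm W (xr (i • R - j • R)))
    have e1 : Gf v L (nrm W (xr (i • R + j • R))) = L / 12 - hh L (aP v L (i • R + j • R)) / 2 := rfl
    have e2 : Gf v L (nrm W (xr (i • R - j • R))) = L / 12 - hh L (aP v L (i • R - j • R)) / 2 := rfl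
    rw [e1, e2]
    linarith

end Pool.Agent.H38LT
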