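import Pool.Agent.Lib.H38LT.U2

set_option autoImplicit false

namespace Pool.Agent.H38LT

open Pool.Agent.H38LS NumberField IsDedekindDomain

universe u

variable {K : Type u} [Field K] [NumberField K] [DecidableEq K]

/-! Chunk V1 (M). The local lower bounds at a prime `p`, `R = 12 q P`, general index set with
`M = 2 N + 1` elements. Model: `prime_bound` in H38LS/PP1 (the private lemmas there have to be
copied). The same functions `l`; `2 M² - M ≥ M² - M`, and `- Cf p (2 M² - M) ≥ - 2 Cf p M²` (the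
definition `Bp (fun p => 2 * Cf p)`, `M² = (2 N + 1)²`). -/

omit [NumberField K] [DecidableEq K] in
private theorem V1_delta_ne (W : WeierstrassCurve K) [W.IsElliptic] : W.Δ ≠ 0 :=
  W.isUnit_Δ.ne_zero

private theorem V1_d (p : HeightOneSpectrum (𝓞 K)) (W : WeierstrassCurve K) [W.IsElliptic] :
    ∃ d : ℝ, 0 < d ∧ d ^ 6 = av p W.Δ := by
  have h0 : 0 < av p W.Δ := (av p).pos (V1_delta_ne W)
  refine ⟨av p W.Δ ^ ((1 : ℝ) / 6), Real.rpow_pos_of_pos h0 _, ?_⟩
  rw [← Real.rpow_natCast, ← Real.rpow_mul h0.le]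
  norm_num

private theorem V1_nonneg {a d : ℝ} (hd : 0 < d) : 0 ≤ Real.log (max a d / d) / 2 := by
  have h1 : 1 ≤ max a d / d := by
    rw [le_div_iff₀ hd, one_mul]
    exact le_max_right _ _
  have := Real.log_nonneg h1
  linarith

/-- Potentially good case, `p ∤ 6`. -/
private theorem V1_good (hs : Specs.{u}) (W : WeierstrassCurve K) [W.IsElliptic]
    (p : HeightOneSpectrum (𝓞 K)) (hG : G6 p) (h : av p W.j ≤ 1) {d : ℝ} (hd : 0 < d)
    (hd6 : d ^ 6 = av p W.Δ) {Q : W.toAffine.Point} (hQ : Q ≠ 0) :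
    LocLB (av p) W (xr Q) (Real.log (max (av p ((xr Q).1 + W.b₂ / 12)) d / d) / 2) := by
  have h1 := hs.B1 K (av p) (av_nonarch p) hG.1 hG.2 W (V1_delta_ne W)
    (by simpa using c4_le h) d hd hd6 (xr Q).1
  rw [← (xr_affine hQ).1] at h1
  exact h1

theorem prime_ix (hs : Specs.{u}) {Cf : HeightOneSpectrum (𝓞 K) → ℝ} (hCf : CfOK Cf)
    (W : WeierstrassCurve K) [W.IsElliptic] (p : HeightOneSpectrum (𝓞 K)) (P : W.toAffine.Point)
    (q N : ℕ) (A : Finset ℤ) (hA : ∀ a ∈ A, 0 < a) (hcard : A.card = 2 * N + 1)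
    (hP : ∀ n : ℤ, n ≠ 0 → n • ((12 * q : ℕ) • P) ≠ 0) :
    ∃ l : ℤ → ℝ, (∀ n : ℤ, n ≠ 0 → LocLB (av p) W (xr (n • ((12 * q : ℕ) • P))) (l n)) ∧
      Bp (fun p => 2 * Cf p) W p ((12 * q : ℕ) • P) N ≤ ∑ x ∈ IX A, l (vl x) := by
  have hcard' : (A.card : ℝ) = 2 * N + 1 := by
    rw [hcard]
    push_cast
    ring
  have hN0 : (0 : ℝ) ≤ (N : ℝ) := Nat.cast_nonneg N
  by_cases h : 1 < av p W.j
  · refine ⟨fun n => Gf (av p) (Real.log (av p W.j)) (nrm W (xr (n • ((12 * q : ℕ) • P)))),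
      fun n hn => locLB_point hs (av_nonarch p) h rfl (hP n hn), ?_⟩
    have hL : 0 < Real.log (av p W.j) := Real.log_pos h
    unfold Bp
    rw [if_pos h]
    split_ifs with h0
    · have h1 := ix_nonarch_zero hs.A2 (av_nonarch p) h rfl h0 A
      rw [h1, hcard']
      have h2 : 0 ≤ (2 * (N : ℝ) + 1) ^ 2 * (Real.log (av p W.j) / 12) := by positivity
      nlinarith
    · have h1 := ix_nonarch hs.A2 (av_nonarch p) h rfl ((12 * q : ℕ) • P) A
      rw [hcard'] at h1
      refine le_trans (le_of_eq ?_) h1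
      ring
  · have hj : av p W.j ≤ 1 := not_lt.mp h
    by_cases hG : G6 p
    · obtain ⟨d, hd, hd6⟩ := V1_d p W
      refine ⟨fun n => Real.log (max (av p ((xr (n • ((12 * q : ℕ) • P))).1 + W.b₂ / 12)) d / d) / 2,
        fun n hn => V1_good hs W p hG hj hd hd6 (hP n hn), ?_⟩
      unfold Bp
      rw [if_neg h, if_pos hG]
      split_ifs with hm
      · have h1 : ∑ _x ∈ IX A, Real.log (Nm p) / 12
            ≤ ∑ x ∈ IX A, Real.log (max (av p ((xr ((vl x) • ((12 * q : ℕ) • P))).1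
              + W.b₂ / 12)) d / d) / 2 := by
          refine Finset.sum_le_sum fun x hx => ?_
          have hne : vl x ≠ 0 := vl_ne_zero hA hx
          refine ker_value p hd hd6 ?_
          have h2 := ker_gain hs.B2 hs.B3 p hG.1 hG.2 hj hm hd hd6 q P (vl x)
          rw [(xr_affine (hP _ hne)).1] at h2
          exact h2
        rw [Finset.sum_const, nsmul_eq_mul, card_IX, hcard'] at h1
        refine le_trans ?_ h1
        have hNm : 0 < Real.log (Nm p) := Real.log_pos (one_lt_Nm p)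
        have h2 : 0 ≤ (2 * (N : ℝ) + 1) ^ 2 * (Real.log (Nm p) / 12) := by positivity
        nlinarith
      · exact Finset.sum_nonneg fun x _ => V1_nonneg hd
    · refine ⟨fun _ => -(Cf p), fun n hn => ?_, ?_⟩
      · have h1 := hCf.2.2 p hG W (V1_delta_ne W) (c4_le hj) (xr (n • ((12 * q : ℕ) • P))).1
        rw [← (xr_affine (hP n hn)).1] at h1
        exact h1
      · unfold Bp
        rw [if_neg h, if_neg hG, Finset.sum_const, nsmul_eq_mul, card_IX, hcard']
        have h1 := hCf.1 p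
        nlinarith [mul_nonneg h1 hN0]

end Pool.Agent.H38LT
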